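import Pool.Agent.helper98.ILF.Branch

/-!
# Invariant sets on which the map expands have area zero
-/

set_option autoImplicit false

open Metric Set Filter Complex MeasureTheory Topology

namespace Pool.Agent.helper98.ILF

variable {f : ℂ → ℂ} {c : ℂ} {A α : ℝ}

lemma det_smul (d : ℂ) :
    ((ContinuousLinearMap.toSpanSingleton ℂ d).restrictScalars ℝ : ℂ →L[ℝ] ℂ).det = ‖d‖ ^ 2 := by
  rw [ContinuousLinearMap.det]
  have h := LinearMap.det_restrictScalars (A := ℂ) (R := ℝ) (S := ℂ)
    (f := (ContinuousLinearMap.toSpanSingleton ℂ d : ℂ →ₗ[ℂ] ℂ))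
  have h2 : ((((ContinuousLinearMap.toSpanSingleton ℂ d).restrictScalars ℝ : ℂ →L[ℝ] ℂ)) :
      ℂ →ₗ[ℝ] ℂ) = (ContinuousLinearMap.toSpanSingleton ℂ d : ℂ →ₗ[ℂ] ℂ).restrictScalars ℝ := rfl
  rw [h2, h]
  simp [Algebra.norm_complex_apply, Complex.normSq_eq_norm_sq]

/-- Area of the image of a set under an injective holomorphic map with derivative at least `β`. -/
lemma volume_image_ge {G : ℂ → ℂ} {T : Set ℂ} {β : ℝ} (hT : MeasurableSet T) (hβ : 0 ≤ β)
    (hd : ∀ y ∈ T, DifferentiableAt ℂ G y) (hinj : InjOn G T) (hG : ∀ y ∈ T, β ≤ ‖deriv G y‖) :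
    ENNReal.ofReal (β ^ 2) * volume T ≤ volume (G '' T) := by
  have h1 : ∀ y ∈ T, HasFDerivWithinAt G
      ((ContinuousLinearMap.toSpanSingleton ℂ (deriv G y)).restrictScalars ℝ : ℂ →L[ℝ] ℂ) T y := by
    intro y hy
    exact ((hd y hy).hasDerivAt.hasFDerivAt.restrictScalars ℝ).hasFDerivWithinAt
  rw [← lintegral_abs_det_fderiv_eq_addHaar_image volume hT h1 hinj]
  rw [← setLIntegral_const]
  apply setLIntegral_mono' hT
  intro y hy
  apply ENNReal.ofReal_le_ofReal
  rw [det_smul, abs_of_nonneg (by positivity)]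
  exact pow_le_pow_left₀ hβ (hG y hy) 2

/-- Area of the image of a set under an injective holomorphic map with derivative at most `β`. -/
lemma volume_image_le {G : ℂ → ℂ} {T : Set ℂ} {β : ℝ} (hT : MeasurableSet T)
    (hd : ∀ y ∈ T, DifferentiableAt ℂ G y) (hinj : InjOn G T) (hG : ∀ y ∈ T, ‖deriv G y‖ ≤ β) :
    volume (G '' T) ≤ ENNReal.ofReal (β ^ 2) * volume T := by
  have h1 : ∀ y ∈ T, HasFDerivWithinAt G
      ((ContinuousLinearMap.toSpanSingleton ℂ (deriv G y)).restrictScalars ℝ : ℂ →L[ℝ] ℂ) T y := by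
    intro y hy
    exact ((hd y hy).hasDerivAt.hasFDerivAt.restrictScalars ℝ).hasFDerivWithinAt
  rw [← lintegral_abs_det_fderiv_eq_addHaar_image volume hT h1 hinj]
  rw [← setLIntegral_const]
  apply setLIntegral_mono' hT
  intro y hy
  apply ENNReal.ofReal_le_ofReal
  rw [det_smul, abs_of_nonneg (by positivity)]
  exact pow_le_pow_left₀ (norm_nonneg _) (hG y hy) 2

/-- The forward orbit read backwards. -/
lemma backward_orbit (f : ℂ → ℂ) (z : ℂ) (k : ℕ) :
    ∀ m < k, f (f^[k - (m + 1)] z) = f^[k - m] z := by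
  intro m hm
  rw [← Function.iterate_succ_apply' f]
  congr 2
  omega

/-- **Area zero.** Let `S` be a measurable forward invariant set at positive distance from the orbit
of the singular value, on which `f` is uniformly expanding, and which is nowhere dense in the
measure sense, uniformly. Then `S` has area zero. -/
theorem volume_eq_zero (hf : LiftMap f c A α) {S : Set ℂ} (hSm : MeasurableSet S)
    (hfS : ∀ z ∈ S, f z ∈ S) {r : ℝ} (hr : 0 < r) (hd : ∀ z ∈ S, ∀ j, 3 * r ≤ ‖z - f^[j] c‖)
    {C θ : ℝ} (hC : 0 < C) (hθ0 : 0 < θ) (hθ1 : θ < 1)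
    (hexp : ∀ m, ∀ z ∈ S, 1 ≤ C * θ ^ m * ‖deriv (f^[m]) z‖)
    (hden : ∀ s > 0, ∃ ε > 0, ∀ w ∈ S, ENNReal.ofReal ε ≤ volume (ball w s \ S)) :
    volume S = 0 := by
  by_contra hne
  have hiter : ∀ k, ∀ z ∈ S, f^[k] z ∈ S := by
    intro k
    induction k with
    | zero => intro z hz; exact hz
    | succ k ih => intro z hz; rw [Function.iterate_succ_apply]; exact ih _ (hfS z hz)
  -- a density point
  have hrne : (volume.restrict S) ≠ 0 := by
    rw [Ne, Measure.restrict_eq_zero]; exact hne
  have : NeBot (ae (volume.restrict S)) := ae_neBot.2 hrne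
  obtain ⟨z, hz1, hz2⟩ := ((Besicovitch.ae_tendsto_measure_inter_div volume S).and
    (ae_restrict_mem hSm)).exists
  -- radius
  obtain ⟨s, hs, hs3, hsC⟩ : ∃ s > 0, s ≤ 3 * r ∧ 2 * s * C ≤ r * (1 - θ) := by
    have h1 : 0 < 1 - θ := by linarith
    refine ⟨min (3 * r) (r * (1 - θ) / (2 * C)), by positivity, min_le_left _ _, ?_⟩
    have h2 := min_le_right (3 * r) (r * (1 - θ) / (2 * C))
    calc 2 * min (3 * r) (r * (1 - θ) / (2 * C)) * C
        ≤ 2 * (r * (1 - θ) / (2 * C)) * C := by gcongr
      _ = r * (1 - θ) := by field_simp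
  obtain ⟨ε, hε, hεS⟩ := hden s hs
  -- for each `k` a small disc around `z` with a definite proportion outside of `S`
  have hkey : ∀ k : ℕ, ∃ t : ℝ, 0 < t ∧ t ≤ 2 * (C * θ ^ k) * s ∧
      ENNReal.ofReal (ε * t ^ 2 / (16 * s ^ 2)) ≤ volume (closedBall z t \ S) := by
    intro k
    set ζ : ℕ → ℂ := fun m => f^[k - m] z with hζ
    have hζS : ∀ m, ζ m ∈ S := fun m => hiter _ z hz2
    have hζ0 : ζ 0 = f^[k] z := by simp [hζ]
    have hζk : ζ k = z := by simp [hζ]
    obtain ⟨G, hG⟩ := exists_branch hf hs k ζ (backward_orbit f z k) (by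
      intro j _ hj
      have h1 := hd (ζ 0) (hζS 0) j
      rw [mem_ball, dist_comm, dist_eq_norm] at hj
      linarith)
    have hb : ∀ m ≤ k, ‖deriv (G m) (ζ 0)‖ ≤ C * θ ^ m := by
      intro m hm
      have h1 := hG.norm_deriv_center hf.diff hs hm
      have h2 := hexp m (ζ m) (hζS m)
      have h3 : 0 < ‖deriv (f^[m]) (ζ m)‖ := by
        by_contra h
        have : ‖deriv (f^[m]) (ζ m)‖ = 0 := le_antisymm (not_lt.1 h) (norm_nonneg _)
        rw [this, zero_mul] at h1
        exact zero_ne_one h1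
      have h4 : ‖deriv (G m) (ζ 0)‖ = 1 / ‖deriv (f^[m]) (ζ m)‖ := by
        field_simp; linarith
      rw [h4, div_le_iff₀ h3]
      exact h2
    have hdist := hG.distortion hf hr hs hC hθ0 hθ1 hb
      (fun m _ => by simpa using hd (ζ m) (hζS m) 0) hsC
    set b : ℝ := ‖deriv (G k) (ζ 0)‖ with hbdef
    have hb0 : 0 < b := by
      have h1 := hG.norm_deriv_center hf.diff hs (le_refl k)
      by_contra h
      have : b = 0 := le_antisymm (not_lt.1 h) (norm_nonneg _)
      rw [← hbdef, this, mul_zero] at h1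
      exact zero_ne_one h1
    refine ⟨2 * b * s, by positivity, ?_, ?_⟩
    · have := hb k le_rfl
      have h2 : 2 * b * s ≤ 2 * (C * θ ^ k) * s := by gcongr
      exact h2
    · set T : Set ℂ := ball (ζ 0) s \ S with hT
      have hTm : MeasurableSet T := measurableSet_ball.diff hSm
      have himg : G k '' T ⊆ closedBall z (2 * b * s) \ S := by
        rintro _ ⟨y, ⟨hy1, hy2⟩, rfl⟩
        constructor
        · have h2 := (convex_ball (ζ 0) s).norm_image_sub_le_of_norm_deriv_le
            (fun z hz => (hG.diff k le_rfl).differentiableAt (isOpen_ball.mem_nhds hz))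
            (fun z hz => (hdist k le_rfl z hz).1) (mem_ball_self hs) hy1
          rw [hG.center k le_rfl, hζk] at h2
          rw [mem_closedBall, dist_eq_norm]
          calc ‖G k y - z‖ ≤ 2 * b * ‖y - ζ 0‖ := h2
            _ ≤ 2 * b * s := by
                apply mul_le_mul_of_nonneg_left _ (by positivity)
                rw [← dist_eq_norm]; exact (mem_ball.1 hy1).le
        · intro hS
          apply hy2
          rw [← hG.iterate le_rfl hy1]
          exact hiter k _ hS
      have hvol := volume_image_ge (G := G k) (T := T) (β := b / 2) hTm (by positivity)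
        (fun y hy => (hG.diff k le_rfl).differentiableAt (isOpen_ball.mem_nhds hy.1))
        ((hG.injOn le_rfl).mono sdiff_subset)
        (fun y hy => by
          have := (hdist k le_rfl y hy.1).2
          linarith)
      calc ENNReal.ofReal (ε * (2 * b * s) ^ 2 / (16 * s ^ 2))
          = ENNReal.ofReal ((b / 2) ^ 2) * ENNReal.ofReal ε := by
            rw [← ENNReal.ofReal_mul (by positivity)]
            congr 1
            field_simp
            ring
        _ ≤ ENNReal.ofReal ((b / 2) ^ 2) * volume T := by gcongr; exact hεS _ (hζS 0)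
        _ ≤ volume (G k '' T) := hvol
        _ ≤ volume (closedBall z (2 * b * s) \ S) := measure_mono himg
  choose t ht0 htle htv using hkey
  have htlim : Tendsto t atTop (𝓝[>] 0) := by
    rw [tendsto_nhdsWithin_iff]
    refine ⟨?_, Eventually.of_forall fun k => ht0 k⟩
    have h1 : Tendsto (fun k : ℕ => 2 * (C * θ ^ k) * s) atTop (𝓝 (2 * (C * 0) * s)) :=
      (((tendsto_pow_atTop_nhds_zero_of_lt_one hθ0.le hθ1).const_mul C).const_mul 2).mul_const s
    simp only [mul_zero, zero_mul] at h1
    exact squeeze_zero (fun k => (ht0 k).le) htle h1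
  have hlim := hz1.comp htlim
  -- the proportion is bounded away from one
  set q : ℝ := ε / (16 * s ^ 2 * Real.pi) with hq
  have hpi := Real.pi_pos
  have hq0 : 0 < q := by positivity
  have hprop : ∀ k, volume (S ∩ closedBall z (t k)) / volume (closedBall z (t k)) ≤
      ENNReal.ofReal (1 - q) := by
    intro k
    have hv : volume (closedBall z (t k)) = ENNReal.ofReal (Real.pi * t k ^ 2) := by
      rw [Complex.volume_closedBall, ← ENNReal.ofReal_pow (ht0 k).le,
        ← ENNReal.ofReal_coe_nnreal, ← ENNReal.ofReal_mul (by have := ht0 k; positivity)]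
      congr 1
      simp only [NNReal.coe_real_pi]
      ring
    have hfin : volume (closedBall z (t k)) ≠ ⊤ := by rw [hv]; exact ENNReal.ofReal_ne_top
    have hsplit : volume (S ∩ closedBall z (t k)) + volume (closedBall z (t k) \ S) =
        volume (closedBall z (t k)) := by
      rw [inter_comm]; exact measure_inter_add_sdiff _ hSm
    have hle : ENNReal.ofReal (q * (Real.pi * t k ^ 2)) ≤ volume (closedBall z (t k) \ S) := by
      have : q * (Real.pi * t k ^ 2) = ε * t k ^ 2 / (16 * s ^ 2) := by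
        rw [hq]; field_simp
      rw [this]; exact htv k
    have hpos : 0 < Real.pi * t k ^ 2 := by have := ht0 k; positivity
    have h3 : volume (S ∩ closedBall z (t k)) ≤ ENNReal.ofReal ((1 - q) * (Real.pi * t k ^ 2)) := by
      have h4 : volume (S ∩ closedBall z (t k)) + ENNReal.ofReal (q * (Real.pi * t k ^ 2)) ≤
          ENNReal.ofReal (Real.pi * t k ^ 2) := by
        rw [← hv, ← hsplit]; gcongr
      have h5 : volume (S ∩ closedBall z (t k)) ≤
          ENNReal.ofReal (Real.pi * t k ^ 2) - ENNReal.ofReal (q * (Real.pi * t k ^ 2)) :=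
        ENNReal.le_sub_of_add_le_right ENNReal.ofReal_ne_top h4
      rw [← ENNReal.ofReal_sub _ (by positivity)] at h5
      calc _ ≤ _ := h5
        _ = _ := by congr 1; ring
    rw [hv]
    apply ENNReal.div_le_of_le_mul
    calc volume (S ∩ closedBall z (t k)) ≤ ENNReal.ofReal ((1 - q) * (Real.pi * t k ^ 2)) := h3
      _ = ENNReal.ofReal (1 - q) * ENNReal.ofReal (Real.pi * t k ^ 2) := by
          rw [ENNReal.ofReal_mul' hpos.le]
  have h1 : (1 : ENNReal) ≤ ENNReal.ofReal (1 - q) :=
    le_of_tendsto' hlim hprop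
  have h2 : ENNReal.ofReal (1 - q) < 1 := by
    rw [← ENNReal.ofReal_one]
    exact (ENNReal.ofReal_lt_ofReal_iff one_pos).2 (by linarith)
  exact absurd h1 (not_le.2 h2)

end Pool.Agent.helper98.ILF
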