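import Mathlib

/-!
# Holomorphic lifts through `exp` and through powers on a disc, and backward branches
-/

set_option autoImplicit false

open Metric Set Filter Complex

namespace Pool.Agent.helper98.ILF

/-- Logarithm of a nonvanishing holomorphic function on a disc with prescribed centre value. -/
lemma exists_lift_exp {w u : ℂ} {ρ : ℝ} {h : ℂ → ℂ} (hρ : 0 < ρ)
    (hd : DifferentiableOn ℂ h (ball w ρ)) (h0 : ∀ y ∈ ball w ρ, h y ≠ 0)
    (hu : Complex.exp u = h w) :
    ∃ g : ℂ → ℂ, DifferentiableOn ℂ g (ball w ρ) ∧ g w = u ∧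
      ∀ y ∈ ball w ρ, Complex.exp (g y) = h y := by
  have hq : DifferentiableOn ℂ (fun y => deriv h y / h y) (ball w ρ) :=
    (hd.deriv isOpen_ball).div hd h0
  obtain ⟨g, hgw, hg⟩ := hq.isExactOn_ball.with_val_at w u
  have hgd : DifferentiableOn ℂ g (ball w ρ) := fun y hy =>
    (hg y hy).differentiableAt.differentiableWithinAt
  refine ⟨g, hgd, hgw, ?_⟩
  have hconst : ∀ y ∈ ball w ρ, h y * Complex.exp (-g y) = h w * Complex.exp (-g w) := by
    intro y hy
    have hF : ∀ z ∈ ball w ρ, HasDerivAt (fun z => h z * Complex.exp (-g z)) 0 z := by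
      intro z hz
      have h1 : HasDerivAt h (deriv h z) z :=
        (hd.differentiableAt (isOpen_ball.mem_nhds hz)).hasDerivAt
      have h2 := h1.mul ((hg z hz).neg.cexp)
      have h3 : deriv h z * Complex.exp (-g z) +
          h z * (Complex.exp (-g z) * -(deriv h z / h z)) = 0 := by
        have := h0 z hz
        field_simp
        ring
      rw [← h3]
      exact h2
    have hconv : Convex ℝ (ball w ρ) := convex_ball w ρ
    have := hconv.norm_image_sub_le_of_norm_hasDerivWithin_le (f := fun z => h z * Complex.exp (-g z))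
      (f' := fun _ => 0) (C := 0) (fun z hz => (hF z hz).hasDerivWithinAt)
      (fun z _ => by simp) (mem_ball_self hρ) hy
    simp only [zero_mul] at this
    have h5 := norm_le_zero_iff.1 this
    exact sub_eq_zero.1 h5
  intro y hy
  have h1 := hconst y hy
  rw [hgw, ← hu, ← Complex.exp_add, add_neg_cancel, Complex.exp_zero] at h1
  have h2 : Complex.exp (-g y) * Complex.exp (g y) = 1 := by
    rw [← Complex.exp_add, neg_add_cancel, Complex.exp_zero]
  calc Complex.exp (g y) = (h y * Complex.exp (-g y)) * Complex.exp (g y) := by rw [h1, one_mul]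
    _ = h y * (Complex.exp (-g y) * Complex.exp (g y)) := by ring
    _ = h y := by rw [h2, mul_one]

/-- `n`-th root of a nonvanishing holomorphic function on a disc with prescribed centre value. -/
lemma exists_lift_pow {n : ℕ} (hn : n ≠ 0) {w u : ℂ} {ρ : ℝ} {h : ℂ → ℂ} (hρ : 0 < ρ)
    (hd : DifferentiableOn ℂ h (ball w ρ)) (h0 : ∀ y ∈ ball w ρ, h y ≠ 0)
    (hu : u ^ n = h w) :
    ∃ g : ℂ → ℂ, DifferentiableOn ℂ g (ball w ρ) ∧ g w = u ∧
      ∀ y ∈ ball w ρ, (g y) ^ n = h y := by
  have hw : h w ≠ 0 := h0 w (mem_ball_self hρ)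
  obtain ⟨L, hLd, hLw, hL⟩ := exists_lift_exp (u := Complex.log (h w)) hρ hd h0
    (Complex.exp_log hw)
  have hn' : (n : ℂ) ≠ 0 := by exact_mod_cast hn
  refine ⟨fun y => Complex.exp ((L y - L w) / n) * u, ?_, ?_, ?_⟩
  · exact (((hLd.sub_const _).div_const _).cexp).mul_const u
  · simp
  · intro y hy
    rw [mul_pow, ← Complex.exp_nat_mul, hu, mul_div_cancel₀ _ hn', Complex.exp_sub, hL y hy,
      hL w (mem_ball_self hρ)]
    field_simp

/-- The class of maps used here: entire maps with a single singular value `c` along which discs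
lift, and with `|f'| = A |f - c| ^ α`. -/
structure LiftMap (f : ℂ → ℂ) (c : ℂ) (A α : ℝ) : Prop where
  diff : Differentiable ℂ f
  A_pos : 0 < A
  α_nonneg : 0 ≤ α
  α_le_one : α ≤ 1
  norm_deriv : ∀ u, ‖deriv f u‖ = A * ‖f u - c‖ ^ α
  lift : ∀ (w : ℂ) (ρ : ℝ) (h : ℂ → ℂ) (u : ℂ), 0 < ρ → DifferentiableOn ℂ h (ball w ρ) →
    (∀ y ∈ ball w ρ, h y ≠ c) → f u = h w →
    ∃ g : ℂ → ℂ, DifferentiableOn ℂ g (ball w ρ) ∧ g w = u ∧ ∀ y ∈ ball w ρ, f (g y) = h y

lemma liftMap_exp (c : ℂ) : LiftMap (fun z => Complex.exp z + c) c 1 1 where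
  diff := by fun_prop
  A_pos := one_pos
  α_nonneg := zero_le_one
  α_le_one := le_rfl
  norm_deriv := by
    intro u
    have : deriv (fun z => Complex.exp z + c) u = Complex.exp u := by
      rw [deriv_add_const]; simp
    rw [this]; simp
  lift := by
    intro w ρ h u hρ hd hne hu
    have hd' : DifferentiableOn ℂ (fun y => h y - c) (ball w ρ) := hd.sub_const c
    obtain ⟨g, hg, hgw, hge⟩ := exists_lift_exp (u := u) hρ hd'
      (fun y hy => sub_ne_zero.2 (hne y hy)) (by rw [← hu]; ring)
    exact ⟨g, hg, hgw, fun y hy => by rw [hge y hy]; ring⟩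

lemma liftMap_pow {n : ℕ} (hn : 1 ≤ n) (c : ℂ) :
    LiftMap (fun z => z ^ n + c) c n (((n : ℝ) - 1) / n) where
  diff := by fun_prop
  A_pos := by exact_mod_cast hn
  α_nonneg := by
    have : (1 : ℝ) ≤ n := by exact_mod_cast hn
    exact div_nonneg (by linarith) (by linarith)
  α_le_one := by
    have : (1 : ℝ) ≤ n := by exact_mod_cast hn
    rw [div_le_one (by linarith)]; linarith
  norm_deriv := by
    intro u
    have h1 : (1 : ℝ) ≤ n := by exact_mod_cast hn
    have : deriv (fun z : ℂ => z ^ n + c) u = n * u ^ (n - 1) := by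
      rw [deriv_add_const]; simp
    rw [this]
    simp only [add_sub_cancel_right, norm_mul, norm_pow, Complex.norm_natCast]
    congr 1
    rw [← Real.rpow_natCast ‖u‖ n, ← Real.rpow_mul (norm_nonneg _), mul_div_cancel₀ _ (by positivity)]
    rw [← Real.rpow_natCast, Nat.cast_sub hn, Nat.cast_one]
  lift := by
    intro w ρ h u hρ hd hne hu
    have hd' : DifferentiableOn ℂ (fun y => h y - c) (ball w ρ) := hd.sub_const c
    obtain ⟨g, hg, hgw, hge⟩ := exists_lift_pow (n := n) (by omega) (u := u) hρ hd'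
      (fun y hy => sub_ne_zero.2 (hne y hy)) (by rw [← hu]; ring)
    exact ⟨g, hg, hgw, fun y hy => by rw [hge y hy]; ring⟩

end Pool.Agent.helper98.ILF
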