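import Mathlib

/-!
# Fatou and Julia sets of an entire function, and invariant line fields
-/

set_option autoImplicit false

open Metric Set Filter MeasureTheory

namespace Pool.Agent.helper98.ILF

/-- The chordal distance of two points of the plane (half of the usual one). -/
noncomputable def chordal (a b : ℂ) : ℝ :=
  ‖a - b‖ / (Real.sqrt (1 + ‖a‖ ^ 2) * Real.sqrt (1 + ‖b‖ ^ 2))

/-- The iterates of `f` are equicontinuous at `z` for the chordal distance. -/
def EquicontAt (f : ℂ → ℂ) (z : ℂ) : Prop :=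
  ∀ ε > 0, ∃ δ > 0, ∀ w : ℂ, ‖w - z‖ < δ → ∀ k : ℕ, chordal (f^[k] w) (f^[k] z) < ε

/-- The Fatou set of `f`: the largest open set on which the iterates of `f` are equicontinuous
(equivalently, by Arzela-Ascoli, normal) for the chordal metric. -/
def fatouSet (f : ℂ → ℂ) : Set ℂ := interior {z | EquicontAt f z}

/-- The Julia set of `f`. -/
def juliaSet (f : ℂ → ℂ) : Set ℂ := (fatouSet f)ᶜ

/-- `μ` is an invariant line field of `f`, supported on the Julia set of `f`: `|μ| = 1` on a set of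
positive area contained in the Julia set, `μ = 0` off this set, and `f^* μ = μ` almost
everywhere, where `(f^* μ)(z) = μ(f(z)) conj(f'(z)) / f'(z)`. -/
def IsInvariantLineField (f : ℂ → ℂ) (μ : ℂ → ℂ) : Prop :=
  Measurable μ ∧ (∀ z, μ z ≠ 0 → ‖μ z‖ = 1) ∧ 0 < volume {z | μ z ≠ 0} ∧
    {z | μ z ≠ 0} ⊆ juliaSet f ∧
    ∀ᵐ z : ℂ, μ (f z) * (starRingEnd ℂ) (deriv f z) / deriv f z = μ z

/-- `f` has an invariant line field supported on its Julia set. -/
def HasInvariantLineField (f : ℂ → ℂ) : Prop := ∃ μ : ℂ → ℂ, IsInvariantLineField f μ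

/-- `f` has an attracting cycle. -/
def HasAttractingCycle (f : ℂ → ℂ) : Prop :=
  ∃ z : ℂ, ∃ k : ℕ, 0 < k ∧ f^[k] z = z ∧ ‖deriv (f^[k]) z‖ < 1

end Pool.Agent.helper98.ILF
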