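import Pool.Agent.helper98.ILF.Defs

/-!
# Criteria for a point to be in the Fatou set
-/

set_option autoImplicit false

open Metric Set Filter MeasureTheory Topology

namespace Pool.Agent.helper98.ILF

lemma one_le_sqrt_one_add (a : ℂ) : 1 ≤ Real.sqrt (1 + ‖a‖ ^ 2) := by
  rw [Real.one_le_sqrt]
  have := sq_nonneg ‖a‖
  linarith

lemma norm_le_sqrt_one_add (a : ℂ) : ‖a‖ ≤ Real.sqrt (1 + ‖a‖ ^ 2) := by
  apply Real.le_sqrt_of_sq_le
  linarith

lemma chordal_le (a b : ℂ) : chordal a b ≤ ‖a - b‖ := by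
  unfold chordal
  apply div_le_self (norm_nonneg _)
  have h1 := one_le_sqrt_one_add a
  have h2 := one_le_sqrt_one_add b
  nlinarith

lemma norm_sub_le_mul_sqrt (a z₀ : ℂ) : ‖a - z₀‖ ≤ (1 + ‖z₀‖) * Real.sqrt (1 + ‖a‖ ^ 2) := by
  have h1 := one_le_sqrt_one_add a
  have h2 := norm_le_sqrt_one_add a
  have h3 := norm_sub_le a z₀
  have h4 := norm_nonneg z₀
  nlinarith

lemma chordal_le_inv {a b z₀ : ℂ} (ha : a ≠ z₀) (hb : b ≠ z₀) :
    chordal a b ≤ (1 + ‖z₀‖) ^ 2 * ‖(a - z₀)⁻¹ - (b - z₀)⁻¹‖ := by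
  have ha' : a - z₀ ≠ 0 := sub_ne_zero.2 ha
  have hb' : b - z₀ ≠ 0 := sub_ne_zero.2 hb
  have h1 : (a - z₀)⁻¹ - (b - z₀)⁻¹ = (b - a) / ((a - z₀) * (b - z₀)) := by
    field_simp; ring
  rw [h1, norm_div, norm_mul, norm_sub_rev b a]
  unfold chordal
  have hs1 := one_le_sqrt_one_add a
  have hs2 := one_le_sqrt_one_add b
  have hna : 0 < ‖a - z₀‖ := norm_pos_iff.2 ha'
  have hnb : 0 < ‖b - z₀‖ := norm_pos_iff.2 hb'
  have hA := norm_sub_le_mul_sqrt a z₀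
  have hB := norm_sub_le_mul_sqrt b z₀
  rw [mul_div_assoc', div_le_div_iff₀ (by positivity) (by positivity)]
  have hmul : ‖a - z₀‖ * ‖b - z₀‖ ≤ ((1 + ‖z₀‖) * Real.sqrt (1 + ‖a‖ ^ 2)) *
      ((1 + ‖z₀‖) * Real.sqrt (1 + ‖b‖ ^ 2)) := by
    apply mul_le_mul hA hB hnb.le
    have := norm_nonneg z₀
    positivity
  calc ‖a - b‖ * (‖a - z₀‖ * ‖b - z₀‖) ≤ ‖a - b‖ * (((1 + ‖z₀‖) * Real.sqrt (1 + ‖a‖ ^ 2)) *
      ((1 + ‖z₀‖) * Real.sqrt (1 + ‖b‖ ^ 2))) := by gcongr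
    _ = _ := by ring

/-- Equicontinuity from a local uniform bound on the orbits. -/
lemma equicontAt_of_bounded {f : ℂ → ℂ} (hf : Differentiable ℂ f) {z : ℂ} {δ R : ℝ} (hδ : 0 < δ)
    (hb : ∀ k : ℕ, ∀ w ∈ ball z δ, ‖f^[k] w‖ ≤ R) : EquicontAt f z := by
  have hR : 0 ≤ R := (norm_nonneg _).trans (hb 0 z (mem_ball_self hδ))
  have hlip : ∀ k : ℕ, ∀ w ∈ ball z δ, ‖f^[k] w - f^[k] z‖ ≤ 2 * R / δ * ‖w - z‖ := by
    intro k w hw
    have hmaps : MapsTo (f^[k]) (ball z δ) (closedBall (f^[k] z) (2 * R)) := by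
      intro y hy
      rw [mem_closedBall, dist_eq_norm]
      calc ‖f^[k] y - f^[k] z‖ ≤ ‖f^[k] y‖ + ‖f^[k] z‖ := norm_sub_le _ _
        _ ≤ R + R := add_le_add (hb k y hy) (hb k z (mem_ball_self hδ))
        _ = 2 * R := by ring
    have := Complex.dist_le_div_mul_dist_of_mapsTo_ball (hf.iterate k).differentiableOn hmaps hw
    rwa [dist_eq_norm, dist_eq_norm] at this
  intro ε hε
  refine ⟨min δ (ε * δ / (2 * R + 1)), by positivity, ?_⟩
  intro w hw k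
  have hw1 : w ∈ ball z δ := by
    rw [mem_ball, dist_eq_norm]; exact hw.trans_le (min_le_left _ _)
  have hw2 : ‖w - z‖ < ε * δ / (2 * R + 1) := hw.trans_le (min_le_right _ _)
  calc chordal (f^[k] w) (f^[k] z) ≤ ‖f^[k] w - f^[k] z‖ := chordal_le _ _
    _ ≤ 2 * R / δ * ‖w - z‖ := hlip k w hw1
    _ ≤ 2 * R / δ * (ε * δ / (2 * R + 1)) := by gcongr
    _ = ε * (2 * R / (2 * R + 1)) := by field_simp
    _ < ε * 1 := by
        apply mul_lt_mul_of_pos_left _ hε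
        rw [div_lt_one (by positivity)]
        linarith
    _ = ε := mul_one ε

/-- Equicontinuity when all but finitely many iterates omit a fixed disc near `z`. -/
lemma equicontAt_of_omit {f : ℂ → ℂ} (hf : Differentiable ℂ f) {z z₀ : ℂ} {δ ρ : ℝ} {k₁ : ℕ}
    (hδ : 0 < δ) (hρ : 0 < ρ) (hb : ∀ k ≥ k₁, ∀ w ∈ ball z δ, ρ ≤ ‖f^[k] w - z₀‖) :
    EquicontAt f z := by
  have hne : ∀ k ≥ k₁, ∀ w ∈ ball z δ, f^[k] w ≠ z₀ := by
    intro k hk w hw h
    have := hb k hk w hw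
    rw [h, sub_self, norm_zero] at this
    linarith
  have hlip : ∀ k ≥ k₁, ∀ w ∈ ball z δ,
      chordal (f^[k] w) (f^[k] z) ≤ (1 + ‖z₀‖) ^ 2 * (2 / ρ / δ * ‖w - z‖) := by
    intro k hk w hw
    set φ : ℂ → ℂ := fun y => (f^[k] y - z₀)⁻¹ with hφ
    have hφd : DifferentiableOn ℂ φ (ball z δ) :=
      ((hf.iterate k).differentiableOn.sub_const z₀).inv
        (fun y hy => sub_ne_zero.2 (hne k hk y hy))
    have hφb : ∀ y ∈ ball z δ, ‖φ y‖ ≤ 1 / ρ := by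
      intro y hy
      rw [hφ]
      simp only [norm_inv]
      rw [← one_div]
      exact one_div_le_one_div_of_le hρ (hb k hk y hy)
    have hmaps : MapsTo φ (ball z δ) (closedBall (φ z) (2 / ρ)) := by
      intro y hy
      rw [mem_closedBall, dist_eq_norm]
      calc ‖φ y - φ z‖ ≤ ‖φ y‖ + ‖φ z‖ := norm_sub_le _ _
        _ ≤ 1 / ρ + 1 / ρ := add_le_add (hφb y hy) (hφb z (mem_ball_self hδ))
        _ = 2 / ρ := by ring
    have h1 := Complex.dist_le_div_mul_dist_of_mapsTo_ball hφd hmaps hw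
    rw [dist_eq_norm, dist_eq_norm] at h1
    refine (chordal_le_inv (hne k hk w hw) (hne k hk z (mem_ball_self hδ))).trans ?_
    gcongr
  intro ε hε
  -- the first iterates
  have hfin : ∃ δ₁ > 0, ∀ w : ℂ, ‖w - z‖ < δ₁ → ∀ k < k₁, chordal (f^[k] w) (f^[k] z) < ε := by
    have h1 : ∀ᶠ w in 𝓝 z, ∀ k ∈ Finset.range k₁, ‖f^[k] w - f^[k] z‖ < ε := by
      rw [Filter.eventually_all_finset]
      intro k _
      have h2 : Tendsto (fun w => ‖f^[k] w - f^[k] z‖) (𝓝 z) (𝓝 0) := by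
        have h3 : Continuous (fun w => ‖f^[k] w - f^[k] z‖) :=
          ((hf.iterate k).continuous.sub continuous_const).norm
        have h4 := h3.tendsto z
        simpa using h4
      exact h2.eventually_lt_const hε
    obtain ⟨δ₁, hδ₁, h2⟩ := Metric.eventually_nhds_iff.1 h1
    refine ⟨δ₁, hδ₁, fun w hw k hk => (chordal_le _ _).trans_lt ?_⟩
    exact h2 (by rwa [dist_eq_norm]) k (Finset.mem_range.2 hk)
  obtain ⟨δ₁, hδ₁, hfin⟩ := hfin
  set L : ℝ := (1 + ‖z₀‖) ^ 2 * (2 / ρ / δ) with hL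
  have hL0 : 0 < L := by have := norm_nonneg z₀; positivity
  refine ⟨min δ₁ (min δ (ε / (2 * L))), by positivity, ?_⟩
  intro w hw k
  rcases lt_or_ge k k₁ with hk | hk
  · exact hfin w (hw.trans_le (min_le_left _ _)) k hk
  · have hw1 : w ∈ ball z δ := by
      rw [mem_ball, dist_eq_norm]
      exact hw.trans_le ((min_le_right _ _).trans (min_le_left _ _))
    have hw2 : ‖w - z‖ < ε / (2 * L) :=
      hw.trans_le ((min_le_right _ _).trans (min_le_right _ _))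
    calc chordal (f^[k] w) (f^[k] z) ≤ (1 + ‖z₀‖) ^ 2 * (2 / ρ / δ * ‖w - z‖) := hlip k hk w hw1
      _ = L * ‖w - z‖ := by rw [hL]; ring
      _ ≤ L * (ε / (2 * L)) := by gcongr
      _ = ε / 2 := by field_simp
      _ < ε := by linarith

/-- If the Julia set has area zero there is no invariant line field. -/
lemma no_line_field {f : ℂ → ℂ} (h : volume (juliaSet f) = 0) : ¬ HasInvariantLineField f := by
  rintro ⟨μ, _, _, hpos, hsub, _⟩
  have := measure_mono_null hsub h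
  rw [this] at hpos
  exact lt_irrefl _ hpos

end Pool.Agent.helper98.ILF
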