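import Pool.Agent.helper98.ILF.Trap
import Pool.Agent.helper98.ILF.Julia

/-!
# Unicritical polynomials with an escaping or attracted critical orbit: the Julia set has area zero
-/

set_option autoImplicit false

open Metric Set Filter Complex MeasureTheory Topology

namespace Pool.Agent.helper98.ILF

/-- A compact set with empty interior is uniformly non dense in measure. -/
lemma density_of_compact {S : Set ℂ} (hS : IsCompact S) (hint : interior S = ∅) :
    ∀ s > 0, ∃ ε > 0, ∀ w ∈ S, ENNReal.ofReal ε ≤ volume (ball w s \ S) := by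
  intro s hs
  obtain ⟨t, ht, hcov⟩ := hS.elim_nhds_subcover (fun z => ball z (s / 2))
    (fun z _ => ball_mem_nhds z (by positivity))
  have hpos : ∀ z, 0 < volume (ball z (s / 2) \ S) := by
    intro z
    have hopen : IsOpen (ball z (s / 2) \ S) := isOpen_ball.sdiff hS.isClosed
    apply hopen.measure_pos volume
    by_contra hne
    rw [not_nonempty_iff_eq_empty, sdiff_eq_empty] at hne
    have h1 : ball z (s / 2) ⊆ interior S := interior_maximal hne isOpen_ball
    rw [hint] at h1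
    exact h1 (mem_ball_self (by positivity))
  set v : ENNReal := t.inf (fun z => volume (ball z (s / 2) \ S)) with hv
  have hv0 : 0 < v := (Finset.lt_inf_iff (by simp)).2 fun z _ => hpos z
  have hmin : min v 1 ≠ ⊤ := ne_top_of_le_ne_top ENNReal.one_ne_top (min_le_right _ _)
  refine ⟨(min v 1).toReal, ENNReal.toReal_pos (lt_min hv0 one_pos).ne' hmin, ?_⟩
  intro w hw
  rw [ENNReal.ofReal_toReal hmin]
  have hw' := hcov hw
  simp only [mem_iUnion] at hw'
  obtain ⟨z, hzt, hwz⟩ := hw'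
  have hsub : ball z (s / 2) ⊆ ball w s := by
    apply ball_subset_ball'
    rw [mem_ball, dist_comm] at hwz
    linarith
  calc min v 1 ≤ v := min_le_left _ _
    _ ≤ volume (ball z (s / 2) \ S) := Finset.inf_le hzt
    _ ≤ volume (ball w s \ S) := measure_mono (sdiff_subset_sdiff_left hsub)

/-- The filled Julia set of `z ^ n + c`. -/
def filled (n : ℕ) (c : ℂ) : Set ℂ := {z | ∀ k, ‖(fun z : ℂ => z ^ n + c)^[k] z‖ ≤ 2 + ‖c‖}

lemma growth {n : ℕ} (hn : 2 ≤ n) {c z : ℂ} (hz : 2 + ‖c‖ ≤ ‖z‖) : 2 * ‖z‖ ≤ ‖z ^ n + c‖ := by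
  have h1 : 1 ≤ ‖z‖ := by have := norm_nonneg c; linarith
  have h2 : ‖z‖ ^ 2 ≤ ‖z‖ ^ n := pow_le_pow_right₀ h1 hn
  have h3 : ‖z ^ n‖ - ‖c‖ ≤ ‖z ^ n + c‖ := by
    have := norm_sub_le (z ^ n + c) c
    rw [add_sub_cancel_right] at this
    linarith
  rw [norm_pow] at h3
  nlinarith [norm_nonneg c]

lemma growth_iterate {n : ℕ} (hn : 2 ≤ n) {c z : ℂ} (hz : 2 + ‖c‖ ≤ ‖z‖) (k : ℕ) :
    2 ^ k * ‖z‖ ≤ ‖(fun z : ℂ => z ^ n + c)^[k] z‖ := by
  have hc := norm_nonneg c
  induction k with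
  | zero => simp
  | succ k ih =>
    rw [Function.iterate_succ_apply']
    have h1 : (1 : ℝ) ≤ 2 ^ k := one_le_pow₀ (by norm_num)
    have h2 : 2 + ‖c‖ ≤ ‖(fun z : ℂ => z ^ n + c)^[k] z‖ := by
      have : ‖z‖ ≤ 2 ^ k * ‖z‖ := le_mul_of_one_le_left (norm_nonneg _) h1
      linarith
    have := growth hn h2
    rw [pow_succ]
    linarith

lemma le_iterate_of_large {n : ℕ} (hn : 2 ≤ n) {c z : ℂ} (hz : 2 + ‖c‖ ≤ ‖z‖) (k : ℕ) :
    ‖z‖ ≤ ‖(fun z : ℂ => z ^ n + c)^[k] z‖ := by
  have h1 : (1 : ℝ) ≤ 2 ^ k := one_le_pow₀ (by norm_num)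
  exact (le_mul_of_one_le_left (norm_nonneg _) h1).trans (growth_iterate hn hz k)

lemma isClosed_filled (n : ℕ) (c : ℂ) : IsClosed (filled n c) := by
  have : filled n c = ⋂ k : ℕ, {z | ‖(fun z : ℂ => z ^ n + c)^[k] z‖ ≤ 2 + ‖c‖} := by
    ext z; simp [filled]
  rw [this]
  apply isClosed_iInter
  intro k
  have hcont : Continuous (fun z : ℂ => z ^ n + c) := by fun_prop
  exact isClosed_le (hcont.iterate k).norm continuous_const

lemma filled_subset (n : ℕ) (c : ℂ) : filled n c ⊆ closedBall 0 (2 + ‖c‖) := by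
  intro z hz
  rw [mem_closedBall_zero_iff]
  simpa using hz 0

lemma isCompact_filled (n : ℕ) (c : ℂ) : IsCompact (filled n c) :=
  (isCompact_closedBall 0 (2 + ‖c‖)).of_isClosed_subset (isClosed_filled n c) (filled_subset n c)

lemma preimage_filled {n : ℕ} (hn : 2 ≤ n) (c : ℂ) :
    (fun z : ℂ => z ^ n + c) ⁻¹' filled n c = filled n c := by
  ext z
  constructor
  · intro h k
    cases k with
    | zero =>
      by_contra hlt
      rw [not_le] at hlt
      simp only [Function.iterate_zero, id] at hlt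
      have h1 := growth hn hlt.le
      have h2 := h 0
      simp only [Function.iterate_zero, id] at h2
      have := norm_nonneg c
      linarith
    | succ k =>
      rw [Function.iterate_succ_apply]
      exact h k
  · intro h k
    have := h (k + 1)
    rwa [Function.iterate_succ_apply] at this

lemma isOpenMap_pow {n : ℕ} (hn : 2 ≤ n) (c : ℂ) : IsOpenMap (fun z : ℂ => z ^ n + c) := by
  apply isOpenMap_of_liftMap (by fun_prop)
  intro w
  by_cases h : c = w
  · exact ⟨1, by simp [h]⟩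
  · exact ⟨0, by simp [show n ≠ 0 by omega, h]⟩

lemma preimage_frontier_filled {n : ℕ} (hn : 2 ≤ n) (c : ℂ) :
    (fun z : ℂ => z ^ n + c) ⁻¹' frontier (filled n c) = frontier (filled n c) := by
  rw [(isOpenMap_pow hn c).preimage_frontier_eq_frontier_preimage (by fun_prop), preimage_filled hn]

lemma exists_of_notMem_filled {n : ℕ} (hn : 2 ≤ n) {c z : ℂ} (hz : z ∉ filled n c) (B : ℝ) :
    ∃ k₀ : ℕ, ∀ k ≥ k₀, B < ‖(fun z : ℂ => z ^ n + c)^[k] z‖ := by
  simp only [filled, mem_ofPred_eq, not_forall, not_le] at hz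
  obtain ⟨k₁, hk₁⟩ := hz
  set y := (fun z : ℂ => z ^ n + c)^[k₁] z with hy
  have hc := norm_nonneg c
  obtain ⟨m, hm⟩ := exists_nat_gt B
  refine ⟨k₁ + m, fun k hk => ?_⟩
  obtain ⟨j, rfl⟩ : ∃ j, k = j + k₁ := ⟨k - k₁, by omega⟩
  rw [Function.iterate_add_apply]
  have h1 := growth_iterate hn hk₁.le j
  have h2 : (j : ℝ) < 2 ^ j := by exact_mod_cast Nat.lt_two_pow_self
  have h3 : (m : ℝ) ≤ j := by exact_mod_cast (by omega : m ≤ j)
  have h4 : (1 : ℝ) ≤ ‖y‖ := by linarith
  have h5 : (2 : ℝ) ^ j ≤ 2 ^ j * ‖y‖ := le_mul_of_one_le_right (by positivity) h4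
  linarith

/-- The Julia set is contained in the boundary of the filled Julia set. -/
lemma juliaSet_subset {n : ℕ} (hn : 2 ≤ n) (c : ℂ) :
    juliaSet (fun z : ℂ => z ^ n + c) ⊆ frontier (filled n c) := by
  set f : ℂ → ℂ := fun z => z ^ n + c with hf
  have hfd : Differentiable ℂ f := by rw [hf]; fun_prop
  have hc := norm_nonneg c
  rw [juliaSet, compl_subset_comm]
  have hsub : interior (filled n c) ∪ (filled n c)ᶜ ⊆ fatouSet f := by
    apply interior_maximal _ (isOpen_interior.union (isClosed_filled n c).isOpen_compl)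
    rintro z (hz | hz)
    · obtain ⟨δ, hδ, hb⟩ := Metric.isOpen_iff.1 isOpen_interior z hz
      exact equicontAt_of_bounded hfd hδ fun k w hw => interior_subset (hb hw) k
    · have hz' : z ∉ filled n c := hz
      simp only [filled, mem_ofPred_eq, not_forall, not_le] at hz'
      obtain ⟨k₁, hk₁⟩ := hz'
      have hcont : Continuous (fun w => ‖f^[k₁] w‖) := (hfd.continuous.iterate k₁).norm
      obtain ⟨δ, hδ, hb⟩ := Metric.eventually_nhds_iff.1 (hcont.tendsto z |>.eventually_const_lt hk₁)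
      refine equicontAt_of_omit hfd (z₀ := 0) (ρ := 1) (k₁ := k₁) hδ one_pos ?_
      intro k hk w hw
      obtain ⟨j, rfl⟩ : ∃ j, k = j + k₁ := ⟨k - k₁, by omega⟩
      rw [Function.iterate_add_apply, sub_zero]
      have h1 : 2 + ‖c‖ < ‖f^[k₁] w‖ := hb hw
      have h2 := le_iterate_of_large hn h1.le j
      linarith
  intro z hz
  apply hsub
  by_contra hcon
  simp only [mem_union, mem_compl_iff, not_or, not_not] at hcon
  apply hz
  rw [(isClosed_filled n c).frontier_eq]
  exact ⟨hcon.2, hcon.1⟩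

/-- If the orbit of the critical value stays away from the boundary of the filled Julia set, this
boundary has area zero. -/
theorem volume_frontier_filled {n : ℕ} (hn : 2 ≤ n) (c : ℂ) {r : ℝ} (hr : 0 < r)
    (hd : ∀ z ∈ frontier (filled n c), ∀ j, 3 * r ≤ ‖z - (fun z : ℂ => z ^ n + c)^[j] c‖) :
    volume (frontier (filled n c)) = 0 := by
  set f : ℂ → ℂ := fun z => z ^ n + c with hfdef
  set K := filled n c with hK
  set R := 2 + ‖c‖ with hR
  have hc := norm_nonneg c
  have hlift : LiftMap f c n (((n : ℝ) - 1) / n) := liftMap_pow (by omega) c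
  have hSK : frontier K ⊆ K := (isClosed_filled n c).frontier_subset
  have hScl : IsClosed (frontier K) := isClosed_frontier
  have hScomp : IsCompact (frontier K) := (isCompact_filled n c).of_isClosed_subset hScl hSK
  have hfS : ∀ z ∈ frontier K, f z ∈ frontier K := by
    intro z hz
    have := preimage_frontier_filled hn c
    rw [← hK] at this
    have h2 : z ∈ f ⁻¹' frontier K := by rw [this]; exact hz
    exact h2
  have hSR : ∀ z ∈ frontier K, ∀ k, ‖f^[k] z‖ ≤ R := fun z hz k => hSK hz k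
  set M := R + 2 * r + 1 with hM
  have hhalf : ∀ k ≥ 1, ∀ w ∈ frontier K, ∀ u, f^[k] u ∈ ball w (2 * r) → -M < u.re := by
    intro k _ w hw u hu
    have h1 : ‖f^[k] u‖ ≤ R + 2 * r := by
      have h2 := hSR w hw 0
      simp only [Function.iterate_zero, id] at h2
      have h3 : ‖f^[k] u - w‖ < 2 * r := by rw [← dist_eq_norm]; exact hu
      have h4 := norm_add_le (f^[k] u - w) w
      rw [sub_add_cancel] at h4
      linarith
    have h2 : ‖u‖ ≤ R + 2 * r := by
      by_contra hlt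
      rw [not_le] at hlt
      have h3 : 2 + ‖c‖ ≤ ‖u‖ := by linarith
      have := le_iterate_of_large hn h3 k
      linarith
    have h3 := Complex.abs_re_le_norm u
    have h4 := neg_abs_le u.re
    linarith
  have hesc : ∀ η > 0, ∃ k₀ : ℕ, ∀ k ≥ k₀, ∀ z ∈ frontier K, ∃ x ∈ ball z (η / (z.re + M)),
      f^[k] x ∉ ball (f^[k] z) r := by
    intro η hη
    set η' := η / (R + M) with hη'
    have hη'0 : 0 < η' := by positivity
    have hx : ∀ z ∈ frontier K, ∃ x ∈ ball z (η' / 2), x ∉ K := by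
      intro z hz
      have h1 : z ∈ closure Kᶜ := by
        rw [frontier_eq_closure_inter_closure] at hz
        exact hz.2
      obtain ⟨x, hx1, hx2⟩ := Metric.mem_closure_iff.1 h1 (η' / 2) (by positivity)
      exact ⟨x, by rwa [mem_ball, dist_comm], hx1⟩
    choose! x hxb hxK using hx
    have hk : ∀ z ∈ frontier K, ∃ k₀ : ℕ, ∀ k ≥ k₀, R + r < ‖f^[k] (x z)‖ := fun z hz =>
      exists_of_notMem_filled hn (hxK z hz) (R + r)
    choose! κ hκ using hk
    obtain ⟨t, ht, hcov⟩ := hScomp.elim_nhds_subcover (fun z => ball z (η' / 2))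
      (fun z _ => ball_mem_nhds z (by positivity))
    refine ⟨t.sup κ, fun k hk z hz => ?_⟩
    have hz' := hcov hz
    simp only [mem_iUnion] at hz'
    obtain ⟨z', hzt, hzz⟩ := hz'
    refine ⟨x z', ?_, ?_⟩
    · have h1 := hxb z' (ht z' hzt)
      have h2 : dist (x z') z < η' := by
        calc dist (x z') z ≤ dist (x z') z' + dist z' z := dist_triangle _ _ _
          _ < η' / 2 + η' / 2 := add_lt_add h1 (by rwa [mem_ball, dist_comm] at hzz)
          _ = η' := by ring
      rw [mem_ball]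
      refine h2.trans_le ?_
      rw [hη']
      have h3 := hSR z hz 0
      simp only [Function.iterate_zero, id] at h3
      have h4 := Complex.abs_re_le_norm z
      have h5 := neg_abs_le z.re
      have h6 := le_abs_self z.re
      have h7 : 0 < z.re + M := by linarith
      gcongr
      linarith
    · intro hmem
      have h1 := hκ z' (ht z' hzt) k ((Finset.le_sup hzt).trans hk)
      have h2 := hSR z hz k
      have h3 : ‖f^[k] (x z') - f^[k] z‖ < r := by rw [← dist_eq_norm]; exact hmem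
      have h4 := norm_add_le (f^[k] (x z') - f^[k] z) (f^[k] z)
      rw [sub_add_cancel] at h4
      linarith
  obtain ⟨k₀, hk₀⟩ := expansion hlift hfS hr hd hhalf hesc 2
  obtain ⟨C, hC, θ, hθ0, hθ1, hexp⟩ := exp_growth hlift hfS hr hd (le_max_right k₀ 1)
    (hk₀ (max k₀ 1) (le_max_left _ _))
  exact volume_eq_zero hlift hScl.measurableSet hfS hr hd hC hθ0 hθ1 hexp
    (density_of_compact hScomp (interior_frontier (isClosed_filled n c)))

/-- Escaping critical value. -/
lemma separation_of_escape {n : ℕ} (hn : 2 ≤ n) {c : ℂ} (hc : c ∉ filled n c) :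
    ∃ r > 0, ∀ z ∈ frontier (filled n c), ∀ j,
      3 * r ≤ ‖z - (fun z : ℂ => z ^ n + c)^[j] c‖ := by
  set f : ℂ → ℂ := fun z => z ^ n + c with hfdef
  set K := filled n c with hK
  have hSK : frontier K ⊆ K := (isClosed_filled n c).frontier_subset
  obtain ⟨k₀, hk₀⟩ := exists_of_notMem_filled hn hc (2 + ‖c‖ + 3)
  set T : Set ℂ := (fun j => f^[j] c) '' (Finset.range k₀ : Set ℕ) with hT
  have hTc : IsCompact T := ((Finset.range k₀).finite_toSet.image _).isCompact
  have hcK : ∀ j, f^[j] c ∉ K := by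
    intro j hj
    apply hc
    intro k
    by_contra hlt
    rw [not_le] at hlt
    -- growth
    have h1 : ∀ i, 2 + ‖c‖ < ‖f^[k + i] c‖ := by
      intro i
      rw [Nat.add_comm k i, Function.iterate_add_apply]
      exact hlt.trans_le (le_iterate_of_large hn hlt.le i)
    have h2 := hj k
    have h3 := h1 j
    rw [← Function.iterate_add_apply] at h2
    exact absurd h2 (not_le.2 h3)
  have hdisj : Disjoint (frontier K) T := by
    rw [disjoint_left]
    rintro z hz ⟨j, _, rfl⟩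
    exact hcK j (hSK hz)
  obtain ⟨r, hr, hsep⟩ := exists_separation isClosed_frontier hTc hdisj
  refine ⟨min r 1, by positivity, fun z hz j => ?_⟩
  rcases lt_or_ge j k₀ with hj | hj
  · have h1 := hsep z hz (f^[j] c) ⟨j, by simpa using hj, rfl⟩
    have h2 := min_le_left r 1
    linarith
  · have h1 := hk₀ j hj
    have h2 : ‖z‖ ≤ 2 + ‖c‖ := by simpa using hSK hz 0
    have h3 : ‖f^[j] c‖ - ‖z‖ ≤ ‖z - f^[j] c‖ := by
      rw [norm_sub_rev]; exact norm_sub_norm_le _ _
    have h4 := min_le_right r 1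
    linarith

/-- A trapping disc around an attracting periodic point. -/
lemma exists_trap {f : ℂ → ℂ} (hf : Differentiable ℂ f) {z₀ : ℂ} {p : ℕ} (hz : f^[p] z₀ = z₀)
    (hl : ‖deriv (f^[p]) z₀‖ < 1) :
    ∃ ρ > 0, ∀ y ∈ closedBall z₀ ρ, f^[p] y ∈ ball z₀ ρ := by
  obtain ⟨q, hq1, hq2⟩ := exists_between hl
  have hq0 : 0 < q := (norm_nonneg _).trans_lt hq1
  have h1 : HasDerivAt (f^[p]) (deriv (f^[p]) z₀) z₀ := ((hf.iterate p) z₀).hasDerivAt
  have h2 : ∀ᶠ y in 𝓝 z₀, ‖f^[p] y - f^[p] z₀ - (y - z₀) • deriv (f^[p]) z₀‖ ≤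
      (q - ‖deriv (f^[p]) z₀‖) * ‖y - z₀‖ := (hasDerivAt_iff_isLittleO.1 h1).def (by linarith)
  obtain ⟨ρ, hρ, hb⟩ := Metric.nhds_basis_closedBall.eventually_iff.1 h2
  refine ⟨ρ, hρ, fun y hy => ?_⟩
  have h3 := hb hy
  rw [hz, smul_eq_mul] at h3
  rw [mem_ball, dist_eq_norm]
  have hy' : ‖y - z₀‖ ≤ ρ := by rw [← dist_eq_norm]; exact hy
  have h4 : ‖f^[p] y - z₀‖ ≤ ‖f^[p] y - z₀ - (y - z₀) * deriv (f^[p]) z₀‖ +
      ‖(y - z₀) * deriv (f^[p]) z₀‖ := by
    have := norm_add_le (f^[p] y - z₀ - (y - z₀) * deriv (f^[p]) z₀) ((y - z₀) * deriv (f^[p]) z₀)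
    rwa [sub_add_cancel] at this
  rw [norm_mul] at h4
  calc ‖f^[p] y - z₀‖ ≤ (q - ‖deriv (f^[p]) z₀‖) * ‖y - z₀‖ +
        ‖y - z₀‖ * ‖deriv (f^[p]) z₀‖ := by linarith
    _ = q * ‖y - z₀‖ := by ring
    _ ≤ q * ρ := by gcongr
    _ < 1 * ρ := by gcongr
    _ = ρ := one_mul ρ

/-- The critical value is attracted by every attracting cycle. -/
lemma critical_mem_basin {n : ℕ} (hn : 2 ≤ n) {c z₀ : ℂ} {p : ℕ}
    (hz : (fun z : ℂ => z ^ n + c)^[p] z₀ = z₀)
    (hl : ‖deriv ((fun z : ℂ => z ^ n + c)^[p]) z₀‖ < 1) {ρ : ℝ} (hρ : 0 < ρ) :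
    c ∈ basin (fun z : ℂ => z ^ n + c) z₀ ρ := by
  set f : ℂ → ℂ := fun z => z ^ n + c with hfdef
  have hlift : LiftMap f c n (((n : ℝ) - 1) / n) := liftMap_pow (by omega) c
  have hfd := hlift.diff
  by_contra hcb
  have hav : ∀ j, f^[j] c ∉ ball z₀ ρ := by
    intro j hj
    exact hcb ⟨j, hj⟩
  -- iterates of the cycle
  have hcyc : ∀ q, f^[p * q] z₀ = z₀ := by
    intro q
    rw [Function.iterate_mul]
    exact Function.iterate_fixed hz q
  have hder : ∀ q, deriv (f^[p * q]) z₀ = (deriv (f^[p]) z₀) ^ q := by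
    intro q
    induction q with
    | zero => simp
    | succ q ih =>
      rw [Nat.mul_succ, deriv_iterate_add hfd, hz, ih, pow_succ]
  have hc0 := norm_nonneg c
  set R : ℝ := 2 + ‖c‖ + ‖z₀‖ + ρ with hR
  have hR0 : 0 < R := by have := norm_nonneg z₀; linarith
  have hbound : ∀ q : ℕ, 1 ≤ ‖deriv (f^[p]) z₀‖ ^ q * (2 * R / ρ) := by
    intro q
    set k := p * q with hk
    set ζ : ℕ → ℂ := fun m => f^[k - m] z₀ with hζ
    have hζ0 : ζ 0 = z₀ := by simp [hζ, hk, hcyc q]
    have hζk : ζ k = z₀ := by simp [hζ]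
    obtain ⟨G, hG⟩ := exists_branch hlift hρ k ζ (backward_orbit f z₀ k) (by
      intro j _
      rw [hζ0]; exact hav j)
    have h1 := hG.norm_deriv_center hfd hρ le_rfl
    rw [hζk, hζ0, hk, hder q, norm_pow] at h1
    have hmaps : MapsTo (G k) (ball (ζ 0) ρ) (closedBall (G k (ζ 0)) (2 * R)) := by
      have hbd : ∀ y ∈ ball (ζ 0) ρ, ‖G k y‖ ≤ R := by
        intro y hy
        have h2 := hG.iterate le_rfl hy
        by_contra hlt
        rw [not_le] at hlt
        have hz0 := norm_nonneg z₀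
        have h3 : 2 + ‖c‖ ≤ ‖G k y‖ := by linarith
        have h4 := le_iterate_of_large hn h3 k
        rw [← hfdef, h2] at h4
        rw [hζ0, mem_ball, dist_eq_norm] at hy
        have h5 := norm_add_le (y - z₀) z₀
        rw [sub_add_cancel] at h5
        linarith
      intro y hy
      rw [mem_closedBall, dist_eq_norm]
      calc ‖G k y - G k (ζ 0)‖ ≤ ‖G k y‖ + ‖G k (ζ 0)‖ := norm_sub_le _ _
        _ ≤ R + R := add_le_add (hbd y hy) (hbd _ (mem_ball_self hρ))
        _ = 2 * R := by ring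
    have h2 : ‖deriv (G k) (ζ 0)‖ ≤ 2 * R / ρ :=
      Complex.norm_deriv_le_div_of_mapsTo_ball (hG.diff k le_rfl) hmaps hρ
    rw [hζ0] at h2
    calc (1 : ℝ) = ‖deriv (f^[p]) z₀‖ ^ q * ‖deriv (G k) z₀‖ := h1.symm
      _ ≤ ‖deriv (f^[p]) z₀‖ ^ q * (2 * R / ρ) := by gcongr
  have hlim : Tendsto (fun q : ℕ => ‖deriv (f^[p]) z₀‖ ^ q * (2 * R / ρ)) atTop
      (𝓝 (0 * (2 * R / ρ))) :=
    (tendsto_pow_atTop_nhds_zero_of_lt_one (norm_nonneg _) hl).mul_const _
  rw [zero_mul] at hlim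
  have := ge_of_tendsto' hlim hbound
  linarith

/-- Attracting cycle. -/
lemma separation_of_attracting {n : ℕ} (hn : 2 ≤ n) {c : ℂ}
    (hc : HasAttractingCycle (fun z : ℂ => z ^ n + c)) :
    ∃ r > 0, ∀ z ∈ frontier (filled n c), ∀ j,
      3 * r ≤ ‖z - (fun z : ℂ => z ^ n + c)^[j] c‖ := by
  set f : ℂ → ℂ := fun z => z ^ n + c with hfdef
  obtain ⟨z₀, p, hp, hz, hl⟩ := hc
  have hfd : Differentiable ℂ f := by rw [hfdef]; fun_prop
  obtain ⟨ρ, hρ, htrap⟩ := exists_trap hfd hz hl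
  obtain ⟨j₀, hj₀⟩ := critical_mem_basin hn hz hl hρ
  obtain ⟨T, hT, hTb, hT1, hT2⟩ := exists_compact_trap hfd.continuous hp htrap
    (isCompact_singleton (x := c)) (j₀ := j₀) (by
      intro y hy
      rw [mem_singleton_iff] at hy
      rw [hy]; exact ball_subset_closedBall hj₀)
  -- the basin is contained in the filled Julia set
  obtain ⟨B, hB⟩ := hT.isBounded.exists_norm_le
  have hbK : basin f z₀ ρ ⊆ filled n c := by
    intro z hzb
    by_contra hzK
    obtain ⟨k₀, hk₀⟩ := exists_of_notMem_filled hn hzK B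
    obtain ⟨j, hj⟩ := hzb
    have h1 := hT2 (f^[j] z) (ball_subset_closedBall hj) k₀
    rw [← Function.iterate_add_apply] at h1
    have h2 := hB _ h1
    have h3 := hk₀ (k₀ + j) (by omega)
    exact absurd h2 (not_le.2 h3)
  have hbi : basin f z₀ ρ ⊆ interior (filled n c) :=
    interior_maximal hbK (isOpen_basin hfd.continuous z₀ ρ)
  have hdisj : Disjoint (frontier (filled n c)) T := by
    rw [disjoint_left]
    intro z hz1 hz2
    exact hz1.2 (hbi (hTb hz2))
  obtain ⟨r, hr, hsep⟩ := exists_separation isClosed_frontier hT hdisj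
  exact ⟨r, hr, fun z hz j => hsep z hz _ (hT1 c rfl j)⟩

/-- **Hyperbolic unicritical polynomials**: if the critical orbit of `z ^ n + c` tends to infinity or
`z ^ n + c` has an attracting cycle, the Julia set has area zero. -/
theorem volume_juliaSet_pow {n : ℕ} (hn : 2 ≤ n) {c : ℂ}
    (h : c ∉ filled n c ∨ HasAttractingCycle (fun z : ℂ => z ^ n + c)) :
    volume (juliaSet (fun z : ℂ => z ^ n + c)) = 0 := by
  obtain ⟨r, hr, hsep⟩ := h.elim (separation_of_escape hn) (separation_of_attracting hn)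
  exact measure_mono_null (juliaSet_subset hn c) (volume_frontier_filled hn c hr hsep)

end Pool.Agent.helper98.ILF
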