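import Mathlib

/-!
# Area estimates from local information at many scales
-/

set_option autoImplicit false

open Metric Set Filter MeasureTheory Topology

namespace Pool.Agent.helper98.ILF

/-- Global area bound from local ones, by the Vitali covering lemma. -/
lemma volume_le_of_local {N Q : Set ℂ} {r : ℂ → ℝ} {θ : ENNReal} {R : ℝ}
    (hr : ∀ c ∈ N, 0 < r c ∧ r c ≤ R) (hsub : ∀ c ∈ N, closedBall c (r c) ⊆ Q)
    (hloc : ∀ c ∈ N, volume (N ∩ closedBall c (5 * r c)) ≤ θ * volume (closedBall c (r c))) :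
    volume N ≤ θ * volume Q := by
  obtain ⟨u, huN, hdisj, hcov⟩ := Vitali.exists_disjoint_subfamily_covering_enlargement_closedBall
    N (fun c : ℂ => c) r R (fun a ha => (hr a ha).2) 5 (by norm_num)
  have hcount : u.Countable := by
    apply hdisj.countable_of_nonempty_interior
    intro a ha
    exact ⟨a, ball_subset_interior_closedBall (mem_ball_self (hr a (huN ha)).1)⟩
  have hNsub : N ⊆ ⋃ b ∈ u, N ∩ closedBall b (5 * r b) := by
    intro a ha
    obtain ⟨b, hb, hab⟩ := hcov a ha
    simp only [mem_iUnion]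
    exact ⟨b, hb, ha, hab (mem_closedBall_self (hr a ha).1.le)⟩
  calc volume N ≤ volume (⋃ b ∈ u, N ∩ closedBall b (5 * r b)) := measure_mono hNsub
    _ ≤ ∑' b : u, volume (N ∩ closedBall (b : ℂ) (5 * r b)) := measure_biUnion_le _ hcount _
    _ ≤ ∑' b : u, θ * volume (closedBall (b : ℂ) (r b)) :=
        ENNReal.tsum_le_tsum fun b => hloc b (huN b.2)
    _ = θ * ∑' b : u, volume (closedBall (b : ℂ) (r b)) := ENNReal.tsum_mul_left
    _ = θ * volume (⋃ b ∈ u, closedBall b (r b)) := by
        rw [measure_biUnion hcount hdisj (fun b _ => measurableSet_closedBall)]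
    _ ≤ θ * volume Q := by
        gcongr
        apply iUnion₂_subset
        intro b hb
        exact hsub b (huN hb)

lemma volume_closedBall_eq (z : ℂ) {t : ℝ} (ht : 0 ≤ t) :
    volume (closedBall z t) = ENNReal.ofReal (Real.pi * t ^ 2) := by
  rw [Complex.volume_closedBall, ← ENNReal.ofReal_pow ht,
    ← ENNReal.ofReal_coe_nnreal, ← ENNReal.ofReal_mul (by positivity)]
  congr 1
  simp only [NNReal.coe_real_pi]
  ring

lemma volume_ball_eq (z : ℂ) {t : ℝ} (ht : 0 ≤ t) :
    volume (ball z t) = ENNReal.ofReal (Real.pi * t ^ 2) := by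
  rw [Complex.volume_ball, ← ENNReal.ofReal_pow ht,
    ← ENNReal.ofReal_coe_nnreal, ← ENNReal.ofReal_mul (by positivity)]
  congr 1
  simp only [NNReal.coe_real_pi]
  ring

/-- A measurable set which is porous in measure at every point has area zero. -/
lemma volume_zero_of_porous {F : Set ℂ} (hF : MeasurableSet F) {q : ℝ} (hq : 0 < q)
    (h : ∀ c ∈ F, ∃ t : ℕ → ℝ, (∀ k, 0 < t k) ∧ Tendsto t atTop (𝓝 0) ∧
      ∀ k, ENNReal.ofReal (q * (Real.pi * t k ^ 2)) ≤ volume (closedBall c (t k) \ F)) :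
    volume F = 0 := by
  by_contra hne
  have hrne : (volume.restrict F) ≠ 0 := by
    rw [Ne, Measure.restrict_eq_zero]; exact hne
  have : NeBot (ae (volume.restrict F)) := ae_neBot.2 hrne
  obtain ⟨z, hz1, hz2⟩ := ((Besicovitch.ae_tendsto_measure_inter_div volume F).and
    (ae_restrict_mem hF)).exists
  obtain ⟨t, ht0, htlim, htv⟩ := h z hz2
  have htlim' : Tendsto t atTop (𝓝[>] 0) := by
    rw [tendsto_nhdsWithin_iff]
    exact ⟨htlim, Eventually.of_forall fun k => ht0 k⟩
  have hlim := hz1.comp htlim'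
  have hpi := Real.pi_pos
  have hprop : ∀ k, volume (F ∩ closedBall z (t k)) / volume (closedBall z (t k)) ≤
      ENNReal.ofReal (1 - q) := by
    intro k
    have hv : volume (closedBall z (t k)) = ENNReal.ofReal (Real.pi * t k ^ 2) :=
      volume_closedBall_eq z (ht0 k).le
    have hfin : volume (closedBall z (t k)) ≠ ⊤ := by rw [hv]; exact ENNReal.ofReal_ne_top
    have hsplit : volume (F ∩ closedBall z (t k)) + volume (closedBall z (t k) \ F) =
        volume (closedBall z (t k)) := by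
      rw [inter_comm]; exact measure_inter_add_sdiff _ hF
    have hle := htv k
    have hpos : 0 < Real.pi * t k ^ 2 := by have := ht0 k; positivity
    have h3 : volume (F ∩ closedBall z (t k)) ≤ ENNReal.ofReal ((1 - q) * (Real.pi * t k ^ 2)) := by
      have h4 : volume (F ∩ closedBall z (t k)) + ENNReal.ofReal (q * (Real.pi * t k ^ 2)) ≤
          ENNReal.ofReal (Real.pi * t k ^ 2) := by
        rw [← hv, ← hsplit]; gcongr
      have h5 : volume (F ∩ closedBall z (t k)) ≤
          ENNReal.ofReal (Real.pi * t k ^ 2) - ENNReal.ofReal (q * (Real.pi * t k ^ 2)) :=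
        ENNReal.le_sub_of_add_le_right ENNReal.ofReal_ne_top h4
      rw [← ENNReal.ofReal_sub _ (by positivity)] at h5
      calc _ ≤ _ := h5
        _ = _ := by congr 1; ring
    rw [hv]
    apply ENNReal.div_le_of_le_mul
    calc volume (F ∩ closedBall z (t k)) ≤ ENNReal.ofReal ((1 - q) * (Real.pi * t k ^ 2)) := h3
      _ = ENNReal.ofReal (1 - q) * ENNReal.ofReal (Real.pi * t k ^ 2) := by
          rw [ENNReal.ofReal_mul' hpos.le]
  have h1 : (1 : ENNReal) ≤ ENNReal.ofReal (1 - q) :=
    le_of_tendsto' hlim hprop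
  have h2 : ENNReal.ofReal (1 - q) < 1 := by
    rw [← ENNReal.ofReal_one]
    exact (ENNReal.ofReal_lt_ofReal_iff one_pos).2 (by linarith)
  exact absurd h1 (not_le.2 h2)

/-- Area of a rectangle. -/
lemma volume_rect (a b a' b' : ℝ) :
    volume {z : ℂ | (a ≤ z.re ∧ z.re ≤ b) ∧ (a' ≤ z.im ∧ z.im ≤ b')} =
      ENNReal.ofReal (b - a) * ENNReal.ofReal (b' - a') := by
  have h1 : {z : ℂ | (a ≤ z.re ∧ z.re ≤ b) ∧ (a' ≤ z.im ∧ z.im ≤ b')} =
      Complex.measurableEquivRealProd ⁻¹' (Icc a b ×ˢ Icc a' b') := by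
    ext z
    simp [Complex.measurableEquivRealProd_apply]
    tauto
  rw [h1, Complex.volume_preserving_equiv_real_prod.measure_preimage_equiv,
    Measure.volume_eq_prod, Measure.prod_prod, Real.volume_Icc, Real.volume_Icc]

/-- Area of the thin strips where `cos (Im z)` is small. -/
lemma volume_thin_strip (w : ℂ) {ρ ε : ℝ} (hρ : 0 ≤ ρ) (hρ2 : ρ ≤ 1 / 2) (hε : 0 ≤ ε) :
    volume {z : ℂ | z ∈ closedBall w ρ ∧ |Real.cos z.im| ≤ ε} ≤
      ENNReal.ofReal (4 * Real.pi * ρ * ε) := by
  rcases eq_empty_or_nonempty {z : ℂ | z ∈ closedBall w ρ ∧ |Real.cos z.im| ≤ ε} with he | ⟨z₁, hz₁⟩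
  · rw [he]; simp
  · have hpi := Real.pi_pos
    have hpi3 := Real.pi_gt_three
    have hpi4 := Real.pi_lt_d2
    have hsub : {z : ℂ | z ∈ closedBall w ρ ∧ |Real.cos z.im| ≤ ε} ⊆
        {z : ℂ | (w.re - ρ ≤ z.re ∧ z.re ≤ w.re + ρ) ∧
          (z₁.im - Real.pi * ε ≤ z.im ∧ z.im ≤ z₁.im + Real.pi * ε)} := by
      rintro z ⟨hz, hzc⟩
      obtain ⟨hz1, hz1c⟩ := hz₁
      rw [mem_closedBall, dist_eq_norm] at hz hz1
      have h1 := Complex.abs_re_le_norm (z - w)
      rw [Complex.sub_re] at h1
      have h2 := abs_le.1 (h1.trans hz)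
      refine ⟨⟨by linarith [h2.1], by linarith [h2.2]⟩, ?_⟩
      have h3 : |z.im - z₁.im| ≤ 1 := by
        have h4 := Complex.abs_im_le_norm (z - w)
        have h5 := Complex.abs_im_le_norm (z₁ - w)
        rw [Complex.sub_im] at h4 h5
        have h6 : z.im - z₁.im = (z.im - w.im) - (z₁.im - w.im) := by ring
        rw [h6]
        have h7 := abs_sub (z.im - w.im) (z₁.im - w.im)
        linarith
      have hsin : |Real.sin (z.im - z₁.im)| ≤ 2 * ε := by
        rw [Real.sin_sub]
        have h8 : |Real.sin z.im * Real.cos z₁.im| ≤ 1 * ε := by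
          rw [abs_mul]
          exact mul_le_mul (Real.abs_sin_le_one _) hz1c (abs_nonneg _) zero_le_one
        have h9 : |Real.cos z.im * Real.sin z₁.im| ≤ ε * 1 := by
          rw [abs_mul]
          exact mul_le_mul hzc (Real.abs_sin_le_one _) (abs_nonneg _) hε
        have h10 := abs_sub (Real.sin z.im * Real.cos z₁.im) (Real.cos z.im * Real.sin z₁.im)
        linarith
      have hle : |z.im - z₁.im| ≤ Real.pi * ε := by
        have h11 : 2 / Real.pi * |z.im - z₁.im| ≤ Real.sin |z.im - z₁.im| :=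
          Real.mul_le_sin (abs_nonneg _) (by linarith)
        have h12 : Real.sin |z.im - z₁.im| ≤ |Real.sin (z.im - z₁.im)| := by
          rcases abs_cases (z.im - z₁.im) with ⟨h, _⟩ | ⟨h, _⟩
          · rw [h]; exact le_abs_self _
          · rw [h, Real.sin_neg]; exact neg_le_abs _
        have h13 : 2 / Real.pi * |z.im - z₁.im| ≤ 2 * ε := h11.trans (h12.trans hsin)
        have h14 : |z.im - z₁.im| = Real.pi / 2 * (2 / Real.pi * |z.im - z₁.im|) := by
          field_simp
        rw [h14]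
        calc Real.pi / 2 * (2 / Real.pi * |z.im - z₁.im|) ≤ Real.pi / 2 * (2 * ε) := by gcongr
          _ = Real.pi * ε := by ring
      have h15 := abs_le.1 hle
      exact ⟨by linarith [h15.1], by linarith [h15.2]⟩
    refine (measure_mono hsub).trans ?_
    rw [volume_rect, ← ENNReal.ofReal_mul (by linarith)]
    apply ENNReal.ofReal_le_ofReal
    apply le_of_eq
    ring

end Pool.Agent.helper98.ILF
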