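import Pool.Agent.helper98.ILF.Poly

/-!
# Exponential maps with a trapping disc for the singular value: the Julia set has area zero
-/

set_option autoImplicit false

open Metric Set Filter Complex MeasureTheory Topology

namespace Pool.Agent.helper98.ILF

/-- Uniform non density on compact sets. -/
lemma density_of_compact' {S Q : Set ℂ} (hS : IsClosed S) (hQ : IsCompact Q)
    (hint : interior S = ∅) :
    ∀ s > 0, ∃ ε > 0, ∀ w ∈ Q, ENNReal.ofReal ε ≤ volume (ball w s \ S) := by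
  intro s hs
  obtain ⟨t, ht, hcov⟩ := hQ.elim_nhds_subcover (fun z => ball z (s / 2))
    (fun z _ => ball_mem_nhds z (by positivity))
  have hpos : ∀ z, 0 < volume (ball z (s / 2) \ S) := by
    intro z
    have hopen : IsOpen (ball z (s / 2) \ S) := isOpen_ball.sdiff hS
    apply hopen.measure_pos volume
    by_contra hne
    rw [not_nonempty_iff_eq_empty, sdiff_eq_empty] at hne
    have h1 : ball z (s / 2) ⊆ interior S := interior_maximal hne isOpen_ball
    rw [hint] at h1
    exact h1 (mem_ball_self (by positivity))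
  set v : ENNReal := t.inf (fun z => volume (ball z (s / 2) \ S)) with hv
  have hv0 : 0 < v := (Finset.lt_inf_iff (by simp)).2 fun z _ => hpos z
  have hmin : min v 1 ≠ ⊤ := ne_top_of_le_ne_top ENNReal.one_ne_top (min_le_right _ _)
  refine ⟨(min v 1).toReal, ENNReal.toReal_pos (lt_min hv0 one_pos).ne' hmin, ?_⟩
  intro w hw
  rw [ENNReal.ofReal_toReal hmin]
  have hw' := hcov hw
  simp only [mem_iUnion] at hw'
  obtain ⟨z, hzt, hwz⟩ := hw'
  have hsub : ball z (s / 2) ⊆ ball w s := by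
    apply ball_subset_ball'
    rw [mem_ball, dist_comm] at hwz
    linarith
  calc min v 1 ≤ v := min_le_left _ _
    _ ≤ volume (ball z (s / 2) \ S) := Finset.inf_le hzt
    _ ≤ volume (ball w s \ S) := measure_mono (sdiff_subset_sdiff_left hsub)

/-- Uniform choice of eventually good points near the points of a compact set. -/
lemma uniform_of_compact {Q : Set ℂ} (hQ : IsCompact Q) {P : ℕ → ℂ → Prop} {δ : ℝ} (hδ : 0 < δ)
    (h : ∀ z ∈ Q, ∃ x ∈ ball z (δ / 2), ∃ k₀ : ℕ, ∀ k ≥ k₀, P k x) :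
    ∃ k₀ : ℕ, ∀ z ∈ Q, ∃ x ∈ ball z δ, ∀ k ≥ k₀, P k x := by
  choose! x hxb κ hκ using h
  obtain ⟨t, ht, hcov⟩ := hQ.elim_nhds_subcover (fun z => ball z (δ / 2))
    (fun z _ => ball_mem_nhds z (by positivity))
  refine ⟨t.sup κ, fun z hz => ?_⟩
  have hz' := hcov hz
  simp only [mem_iUnion] at hz'
  obtain ⟨z', hzt, hzz⟩ := hz'
  refine ⟨x z', ?_, fun k hk => hκ z' (ht z' hzt) k ((Finset.le_sup hzt).trans hk)⟩
  have h1 := hxb z' (ht z' hzt)
  rw [mem_ball] at h1 hzz ⊢
  rw [dist_comm] at hzz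
  calc dist (x z') z ≤ dist (x z') z' + dist z' z := dist_triangle _ _ _
    _ < δ / 2 + δ / 2 := add_lt_add h1 hzz
    _ = δ := by ring

/-- Solving `exp x = exp z + Δ` near `z`. -/
lemma exists_exp_eq {z Δ : ℂ} {D : ℝ} (hΔ : ‖Δ‖ ≤ D) (hD : 2 * D ≤ Real.exp z.re) :
    ∃ x : ℂ, Complex.exp x = Complex.exp z + Δ ∧ ‖x - z‖ ≤ 2 * D * Real.exp (-z.re) := by
  have hE := Real.exp_pos z.re
  set w : ℂ := Δ * Complex.exp (-z) with hw
  have hwn : ‖w‖ ≤ D * Real.exp (-z.re) := by
    rw [hw, norm_mul, Complex.norm_exp, Complex.neg_re]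
    gcongr
  have hprod : Real.exp z.re * Real.exp (-z.re) = 1 := by
    rw [← Real.exp_add, add_neg_cancel, Real.exp_zero]
  have hEn := Real.exp_pos (-z.re)
  have hw2 : ‖w‖ ≤ 1 / 2 := by nlinarith
  have hne : 1 + w ≠ 0 := by
    intro h
    have : w = -1 := by linear_combination h
    rw [this, norm_neg, norm_one] at hw2
    norm_num at hw2
  refine ⟨z + Complex.log (1 + w), ?_, ?_⟩
  · rw [Complex.exp_add, Complex.exp_log hne, mul_add, mul_one, hw]
    have : Complex.exp z * (Δ * Complex.exp (-z)) = Δ * (Complex.exp z * Complex.exp (-z)) := by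
      ring
    rw [this, ← Complex.exp_add, add_neg_cancel, Complex.exp_zero, mul_one]
  · rw [add_sub_cancel_left]
    have h1 := Complex.norm_log_one_add_half_le_self hw2
    have h2 := norm_nonneg w
    linarith

/-- Near every point one can find a point which the exponential sends far to the left. -/
lemma exists_left (c : ℂ) (M : ℝ) : ∃ D > 0, ∀ W : ℂ, -M < W.re →
    ∃ Δ : ℂ, ‖Δ‖ ≤ D ∧ (Complex.exp (W + Δ) + c).re ≤ -M := by
  set Y : ℝ := |M| + ‖c‖ with hY
  have hY0 : 0 ≤ Y := by positivity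
  refine ⟨|M| + Y + Real.pi, by positivity, fun W hW => ?_⟩
  -- the imaginary part
  obtain ⟨v, hv, hcos⟩ : ∃ v : ℝ, |v| ≤ Real.pi ∧ Real.cos (W.im + v) = -1 := by
    refine ⟨-toIocMod Real.two_pi_pos (-Real.pi) (W.im - Real.pi), ?_, ?_⟩
    · have h := toIocMod_mem_Ioc Real.two_pi_pos (-Real.pi) (W.im - Real.pi)
      rw [abs_neg, abs_le]
      constructor
      · exact h.1.le
      · have := h.2
        linarith
    · have h := toIocMod_add_toIocDiv_zsmul Real.two_pi_pos (-Real.pi) (W.im - Real.pi)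
      set q := toIocDiv Real.two_pi_pos (-Real.pi) (W.im - Real.pi)
      set m := toIocMod Real.two_pi_pos (-Real.pi) (W.im - Real.pi)
      have h2 : W.im + -m = Real.pi + q * (2 * Real.pi) := by
        rw [zsmul_eq_mul] at h
        linarith
      rw [h2, Real.cos_add_int_mul_two_pi, Real.cos_pi]
  refine ⟨⟨M + Y, v⟩, ?_, ?_⟩
  · have h1 : (⟨M + Y, v⟩ : ℂ) = ((M + Y : ℝ) : ℂ) + ((v : ℝ) : ℂ) * Complex.I := by
      apply Complex.ext <;> simp
    rw [h1]
    calc ‖((M + Y : ℝ) : ℂ) + ((v : ℝ) : ℂ) * Complex.I‖ ≤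
          ‖((M + Y : ℝ) : ℂ)‖ + ‖((v : ℝ) : ℂ) * Complex.I‖ := norm_add_le _ _
      _ = |M + Y| + |v| := by
          rw [norm_mul, Complex.norm_I, mul_one, Complex.norm_real, Complex.norm_real,
            Real.norm_eq_abs, Real.norm_eq_abs]
      _ ≤ (|M| + Y) + Real.pi := by
          have := abs_add_le M Y
          rw [abs_of_nonneg hY0] at this
          linarith
  · rw [Complex.add_re, Complex.exp_re, Complex.add_im, Complex.add_re]
    simp only
    rw [hcos]
    have h1 : Y ≤ W.re + (M + Y) := by linarith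
    have h2 : Y ≤ Real.exp (W.re + (M + Y)) := by
      have := Real.add_one_le_exp (W.re + (M + Y))
      linarith
    have h3 := Complex.abs_re_le_norm c
    have h4 := le_abs_self c.re
    have h5 := le_abs_self M
    linarith

lemma cos_three (θ : ℝ) : Real.cos θ ≤ -1 / 2 ∨ Real.cos (θ + 2 * Real.pi / 3) ≤ -1 / 2 ∨
    Real.cos (θ + 4 * Real.pi / 3) ≤ -1 / 2 := by
  by_contra hcon
  simp only [not_or, not_le] at hcon
  obtain ⟨h1, h2, h3⟩ := hcon
  have e1 : Real.cos (2 * Real.pi / 3) = -1 / 2 := by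
    rw [show 2 * Real.pi / 3 = Real.pi - Real.pi / 3 by ring, Real.cos_pi_sub, Real.cos_pi_div_three]
    norm_num
  have e2 : Real.sin (2 * Real.pi / 3) = Real.sqrt 3 / 2 := by
    rw [show 2 * Real.pi / 3 = Real.pi - Real.pi / 3 by ring, Real.sin_pi_sub, Real.sin_pi_div_three]
  have e3 : Real.cos (4 * Real.pi / 3) = -1 / 2 := by
    rw [show 4 * Real.pi / 3 = Real.pi / 3 + Real.pi by ring, Real.cos_add_pi, Real.cos_pi_div_three]
    norm_num
  have e4 : Real.sin (4 * Real.pi / 3) = -(Real.sqrt 3 / 2) := by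
    rw [show 4 * Real.pi / 3 = Real.pi / 3 + Real.pi by ring, Real.sin_add_pi, Real.sin_pi_div_three]
  rw [Real.cos_add, e1, e2] at h2
  rw [Real.cos_add, e3, e4] at h3
  have h4 := Real.sin_sq_add_cos_sq θ
  have h5 : Real.sqrt 3 ^ 2 = 3 := Real.sq_sqrt (by norm_num)
  set a := Real.cos θ
  set b := Real.sin θ
  set q := Real.sqrt 3
  have p1 : 0 < a + 1 / 2 := by linarith
  have p2 : 0 < a * (-1 / 2) - b * (q / 2) + 1 / 2 := by linarith
  have p3 : 0 < a * (-1 / 2) - b * (-(q / 2)) + 1 / 2 := by linarith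
  have m1 := mul_pos p1 p2
  have m2 := mul_pos p2 p3
  have m3 := mul_pos p1 p3
  have key : (a + 1 / 2) * (a * (-1 / 2) - b * (q / 2) + 1 / 2) +
      (a * (-1 / 2) - b * (q / 2) + 1 / 2) * (a * (-1 / 2) - b * (-(q / 2)) + 1 / 2) +
      (a + 1 / 2) * (a * (-1 / 2) - b * (-(q / 2)) + 1 / 2) = 0 := by
    have : b ^ 2 = 1 - a ^ 2 := by linarith
    have h6 : b ^ 2 * q ^ 2 = (1 - a ^ 2) * 3 := by rw [this, h5]
    ring_nf
    ring_nf at h6
    linarith
  linarith

/-- In a large disc centred in a half plane, the strips where the exponential goes far to the left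
have a definite proportion. -/
lemma volume_ball_diff_ge {S : Set ℂ} {X M ϱ : ℝ} {W : ℂ} (hW : -M < W.re)
    (hS : ∀ u : ℂ, X ≤ u.re → Real.cos u.im ≤ -1 / 2 → u ∉ S)
    (h1 : 4 * (X + M) ≤ ϱ) (h2 : 17 ≤ ϱ) :
    ENNReal.ofReal (Real.pi * (ϱ / 4) ^ 2) ≤ 3 * volume (ball W ϱ \ S) := by
  set Q : Set ℂ := ball (W + ((ϱ / 2 : ℝ) : ℂ)) (ϱ / 4) with hQ
  set A : Set ℂ := ball W ϱ \ S with hA
  have hvQ : volume Q = ENNReal.ofReal (Real.pi * (ϱ / 4) ^ 2) := by
    rw [hQ, Complex.volume_ball, ← ENNReal.ofReal_pow (by positivity),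
      ← ENNReal.ofReal_coe_nnreal, ← ENNReal.ofReal_mul (by positivity)]
    congr 1
    simp only [NNReal.coe_real_pi]
    ring
  rw [← hvQ]
  have hpi := Real.pi_pos
  have hpi4 := Real.pi_lt_d2
  have hre : ∀ u ∈ Q, X ≤ u.re := by
    intro u hu
    rw [hQ, mem_ball, dist_eq_norm] at hu
    have h3 := Complex.abs_re_le_norm (u - (W + ((ϱ / 2 : ℝ) : ℂ)))
    rw [Complex.sub_re, Complex.add_re, Complex.ofReal_re] at h3
    have h4 := neg_abs_le (u.re - (W.re + ϱ / 2))
    linarith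
  have hmem : ∀ u ∈ Q, ∀ τ : ℝ, 0 ≤ τ → τ ≤ 4 * Real.pi / 3 →
      u + (τ : ℂ) * Complex.I ∈ ball W ϱ := by
    intro u hu τ hτ0 hτ
    rw [hQ, mem_ball, dist_eq_norm] at hu
    rw [mem_ball, dist_eq_norm]
    have : u + (τ : ℂ) * Complex.I - W =
        (u - (W + ((ϱ / 2 : ℝ) : ℂ))) + (((ϱ / 2 : ℝ) : ℂ) + (τ : ℂ) * Complex.I) := by ring
    rw [this]
    calc ‖(u - (W + ((ϱ / 2 : ℝ) : ℂ))) + (((ϱ / 2 : ℝ) : ℂ) + (τ : ℂ) * Complex.I)‖
        ≤ ‖u - (W + ((ϱ / 2 : ℝ) : ℂ))‖ + (‖((ϱ / 2 : ℝ) : ℂ)‖ + ‖(τ : ℂ) * Complex.I‖) :=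
          (norm_add_le _ _).trans (by gcongr; exact norm_add_le _ _)
      _ < ϱ / 4 + (ϱ / 2 + 4 * Real.pi / 3) := by
          rw [norm_mul, Complex.norm_I, mul_one, Complex.norm_real, Complex.norm_real,
            Real.norm_of_nonneg hτ0, Real.norm_of_nonneg (by linarith : (0 : ℝ) ≤ ϱ / 2)]
          linarith
      _ ≤ ϱ := by linarith
  have hcov : Q ⊆ ((fun u : ℂ => u + 0) ⁻¹' A ∪
      (fun u : ℂ => u + ((2 * Real.pi / 3 : ℝ) : ℂ) * Complex.I) ⁻¹' A) ∪
      (fun u : ℂ => u + ((4 * Real.pi / 3 : ℝ) : ℂ) * Complex.I) ⁻¹' A := by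
    intro u hu
    have hX := hre u hu
    rcases cos_three u.im with h | h | h
    · left; left
      refine ⟨?_, ?_⟩
      · have := hmem u hu 0 le_rfl (by positivity)
        simpa using this
      · simp only [add_zero]; exact hS u hX h
    · left; right
      refine ⟨hmem u hu _ (by positivity) (by linarith), ?_⟩
      apply hS
      · simpa using hX
      · have : (u + ((2 * Real.pi / 3 : ℝ) : ℂ) * Complex.I).im = u.im + 2 * Real.pi / 3 := by
          simp
        rw [this]; exact h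
    · right
      refine ⟨hmem u hu _ (by positivity) le_rfl, ?_⟩
      apply hS
      · simpa using hX
      · have : (u + ((4 * Real.pi / 3 : ℝ) : ℂ) * Complex.I).im = u.im + 4 * Real.pi / 3 := by
          simp
        rw [this]; exact h
  calc volume Q ≤ _ := measure_mono hcov
    _ ≤ (volume A + volume A) + volume A := by
        refine (measure_union_le _ _).trans (add_le_add ((measure_union_le _ _).trans
          (add_le_add ?_ ?_)) ?_)
        · exact (measure_preimage_add_right volume _ A).le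
        · exact (measure_preimage_add_right volume _ A).le
        · exact (measure_preimage_add_right volume _ A).le
    _ = 3 * volume A := by ring

end Pool.Agent.helper98.ILF
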