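import Pool.Agent.helper98.ILF.ExpBox

/-!
# Half strips and discs in the parameter plane of the exponential family
-/

set_option autoImplicit false

open Metric Set Filter Complex MeasureTheory Topology

namespace Pool.Agent.helper98.ILF

/-- The exceptional parameters: an invariant line field, or no attracting cycle. -/
def expExc : Set ℂ :=
  {c | HasInvariantLineField (fun z : ℂ => Complex.exp z + c) ∨
    ¬ HasAttractingCycle (fun z : ℂ => Complex.exp z + c)}

lemma expExc_subset : expExc ⊆ expBad := by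
  intro c hc hgood
  rcases hc with h | h
  · exact no_line_field hgood.2 h
  · exact h hgood.1

lemma neg_one_le_re {c : ℂ} (hc : c ∈ expBad) : -1 ≤ c.re := by
  by_contra hlt
  rw [not_le] at hlt
  exact hc (good_of_re_lt hlt)

lemma volume_expBad_tail {x : ℝ} (hx : 7 ≤ x) (y : ℝ) :
    volume (expBad ∩ {c : ℂ | x ≤ c.re ∧ (y ≤ c.im ∧ c.im ≤ y + 2 * Real.pi)}) ≤
      ENNReal.ofReal (600000 * (x * Real.exp (-x))) := by
  have hcov : expBad ∩ {c : ℂ | x ≤ c.re ∧ (y ≤ c.im ∧ c.im ≤ y + 2 * Real.pi)} ⊆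
      ⋃ j : ℕ, (expBad ∩ {c : ℂ | (x + j ≤ c.re ∧ c.re ≤ x + j + 1) ∧
        (y ≤ c.im ∧ c.im ≤ y + 2 * Real.pi)}) := by
    rintro c ⟨hc, hx1, hy1⟩
    rw [mem_iUnion]
    refine ⟨⌊c.re - x⌋₊, hc, ⟨?_, ?_⟩, hy1⟩
    · have := Nat.floor_le (by linarith : 0 ≤ c.re - x)
      linarith
    · have := (Nat.lt_floor_add_one (c.re - x)).le
      linarith
  refine (measure_mono hcov).trans ((measure_iUnion_le _).trans ?_)
  have hx0 : 0 ≤ x := by linarith
  have hterm : ∀ j : ℕ, volume (expBad ∩ {c : ℂ | (x + j ≤ c.re ∧ c.re ≤ x + j + 1) ∧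
        (y ≤ c.im ∧ c.im ≤ y + 2 * Real.pi)}) ≤
      ENNReal.ofReal (150000 * (x * Real.exp (-x))) * ENNReal.ofReal ((3 / 4) ^ j) := by
    intro j
    have hj0 : (0 : ℝ) ≤ j := by positivity
    refine (volume_expBad_box (by linarith : 7 ≤ x + j) y).trans ?_
    rw [← ENNReal.ofReal_mul (by positivity)]
    apply ENNReal.ofReal_le_ofReal
    have h1 : x + j ≤ x * (1 + j) := by nlinarith
    have h2 : (1 + (j : ℝ)) ≤ 2 ^ j := by
      have := one_add_mul_le_pow (a := (1 : ℝ)) (by norm_num) j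
      norm_num at this
      linarith
    have hE : Real.exp (-(x + j)) = Real.exp (-x) * Real.exp (-1) ^ j := by
      rw [← Real.exp_nat_mul, ← Real.exp_add]; congr 1; ring
    have h3 : Real.exp (-1) ≤ 3 / 8 := by
      have := Real.exp_neg_one_lt_d9
      linarith
    have h4 : Real.exp (-1) ^ j ≤ (3 / 8) ^ j := pow_le_pow_left₀ (Real.exp_pos _).le h3 j
    calc 150000 * ((x + j) * Real.exp (-(x + j)))
        ≤ 150000 * ((x * 2 ^ j) * (Real.exp (-x) * (3 / 8) ^ j)) := by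
          rw [hE]
          have : x + j ≤ x * 2 ^ j := h1.trans (mul_le_mul_of_nonneg_left h2 hx0)
          gcongr
      _ = 150000 * (x * Real.exp (-x)) * (2 ^ j * (3 / 8) ^ j) := by ring
      _ = 150000 * (x * Real.exp (-x)) * (3 / 4) ^ j := by rw [← mul_pow]; norm_num
  calc _ ≤ ∑' j : ℕ, ENNReal.ofReal (150000 * (x * Real.exp (-x))) *
        ENNReal.ofReal ((3 / 4) ^ j) := ENNReal.tsum_le_tsum hterm
    _ = ENNReal.ofReal (150000 * (x * Real.exp (-x))) * ∑' j : ℕ, ENNReal.ofReal ((3 / 4) ^ j) :=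
        ENNReal.tsum_mul_left
    _ = ENNReal.ofReal (150000 * (x * Real.exp (-x))) * ENNReal.ofReal 4 := by
        congr 1
        rw [← ENNReal.ofReal_tsum_of_nonneg (fun k => by positivity)
          (summable_geometric_of_lt_one (by norm_num) (by norm_num)),
          tsum_geometric_of_lt_one (by norm_num) (by norm_num)]
        norm_num
    _ = ENNReal.ofReal (600000 * (x * Real.exp (-x))) := by
        rw [← ENNReal.ofReal_mul (by positivity)]
        congr 1
        ring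

/-- `t exp (-t)` is decreasing on `t ≥ 1`. -/
lemma mul_exp_neg_anti {s t : ℝ} (hs : 1 ≤ s) (hst : s ≤ t) :
    t * Real.exp (-t) ≤ s * Real.exp (-s) := by
  have h1 := Real.add_one_le_exp (t - s)
  have h2 : t ≤ s * Real.exp (t - s) := by nlinarith
  calc t * Real.exp (-t) ≤ s * Real.exp (t - s) * Real.exp (-t) := by gcongr
    _ = s * (Real.exp (t - s) * Real.exp (-t)) := by ring
    _ = s * Real.exp (-s) := by rw [← Real.exp_add]; congr 2; ring

lemma volume_expBad_strip {x : ℝ} (hx : 1 ≤ x) (y : ℝ) :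
    volume (expBad ∩ {c : ℂ | x ≤ c.re ∧ (y ≤ c.im ∧ c.im ≤ y + 2 * Real.pi)}) ≤
      ENNReal.ofReal (10 ^ 6 * (x * Real.exp (-x))) := by
  have hx0 : 0 ≤ x := by linarith
  rcases le_or_gt 7 x with h7 | h7
  · refine (volume_expBad_tail h7 y).trans (ENNReal.ofReal_le_ofReal ?_)
    have : 0 ≤ x * Real.exp (-x) := by positivity
    linarith
  · have hcov : expBad ∩ {c : ℂ | x ≤ c.re ∧ (y ≤ c.im ∧ c.im ≤ y + 2 * Real.pi)} ⊆
        {c : ℂ | (x ≤ c.re ∧ c.re ≤ 7) ∧ (y ≤ c.im ∧ c.im ≤ y + 2 * Real.pi)} ∪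
        (expBad ∩ {c : ℂ | 7 ≤ c.re ∧ (y ≤ c.im ∧ c.im ≤ y + 2 * Real.pi)}) := by
      rintro c ⟨hc, hx1, hy1⟩
      rcases le_total c.re 7 with h | h
      · left; exact ⟨⟨hx1, h⟩, hy1⟩
      · right; exact ⟨hc, h, hy1⟩
    refine (measure_mono hcov).trans ((measure_union_le _ _).trans ?_)
    rw [volume_rect]
    refine (add_le_add_right (volume_expBad_tail le_rfl y) _).trans ?_
    have hpi := Real.pi_pos
    have hpi4 := Real.pi_lt_d2
    rw [← ENNReal.ofReal_mul (by linarith), ← ENNReal.ofReal_add (by nlinarith) (by positivity)]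
    apply ENNReal.ofReal_le_ofReal
    have h1 := mul_exp_neg_anti hx h7.le
    have h2 : 1 / 3000 ≤ Real.exp (-7) := by
      rw [Real.exp_neg, ← one_div]
      apply one_div_le_one_div_of_le (Real.exp_pos _)
      have h1 : Real.exp 7 = Real.exp 1 ^ 7 := by rw [← Real.exp_nat_mul]; norm_num
      have h2 := Real.exp_one_lt_d9
      rw [h1]
      calc Real.exp 1 ^ 7 ≤ 3 ^ 7 := by gcongr; linarith
        _ ≤ 3000 := by norm_num
    nlinarith

lemma volume_expBad_disc {R : ℝ} (hR : 1 ≤ R) :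
    volume (expBad ∩ closedBall 0 R) ≤ ENNReal.ofReal (10 ^ 6 * R) := by
  have hpi3 := Real.pi_gt_three
  have hR0 : 0 ≤ R := by linarith
  set N := ⌈R⌉₊ with hN
  have hN1 : R ≤ N := Nat.le_ceil R
  have hN2 : (N : ℝ) ≤ 2 * R := by have := Nat.ceil_lt_add_one hR0; linarith
  have hcov : expBad ∩ closedBall 0 R ⊆
      {c : ℂ | (-1 ≤ c.re ∧ c.re ≤ 1) ∧ (-R ≤ c.im ∧ c.im ≤ R)} ∪
      ⋃ l ∈ Finset.range N, (expBad ∩ {c : ℂ | 1 ≤ c.re ∧
        (-R + 2 * Real.pi * l ≤ c.im ∧ c.im ≤ -R + 2 * Real.pi * l + 2 * Real.pi)}) := by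
    rintro c ⟨hc, hcR⟩
    rw [mem_closedBall_zero_iff] at hcR
    have him := abs_le.1 ((Complex.abs_im_le_norm c).trans hcR)
    rcases le_total c.re 1 with h | h
    · left; exact ⟨⟨neg_one_le_re hc, h⟩, him⟩
    · right
      simp only [mem_iUnion]
      have hv0 : 0 ≤ (c.im + R) / (2 * Real.pi) := by
        apply div_nonneg _ (by positivity)
        linarith [him.1]
      have h1 := Nat.floor_le hv0
      have h2 := Nat.lt_floor_add_one ((c.im + R) / (2 * Real.pi))
      rw [le_div_iff₀ (by positivity)] at h1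
      rw [div_lt_iff₀ (by positivity)] at h2
      refine ⟨⌊(c.im + R) / (2 * Real.pi)⌋₊, ?_, hc, h, by linarith, by linarith⟩
      rw [Finset.mem_range, Nat.floor_lt hv0, div_lt_iff₀ (by positivity)]
      have : (N : ℝ) * (2 * Real.pi) ≥ N * 6 := by gcongr; linarith
      linarith [him.2]
  refine (measure_mono hcov).trans ((measure_union_le _ _).trans ?_)
  rw [volume_rect]
  have hsum : volume (⋃ l ∈ Finset.range N, (expBad ∩ {c : ℂ | 1 ≤ c.re ∧
        (-R + 2 * Real.pi * l ≤ c.im ∧ c.im ≤ -R + 2 * Real.pi * l + 2 * Real.pi)})) ≤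
      ENNReal.ofReal (N * (10 ^ 6 * (1 * Real.exp (-1)))) := by
    refine (measure_biUnion_finset_le _ _).trans ?_
    calc ∑ l ∈ Finset.range N, volume (expBad ∩ {c : ℂ | 1 ≤ c.re ∧
        (-R + 2 * Real.pi * l ≤ c.im ∧ c.im ≤ -R + 2 * Real.pi * l + 2 * Real.pi)}) ≤
        ∑ _l ∈ Finset.range N, ENNReal.ofReal (10 ^ 6 * (1 * Real.exp (-1))) :=
          Finset.sum_le_sum fun l _ => volume_expBad_strip le_rfl _
      _ = ENNReal.ofReal (N * (10 ^ 6 * (1 * Real.exp (-1)))) := by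
          rw [Finset.sum_const, Finset.card_range, nsmul_eq_mul,
            ENNReal.ofReal_mul (p := (N : ℝ)) (by positivity), ENNReal.ofReal_natCast]
  refine (add_le_add_right hsum _).trans ?_
  rw [← ENNReal.ofReal_mul (by norm_num), ← ENNReal.ofReal_add (by nlinarith) (by positivity)]
  apply ENNReal.ofReal_le_ofReal
  have he := Real.exp_neg_one_lt_d9
  have he0 := Real.exp_pos (-1)
  have h1 : (N : ℝ) * (10 ^ 6 * (1 * Real.exp (-1))) ≤ 2 * R * (10 ^ 6 * (1 * (0.3678794412))) := by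
    gcongr
  linarith

end Pool.Agent.helper98.ILF
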