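import Pool.Agent.helper98.ILF.ExpArea

/-!
# Exponential maps whose singular orbit goes far to the left are hyperbolic
-/

set_option autoImplicit false

open Metric Set Filter Complex MeasureTheory Topology

namespace Pool.Agent.helper98.ILF

/-- The orbit of the singular value `c` of `exp z + c`. -/
noncomputable def orb (c : ℂ) : ℕ → ℂ
  | 0 => c
  | k + 1 => Complex.exp (orb c k) + c

lemma iterate_eq_orb (c : ℂ) (k : ℕ) : (fun z : ℂ => Complex.exp z + c)^[k] c = orb c k := by
  induction k with
  | zero => rfl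
  | succ k ih => rw [Function.iterate_succ_apply', ih]; rfl

/-- The sum of the real parts of the first points of the singular orbit. -/
noncomputable def rsum (c : ℂ) (k : ℕ) : ℝ := ∑ j ∈ Finset.range k, (orb c j).re

lemma rsum_succ (c : ℂ) (k : ℕ) : rsum c (k + 1) = rsum c k + (orb c k).re := by
  rw [rsum, Finset.sum_range_succ]; rfl

lemma prod_exp_eq (c : ℂ) (k : ℕ) :
    ∏ j ∈ Finset.range k, Real.exp (orb c j).re = Real.exp (rsum c k) := by
  rw [rsum, Real.exp_sum]

lemma norm_exp_sub_exp_le (u a : ℂ) :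
    ‖Complex.exp u - Complex.exp a‖ ≤ Real.exp a.re * ‖u - a‖ * Real.exp ‖u - a‖ := by
  have h1 : Complex.exp u - Complex.exp a = Complex.exp a * (Complex.exp (u - a) - 1) := by
    rw [mul_sub, ← Complex.exp_add]; simp
  have h2 := Complex.norm_exp_sub_sum_le_norm_mul_exp (u - a) 1
  simp at h2
  rw [h1, norm_mul, Complex.norm_exp, mul_assoc]
  gcongr

/-- Control of the growth of a perturbation along an expanding orbit. -/
lemma growth_bound {E e : ℕ → ℝ} {B D t : ℝ} {k : ℕ} (hB : 1 < B) (hD : 0 ≤ D)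
    (hBD : 2 * (2 * D + 1) ≤ B - 1) (hE : ∀ j < k, B ≤ E j) (ht : 0 ≤ t) (he0 : e 0 ≤ t)
    (hstep : ∀ j < k, e (j + 1) ≤ E j * e j * Real.exp (e j) + t) (he : ∀ j, 0 ≤ e j)
    (htD : t * ∏ i ∈ Finset.range k, E i ≤ D) :
    ∀ j ≤ k, e j ≤ 2 * ((∏ i ∈ Finset.range j, E i) * t) ∧ e j ≤ 2 * D * B⁻¹ ^ (k - j) := by
  have hB0 : 0 < B := by linarith
  have hBi : 0 < B⁻¹ := inv_pos.2 hB0
  have hBi1 : B⁻¹ < 1 := inv_lt_one_of_one_lt₀ hB
  set P : ℕ → ℝ := fun j => ∏ i ∈ Finset.range j, E i with hP
  have hPs : ∀ j, P (j + 1) = P j * E j := fun j => Finset.prod_range_succ _ _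
  have hP0 : ∀ j ≤ k, B ^ j ≤ P j := by
    intro j
    induction j with
    | zero => intro _; simp [hP]
    | succ j ih =>
      intro hj
      rw [hPs, pow_succ]
      have h1 := ih (by omega)
      have h2 := hE j (by omega)
      have h3 : 0 ≤ B ^ j := by positivity
      exact mul_le_mul h1 h2 hB0.le (h3.trans h1)
  have hPpos : ∀ j ≤ k, 0 < P j := fun j hj => (pow_pos hB0 j).trans_le (hP0 j hj)
  have hPk : ∀ i j, j + i = k → P j * B ^ i ≤ P k := by
    intro i
    induction i with
    | zero => intro j hj; simp at hj; simp [hj]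
    | succ i ih =>
      intro j hj
      have h1 := ih (j + 1) (by omega)
      refine le_trans ?_ h1
      rw [hPs, pow_succ]
      have h2 := hE j (by omega)
      have h3 := (hPpos j (by omega)).le
      calc P j * (B ^ i * B) = P j * B * B ^ i := by ring
        _ ≤ P j * E j * B ^ i := by gcongr
  have htP : ∀ j ≤ k, P j * t ≤ D * B⁻¹ ^ (k - j) := by
    intro j hj
    have h1 := hPk (k - j) j (by omega)
    have h2 : t * (P j * B ^ (k - j)) ≤ D := (mul_le_mul_of_nonneg_left h1 ht).trans htD
    have h3 : 0 < B ^ (k - j) := by positivity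
    rw [inv_pow, ← div_eq_mul_inv, le_div_iff₀ h3]
    linarith
  set w : ℕ → ℝ := fun j => (2 * D * B⁻¹ ^ (k - j) + (1 - B⁻¹ ^ j)) / (B - 1) with hw
  have hB1 : 0 < B - 1 := by linarith
  have hw0 : 0 ≤ w 0 := by
    simp only [hw, pow_zero, sub_self, add_zero]
    positivity
  have hwle : ∀ j, w j ≤ 1 / 2 := by
    intro j
    simp only [hw]
    rw [div_le_iff₀ hB1]
    have h1 : B⁻¹ ^ (k - j) ≤ 1 := pow_le_one₀ hBi.le hBi1.le
    have h2 : 0 ≤ B⁻¹ ^ j := by positivity
    have h3 : 2 * D * B⁻¹ ^ (k - j) ≤ 2 * D * 1 := by gcongr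
    linarith
  have hexp2 : Real.exp (1 / 2) ≤ 2 := by
    rw [← Real.le_log_iff_exp_le (by norm_num)]
    have := Real.log_two_gt_d9
    linarith
  have key : ∀ j ≤ k, e j ≤ P j * t * Real.exp (w j) := by
    intro j
    induction j with
    | zero =>
      intro _
      have h1 : P 0 = 1 := by simp [hP]
      rw [h1, one_mul]
      have h2 := Real.one_le_exp hw0
      calc e 0 ≤ t * 1 := by linarith
        _ ≤ t * Real.exp (w 0) := by gcongr
    | succ j ih =>
      intro hj
      have hj' : j ≤ k := by omega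
      have ih' := ih hj'
      have hPj := hPpos j hj'
      have hPj1 := hPpos (j + 1) hj
      have hejs : e j ≤ 2 * D * B⁻¹ ^ (k - j) := by
        have h1 : Real.exp (w j) ≤ 2 := (Real.exp_le_exp.2 (hwle j)).trans hexp2
        have h2 := htP j hj'
        have h3 : 0 ≤ P j * t := by positivity
        calc e j ≤ P j * t * Real.exp (w j) := ih'
          _ ≤ P j * t * 2 := by gcongr
          _ ≤ D * B⁻¹ ^ (k - j) * 2 := by gcongr
          _ = _ := by ring
      have hinv : 1 / P (j + 1) ≤ B⁻¹ ^ (j + 1) := by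
        rw [inv_pow, one_div]
        exact inv_anti₀ (by positivity) (hP0 (j + 1) hj)
      have hwstep : w j + e j + 1 / P (j + 1) ≤ w (j + 1) := by
        have h1 : w (j + 1) - w j = 2 * D * B⁻¹ ^ (k - j) + B⁻¹ ^ (j + 1) := by
          have h2 : k - j = (k - (j + 1)) + 1 := by omega
          simp only [hw]
          rw [h2]
          have h3 : B⁻¹ ^ (k - (j + 1) + 1) = B⁻¹ ^ (k - (j + 1)) * B⁻¹ := pow_succ _ _
          have h4 : B⁻¹ ^ (j + 1) = B⁻¹ ^ j * B⁻¹ := pow_succ _ _
          rw [h3, h4, div_sub_div_same, div_eq_iff hB1.ne']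
          have h5 : B⁻¹ * B = 1 := inv_mul_cancel₀ hB0.ne'
          linear_combination (-(2 * D * B⁻¹ ^ (k - (j + 1))) - B⁻¹ ^ j) * h5
        linarith
      have h1 : (1 : ℝ) ≤ Real.exp (w j + e j) := by
        apply Real.one_le_exp
        have h2 : 0 ≤ w j := by
          simp only [hw]
          have h3 : B⁻¹ ^ j ≤ 1 := pow_le_one₀ hBi.le hBi1.le
          apply div_nonneg _ hB1.le
          have h4 : 0 ≤ 2 * D * B⁻¹ ^ (k - j) := by positivity
          linarith
        have := he j
        linarith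
      have h2 : 1 + 1 / P (j + 1) ≤ Real.exp (1 / P (j + 1)) := by
        have := Real.add_one_le_exp (1 / P (j + 1))
        linarith
      have hEj : 0 ≤ E j := hB0.le.trans (hE j (by omega))
      have hPt : P (j + 1) * t * (1 / P (j + 1)) = t := by field_simp
      have hPt0 : 0 ≤ P (j + 1) * t * (1 / P (j + 1)) := by rw [hPt]; exact ht
      calc e (j + 1) ≤ E j * e j * Real.exp (e j) + t := hstep j (by omega)
        _ ≤ E j * (P j * t * Real.exp (w j)) * Real.exp (e j) + t := by gcongr
        _ = P (j + 1) * t * Real.exp (w j + e j) + P (j + 1) * t * (1 / P (j + 1)) := by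
            rw [hPt, Real.exp_add, hPs]
            ring
        _ ≤ P (j + 1) * t * Real.exp (w j + e j) +
            P (j + 1) * t * (1 / P (j + 1)) * Real.exp (w j + e j) := by
            have := le_mul_of_one_le_right hPt0 h1
            linarith
        _ = P (j + 1) * t * Real.exp (w j + e j) * (1 + 1 / P (j + 1)) := by ring
        _ ≤ P (j + 1) * t * Real.exp (w j + e j) * Real.exp (1 / P (j + 1)) := by gcongr
        _ = P (j + 1) * t * Real.exp (w j + e j + 1 / P (j + 1)) := by
            rw [Real.exp_add (w j + e j)]; ring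
        _ ≤ P (j + 1) * t * Real.exp (w (j + 1)) := by gcongr
  intro j hj
  have h1 := key j hj
  have h2 : Real.exp (w j) ≤ 2 := (Real.exp_le_exp.2 (hwle j)).trans hexp2
  have hPj := hPpos j hj
  have h3 : e j ≤ P j * t * 2 := h1.trans (by gcongr)
  refine ⟨by linarith, ?_⟩
  have h4 := htP j hj
  linarith

/-- A contraction of a disc has an attracting fixed point. -/
lemma attracting_of_contraction {g : ℂ → ℂ} (hg : Differentiable ℂ g) {c : ℂ} {ρ q : ℝ}
    (hρ : 0 ≤ ρ) (hq : q < 1) (h : MapsTo g (closedBall c ρ) (closedBall c ρ))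
    (hder : ∀ y ∈ closedBall c ρ, ‖deriv g y‖ ≤ q) : ∃ z, g z = z ∧ ‖deriv g z‖ < 1 := by
  have hq0 : 0 ≤ q := (norm_nonneg _).trans (hder c (mem_closedBall_self hρ))
  set Q : NNReal := ⟨q, hq0⟩ with hQ
  have hlip : LipschitzOnWith Q g (closedBall c ρ) :=
    (convex_closedBall c ρ).lipschitzOnWith_of_nnnorm_deriv_le (fun y _ => hg y)
      (fun y hy => by
        rw [← NNReal.coe_le_coe, coe_nnnorm]
        exact hder y hy)
  obtain ⟨z, hzK, hz, -⟩ := ContractingWith.exists_fixedPoint' (K := Q) (f := g)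
    (isCompact_closedBall c ρ).isComplete h
    ⟨by rw [← NNReal.coe_lt_coe]; exact hq, h.lipschitzOnWith_iff_restrict.1 hlip⟩
    (x := c) (mem_closedBall_self hρ) (edist_ne_top _ _)
  exact ⟨z, hz, (hder z hzK).trans_lt hq⟩

/-- A strongly contracting disc contains an attracting fixed point. -/
lemma attracting_of_trap {g : ℂ → ℂ} (hg : Differentiable ℂ g) {c : ℂ} {ρ : ℝ} (hρ : 0 < ρ)
    (h : ∀ y ∈ closedBall c ρ, ‖g y - c‖ ≤ ρ / 8) : ∃ z, g z = z ∧ ‖deriv g z‖ < 1 := by
  refine attracting_of_contraction hg (c := c) (ρ := ρ / 8) (q := 1 / 2) (by positivity)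
    (by norm_num) ?_ ?_
  · intro y hy
    have hy' : y ∈ closedBall c ρ := by
      rw [mem_closedBall] at hy
      rw [mem_closedBall]; linarith
    rw [mem_closedBall, dist_eq_norm]
    exact h y hy'
  · intro y hy
    have hyb : ball y (ρ / 2) ⊆ closedBall c ρ := by
      intro u hu
      rw [mem_closedBall] at hy
      rw [mem_ball] at hu
      rw [mem_closedBall]
      have := dist_triangle u y c
      linarith
    have hmaps : MapsTo g (ball y (ρ / 2)) (closedBall (g y) (ρ / 4)) := by
      intro u hu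
      have h1 := h u (hyb hu)
      have h2 := h y (hyb (mem_ball_self (by positivity)))
      rw [mem_closedBall, dist_eq_norm]
      have h3 : g u - g y = (g u - c) - (g y - c) := by ring
      rw [h3]
      have := norm_sub_le (g u - c) (g y - c)
      linarith
    have h1 := Complex.norm_deriv_le_div_of_mapsTo_ball hg.differentiableOn hmaps (by positivity)
    calc ‖deriv g y‖ ≤ ρ / 4 / (ρ / 2) := h1
      _ = 1 / 2 := by field_simp; norm_num

/-- If the singular orbit stays in `Re ≥ 2` and then goes far to the left, the map is hyperbolic and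
its Julia set has area zero. -/
theorem good_of_left {c : ℂ} {k : ℕ} (hpos : ∀ j < k, 2 ≤ (orb c j).re)
    (hgood : (orb c k).re ≤ -(4 + rsum c k)) :
    HasAttractingCycle (fun z : ℂ => Complex.exp z + c) ∧
      volume (juliaSet (fun z : ℂ => Complex.exp z + c)) = 0 := by
  set f : ℂ → ℂ := fun z => Complex.exp z + c with hf
  have hfd : Differentiable ℂ f := (liftMap_exp c).diff
  set s := rsum c k with hs
  set ρ : ℝ := Real.exp (-s) / 2 with hρ
  have hρ0 : 0 < ρ := by positivity
  have hexp2 : 7 ≤ Real.exp 2 := by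
    have h1 : Real.exp 2 = Real.exp 1 ^ 2 := by rw [← Real.exp_nat_mul]; norm_num
    have h2 := Real.exp_one_gt_d9
    rw [h1]; nlinarith
  have hexp3 : 16 ≤ Real.exp 3 := by
    have h1 : Real.exp 3 = Real.exp 1 ^ 3 := by rw [← Real.exp_nat_mul]; norm_num
    have h2 := Real.exp_one_gt_d9
    rw [h1]
    calc (16 : ℝ) ≤ 2.7 ^ 3 := by norm_num
      _ ≤ Real.exp 1 ^ 3 := by gcongr; linarith
  have htrap : ∀ y ∈ closedBall c ρ, ‖f^[k + 1] y - c‖ ≤ ρ / 8 := by
    intro y hy
    rw [mem_closedBall, dist_eq_norm] at hy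
    have hb := growth_bound (E := fun j => Real.exp (orb c j).re)
      (e := fun j => ‖f^[j] y - orb c j‖) (B := Real.exp 2) (D := 1 / 2) (t := ‖y - c‖) (k := k)
      (by linarith) (by norm_num) (by linarith) (fun j hj => Real.exp_le_exp.2 (hpos j hj))
      (norm_nonneg _) le_rfl (by
        intro j hj
        have h1 := norm_exp_sub_exp_le (f^[j] y) (orb c j)
        have h2 : f^[j + 1] y - orb c (j + 1) = Complex.exp (f^[j] y) - Complex.exp (orb c j) := by
          rw [Function.iterate_succ_apply']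
          simp only [hf, orb]
          ring
        rw [h2]
        have := norm_nonneg (y - c)
        linarith) (fun j => norm_nonneg _) (by
        rw [prod_exp_eq]
        calc ‖y - c‖ * Real.exp (rsum c k) ≤ ρ * Real.exp (rsum c k) := by gcongr
          _ = 1 / 2 * (Real.exp (-s) * Real.exp s) := by rw [hρ]; ring
          _ = 1 / 2 := by rw [← Real.exp_add, neg_add_cancel, Real.exp_zero, mul_one])
    have h1 := (hb k le_rfl).1
    rw [prod_exp_eq] at h1
    have h2 : ‖f^[k] y - orb c k‖ ≤ 1 := by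
      calc ‖f^[k] y - orb c k‖ ≤ 2 * (Real.exp (rsum c k) * ‖y - c‖) := h1
        _ ≤ 2 * (Real.exp (rsum c k) * ρ) := by gcongr
        _ = Real.exp (-s) * Real.exp s := by rw [hρ]; ring
        _ = 1 := by rw [← Real.exp_add, neg_add_cancel, Real.exp_zero]
    have h3 := Complex.abs_re_le_norm (f^[k] y - orb c k)
    rw [Complex.sub_re] at h3
    have h4 := le_abs_self ((f^[k] y).re - (orb c k).re)
    have h5 : f^[k + 1] y - c = Complex.exp (f^[k] y) := by
      rw [Function.iterate_succ_apply']; simp [hf]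
    rw [h5, Complex.norm_exp]
    calc Real.exp (f^[k] y).re ≤ Real.exp (-s - 3) := Real.exp_le_exp.2 (by linarith)
      _ = Real.exp (-s) / Real.exp 3 := Real.exp_sub _ _
      _ ≤ Real.exp (-s) / 16 := by gcongr
      _ = ρ / 8 := by rw [hρ]; ring
  constructor
  · obtain ⟨z, hz1, hz2⟩ := attracting_of_trap (hfd.iterate (k + 1)) hρ0 htrap
    exact ⟨z, k + 1, by omega, hz1, hz2⟩
  · refine volume_juliaSet_exp c c hρ0 (m := k + 1) (by omega) (fun y hy => ?_)
      ⟨0, mem_ball_self hρ0⟩
    rw [mem_ball, dist_eq_norm]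
    exact (htrap y hy).trans_lt (by linarith)

/-- Parameters far to the left. -/
theorem good_of_re_lt {c : ℂ} (hc : c.re < -1) :
    HasAttractingCycle (fun z : ℂ => Complex.exp z + c) ∧
      volume (juliaSet (fun z : ℂ => Complex.exp z + c)) = 0 := by
  set f : ℂ → ℂ := fun z => Complex.exp z + c with hf
  have hfd : Differentiable ℂ f := (liftMap_exp c).diff
  set q := Real.exp (c.re + 1) with hq
  have hq1 : q < 1 := by rw [hq, Real.exp_lt_one_iff]; linarith
  have hre : ∀ y ∈ closedBall c 1, Real.exp y.re ≤ q := by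
    intro y hy
    rw [mem_closedBall, dist_eq_norm] at hy
    have h1 := Complex.abs_re_le_norm (y - c)
    rw [Complex.sub_re] at h1
    have h2 := le_abs_self (y.re - c.re)
    exact Real.exp_le_exp.2 (by linarith)
  have hder : ∀ y, deriv f y = Complex.exp y := by
    intro y; rw [hf, deriv_add_const]; simp
  constructor
  · obtain ⟨z, hz1, hz2⟩ := attracting_of_contraction hfd (c := c) (ρ := 1) zero_le_one hq1
      (fun y hy => by
        rw [mem_closedBall, dist_eq_norm]
        simp only [hf, add_sub_cancel_right, Complex.norm_exp]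
        exact (hre y hy).trans hq1.le)
      (fun y hy => by rw [hder, Complex.norm_exp]; exact hre y hy)
    exact ⟨z, 1, one_pos, by simpa using hz1, by simpa using hz2⟩
  · refine volume_juliaSet_exp c c one_pos (m := 1) le_rfl (fun y hy => ?_)
      ⟨0, mem_ball_self one_pos⟩
    rw [Function.iterate_one, mem_ball, dist_eq_norm]
    simp only [add_sub_cancel_right, Complex.norm_exp]
    exact (hre y hy).trans_lt hq1

end Pool.Agent.helper98.ILF
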