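import Pool.Agent.helper98.ILF.Lift

/-!
# Backward branches on discs and their distortion
-/

set_option autoImplicit false

open Metric Set Filter Complex

namespace Pool.Agent.helper98.ILF

variable {f : ℂ → ℂ} {c : ℂ} {A α : ℝ}

/-- A finite family of backward branches of `f` along the backward orbit `ζ`, defined on the disc
of radius `ρ` around `ζ 0`. -/
structure Branch (f : ℂ → ℂ) (ρ : ℝ) (k : ℕ) (ζ : ℕ → ℂ) (G : ℕ → ℂ → ℂ) : Prop where
  zero : ∀ y, G 0 y = y
  diff : ∀ m ≤ k, DifferentiableOn ℂ (G m) (ball (ζ 0) ρ)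
  center : ∀ m ≤ k, G m (ζ 0) = ζ m
  step : ∀ m < k, ∀ y ∈ ball (ζ 0) ρ, f (G (m + 1) y) = G m y

lemma Branch.mono {ρ ρ' : ℝ} {k : ℕ} {ζ : ℕ → ℂ} {G : ℕ → ℂ → ℂ} (hG : Branch f ρ k ζ G)
    (h : ρ' ≤ ρ) : Branch f ρ' k ζ G where
  zero := hG.zero
  diff := fun m hm => (hG.diff m hm).mono (ball_subset_ball h)
  center := hG.center
  step := fun m hm y hy => hG.step m hm y (ball_subset_ball h hy)

lemma Branch.iterate {ρ : ℝ} {k : ℕ} {ζ : ℕ → ℂ} {G : ℕ → ℂ → ℂ} (hG : Branch f ρ k ζ G)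
    {m : ℕ} (hm : m ≤ k) {y : ℂ} (hy : y ∈ ball (ζ 0) ρ) : f^[m] (G m y) = y := by
  induction m with
  | zero => exact hG.zero y
  | succ m ih =>
    rw [Function.iterate_succ_apply, hG.step m (by omega) y hy]
    exact ih (by omega)

lemma Branch.injOn {ρ : ℝ} {k : ℕ} {ζ : ℕ → ℂ} {G : ℕ → ℂ → ℂ} (hG : Branch f ρ k ζ G)
    {m : ℕ} (hm : m ≤ k) : InjOn (G m) (ball (ζ 0) ρ) := by
  intro x hx y hy hxy
  rw [← hG.iterate hm hx, ← hG.iterate hm hy, hxy]

lemma Branch.deriv_step {ρ : ℝ} {k : ℕ} {ζ : ℕ → ℂ} {G : ℕ → ℂ → ℂ} (hG : Branch f ρ k ζ G)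
    (hf : Differentiable ℂ f) {m : ℕ} (hm : m < k) {y : ℂ} (hy : y ∈ ball (ζ 0) ρ) :
    deriv f (G (m + 1) y) * deriv (G (m + 1)) y = deriv (G m) y := by
  have h1 : HasDerivAt (G (m + 1)) (deriv (G (m + 1)) y) y :=
    ((hG.diff (m + 1) (by omega)).differentiableAt (isOpen_ball.mem_nhds hy)).hasDerivAt
  have h2 : HasDerivAt (f ∘ G (m + 1)) (deriv f (G (m + 1) y) * deriv (G (m + 1)) y) y :=
    (hf (G (m + 1) y)).hasDerivAt.comp y h1
  have h3 : f ∘ G (m + 1) =ᶠ[nhds y] G m := by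
    filter_upwards [isOpen_ball.mem_nhds hy] with z hz using hG.step m hm z hz
  have h4 := h2.congr_of_eventuallyEq h3.symm
  exact h4.deriv.symm

lemma Branch.deriv_iterate {ρ : ℝ} {k : ℕ} {ζ : ℕ → ℂ} {G : ℕ → ℂ → ℂ} (hG : Branch f ρ k ζ G)
    (hf : Differentiable ℂ f) {m : ℕ} (hm : m ≤ k) {y : ℂ} (hy : y ∈ ball (ζ 0) ρ) :
    deriv (f^[m]) (G m y) * deriv (G m) y = 1 := by
  have h1 : HasDerivAt (G m) (deriv (G m) y) y :=
    ((hG.diff m hm).differentiableAt (isOpen_ball.mem_nhds hy)).hasDerivAt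
  have hfm : Differentiable ℂ (f^[m]) := hf.iterate m
  have h2 : HasDerivAt (f^[m] ∘ G m) (deriv (f^[m]) (G m y) * deriv (G m) y) y :=
    (hfm (G m y)).hasDerivAt.comp y h1
  have h3 : f^[m] ∘ G m =ᶠ[nhds y] id := by
    filter_upwards [isOpen_ball.mem_nhds hy] with z hz using hG.iterate hm hz
  have h4 := h2.congr_of_eventuallyEq h3.symm
  rw [← h4.deriv, deriv_id]

lemma Branch.norm_deriv_center {ρ : ℝ} {k : ℕ} {ζ : ℕ → ℂ} {G : ℕ → ℂ → ℂ}
    (hG : Branch f ρ k ζ G) (hf : Differentiable ℂ f) (hρ : 0 < ρ) {m : ℕ} (hm : m ≤ k) :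
    ‖deriv (f^[m]) (ζ m)‖ * ‖deriv (G m) (ζ 0)‖ = 1 := by
  have := hG.deriv_iterate hf hm (mem_ball_self hρ)
  rw [hG.center m hm] at this
  rw [← norm_mul, this, norm_one]

lemma Branch.norm_deriv_step {ρ : ℝ} {k : ℕ} {ζ : ℕ → ℂ} {G : ℕ → ℂ → ℂ}
    (hG : Branch f ρ k ζ G) (hf : LiftMap f c A α) {m : ℕ} (hm : m < k) {y : ℂ}
    (hy : y ∈ ball (ζ 0) ρ) :
    A * ‖G m y - c‖ ^ α * ‖deriv (G (m + 1)) y‖ = ‖deriv (G m) y‖ := by
  rw [← hG.deriv_step hf.diff hm hy, norm_mul, hf.norm_deriv, hG.step m hm y hy]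

/-- Existence of backward branches on a disc which avoids the first points of the orbit of the
singular value. -/
theorem exists_branch (hf : LiftMap f c A α) {ρ : ℝ} (hρ : 0 < ρ) (k : ℕ) (ζ : ℕ → ℂ)
    (hζ : ∀ m < k, f (ζ (m + 1)) = ζ m) (hav : ∀ j < k, f^[j] c ∉ ball (ζ 0) ρ) :
    ∃ G : ℕ → ℂ → ℂ, Branch f ρ k ζ G := by
  induction k with
  | zero =>
    refine ⟨fun _ y => y, fun _ => rfl, fun m _ => differentiableOn_id, ?_, ?_⟩
    · intro m hm
      have : m = 0 := by omega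
      subst this; rfl
    · intro m hm
      omega
  | succ k ih =>
    obtain ⟨G, hG⟩ := ih (fun m hm => hζ m (by omega)) (fun j hj => hav j (by omega))
    have hne : ∀ y ∈ ball (ζ 0) ρ, G k y ≠ c := by
      intro y hy hc
      have h1 := hG.iterate le_rfl hy
      rw [hc] at h1
      exact hav k (by omega) (h1 ▸ hy)
    have hcen : f (ζ (k + 1)) = G k (ζ 0) := by
      rw [hG.center k le_rfl]; exact hζ k (by omega)
    obtain ⟨g, hgd, hgc, hg⟩ := hf.lift (ζ 0) ρ (G k) (ζ (k + 1)) hρ (hG.diff k le_rfl) hne hcen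
    refine ⟨fun m => if m ≤ k then G m else g, ?_, ?_, ?_, ?_⟩
    · intro y; simp [hG.zero]
    · intro m hm
      by_cases h : m ≤ k
      · simp only [h, if_true]; exact hG.diff m h
      · simp only [h, if_false]; exact hgd
    · intro m hm
      by_cases h : m ≤ k
      · simp only [h, if_true]; exact hG.center m h
      · have : m = k + 1 := by omega
        subst this
        simp only [h, if_false]; exact hgc
    · intro m hm y hy
      by_cases h : m + 1 ≤ k
      · have h' : m ≤ k := by omega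
        simp only [h, h', if_true]; exact hG.step m (by omega) y hy
      · have : m = k := by omega
        subst this
        simp only [h, if_false, le_refl, if_true]
        exact hg y hy

lemma one_div_one_sub_le_exp {x : ℝ} (hx0 : 0 ≤ x) (hx : x ≤ 1 / 2) :
    1 ≤ (1 - x) * Real.exp (2 * x) := by
  have h1 : 1 + 2 * x ≤ Real.exp (2 * x) := by linarith [Real.add_one_le_exp (2 * x)]
  nlinarith [mul_le_mul_of_nonneg_left h1 (by linarith : (0 : ℝ) ≤ 1 - x)]

lemma rpow_ratio {a b t α : ℝ} (ha : 0 < a) (hb : 0 < b) (ht : 0 ≤ t) (h0 : 0 ≤ α) (h1 : α ≤ 1)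
    (h : a ≤ Real.exp t * b) : a ^ α ≤ Real.exp t * b ^ α := by
  calc a ^ α ≤ (Real.exp t * b) ^ α := Real.rpow_le_rpow ha.le h h0
    _ = Real.exp t ^ α * b ^ α := Real.mul_rpow (Real.exp_pos t).le hb.le
    _ ≤ Real.exp t * b ^ α := by
        apply mul_le_mul_of_nonneg_right _ (Real.rpow_nonneg hb.le _)
        rw [← Real.exp_mul]
        exact Real.exp_le_exp.2 (mul_le_of_le_one_right ht h1)

/-- Distortion of backward branches on small discs. -/
theorem Branch.distortion {r : ℝ} {k : ℕ} {ζ : ℕ → ℂ} {G : ℕ → ℂ → ℂ} {s C θ : ℝ}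
    (hf : LiftMap f c A α) (hG : Branch f s k ζ G) (hr : 0 < r) (hs : 0 < s) (hC : 0 < C)
    (hθ0 : 0 < θ) (hθ1 : θ < 1)
    (hb : ∀ m ≤ k, ‖deriv (G m) (ζ 0)‖ ≤ C * θ ^ m) (hc : ∀ m ≤ k, 3 * r ≤ ‖ζ m - c‖)
    (hsr : 2 * s * C ≤ r * (1 - θ)) :
    ∀ m ≤ k, ∀ y ∈ ball (ζ 0) s,
      ‖deriv (G m) y‖ ≤ 2 * ‖deriv (G m) (ζ 0)‖ ∧ ‖deriv (G m) (ζ 0)‖ ≤ 2 * ‖deriv (G m) y‖ := by
  set b : ℕ → ℝ := fun m => ‖deriv (G m) (ζ 0)‖ with hbdef
  set t : ℕ → ℝ := fun i => 4 * s * b i / (3 * r) with htdef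
  have hb0 : ∀ m, 0 ≤ b m := fun m => norm_nonneg _
  have ht0 : ∀ m, 0 ≤ t m := fun m => by
    simp only [htdef]; have := hb0 m; positivity
  have hsum : ∀ m ≤ k, ∑ i ∈ Finset.range m, t i ≤ 2 / 3 := by
    intro m hm
    have h1 : ∑ i ∈ Finset.range m, b i ≤ C / (1 - θ) := by
      calc ∑ i ∈ Finset.range m, b i ≤ ∑ i ∈ Finset.range m, C * θ ^ i :=
            Finset.sum_le_sum fun i hi => hb i (by have := Finset.mem_range.1 hi; omega)
        _ = C * ∑ i ∈ Finset.range m, θ ^ i := by rw [Finset.mul_sum]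
        _ ≤ C * (1 / (1 - θ)) := by
            apply mul_le_mul_of_nonneg_left _ hC.le
            rw [geom_sum_eq hθ1.ne, ← neg_sub, ← neg_sub (1 : ℝ) θ, neg_div_neg_eq]
            have : 0 < 1 - θ := by linarith
            have h2 : 0 ≤ θ ^ m := by positivity
            gcongr
            linarith
        _ = C / (1 - θ) := by ring
    have h2 : ∑ i ∈ Finset.range m, t i = 4 * s / (3 * r) * ∑ i ∈ Finset.range m, b i := by
      rw [Finset.mul_sum]
      apply Finset.sum_congr rfl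
      intro i _
      simp only [htdef]; ring
    rw [h2]
    have h3 : 0 < 1 - θ := by linarith
    calc 4 * s / (3 * r) * ∑ i ∈ Finset.range m, b i ≤ 4 * s / (3 * r) * (C / (1 - θ)) :=
          mul_le_mul_of_nonneg_left h1 (by positivity)
      _ = 2 / 3 * ((2 * s * C) / (r * (1 - θ))) := by field_simp; ring
      _ ≤ 2 / 3 * 1 := by
          apply mul_le_mul_of_nonneg_left _ (by norm_num)
          rw [div_le_one (by positivity)]
          exact hsr
      _ = 2 / 3 := by norm_num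
  have hexp23 : Real.exp (2 / 3) ≤ 2 := by
    rw [← Real.le_log_iff_exp_le (by norm_num)]
    have := Real.log_two_gt_d9
    linarith
  have key : ∀ m ≤ k, ∀ y ∈ ball (ζ 0) s,
      ‖deriv (G m) y‖ ≤ Real.exp (∑ i ∈ Finset.range m, t i) * b m ∧
      b m ≤ Real.exp (∑ i ∈ Finset.range m, t i) * ‖deriv (G m) y‖ := by
    intro m
    induction m with
    | zero =>
      intro _ y hy
      have h0 : G 0 = id := by funext y; exact hG.zero y
      simp [hbdef, h0]
    | succ m ih =>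
      intro hm y hy
      have hm' : m ≤ k := by omega
      have ih' := ih hm'
      have hE2 : Real.exp (∑ i ∈ Finset.range m, t i) ≤ 2 :=
        (Real.exp_le_exp.2 (hsum m hm')).trans hexp23
      -- displacement
      have hdisp : ‖G m y - ζ m‖ ≤ 2 * s * b m := by
        have h1 : ∀ z ∈ ball (ζ 0) s, ‖deriv (G m) z‖ ≤ 2 * b m := fun z hz =>
          (ih' z hz).1.trans (mul_le_mul_of_nonneg_right hE2 (hb0 m))
        have h2 := (convex_ball (ζ 0) s).norm_image_sub_le_of_norm_deriv_le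
          (fun z hz => (hG.diff m hm').differentiableAt (isOpen_ball.mem_nhds hz)) h1
          (mem_ball_self hs) hy
        rw [hG.center m hm'] at h2
        calc ‖G m y - ζ m‖ ≤ 2 * b m * ‖y - ζ 0‖ := h2
          _ ≤ 2 * b m * s := by
              apply mul_le_mul_of_nonneg_left _ (by have := hb0 m; positivity)
              rw [← dist_eq_norm]; exact (mem_ball.1 hy).le
          _ = 2 * s * b m := by ring
      have hdr : 2 * s * b m ≤ r := by
        have h1 : b m ≤ C := by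
          calc b m ≤ C * θ ^ m := hb m hm'
            _ ≤ C * 1 := mul_le_mul_of_nonneg_left (pow_le_one₀ hθ0.le hθ1.le) hC.le
            _ = C := mul_one C
        calc 2 * s * b m ≤ 2 * s * C := mul_le_mul_of_nonneg_left h1 (by positivity)
          _ ≤ r * (1 - θ) := hsr
          _ ≤ r * 1 := mul_le_mul_of_nonneg_left (by linarith) hr.le
          _ = r := mul_one r
      have hcm := hc m hm'
      have hζpos : 0 < ‖ζ m - c‖ := by linarith
      have hlow : ‖ζ m - c‖ - 2 * s * b m ≤ ‖G m y - c‖ := by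
        have h1 : ‖ζ m - c‖ ≤ ‖G m y - c‖ + ‖G m y - ζ m‖ := by
          have : ζ m - c = (G m y - c) - (G m y - ζ m) := by ring
          rw [this]; exact norm_sub_le _ _
        linarith
      have hup : ‖G m y - c‖ ≤ ‖ζ m - c‖ + 2 * s * b m := by
        have h1 : ‖G m y - c‖ ≤ ‖G m y - ζ m‖ + ‖ζ m - c‖ := by
          have : G m y - c = (G m y - ζ m) + (ζ m - c) := by ring
          rw [this]; exact norm_add_le _ _
        linarith
      have hGpos : 0 < ‖G m y - c‖ := by linarith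
      set x : ℝ := 2 * s * b m / (3 * r) with hxdef
      have hx0 : 0 ≤ x := by have := hb0 m; positivity
      have hx2 : x ≤ 1 / 2 := by
        rw [hxdef, div_le_iff₀ (by positivity)]; linarith
      have hxt : t m = 2 * x := by simp only [htdef, hxdef]; ring
      have hxd : 2 * s * b m ≤ x * ‖ζ m - c‖ := by
        have : x * (3 * r) = 2 * s * b m := by rw [hxdef]; field_simp
        nlinarith
      have hr1 : ‖ζ m - c‖ ≤ Real.exp (t m) * ‖G m y - c‖ := by
        have h1 : (1 - x) * ‖ζ m - c‖ ≤ ‖G m y - c‖ := by nlinarith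
        have h2 := one_div_one_sub_le_exp hx0 hx2
        rw [hxt]
        calc ‖ζ m - c‖ = 1 * ‖ζ m - c‖ := (one_mul _).symm
          _ ≤ ((1 - x) * Real.exp (2 * x)) * ‖ζ m - c‖ :=
              mul_le_mul_of_nonneg_right h2 hζpos.le
          _ = Real.exp (2 * x) * ((1 - x) * ‖ζ m - c‖) := by ring
          _ ≤ Real.exp (2 * x) * ‖G m y - c‖ :=
              mul_le_mul_of_nonneg_left h1 (Real.exp_pos _).le
      have hr2 : ‖G m y - c‖ ≤ Real.exp (t m) * ‖ζ m - c‖ := by
        have h1 : ‖G m y - c‖ ≤ (1 + x) * ‖ζ m - c‖ := by nlinarith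
        have h2 : 1 + x ≤ Real.exp (t m) := by
          rw [hxt]; linarith [Real.add_one_le_exp (2 * x)]
        exact h1.trans (mul_le_mul_of_nonneg_right h2 hζpos.le)
      have ha1 := rpow_ratio hζpos hGpos (ht0 m) hf.α_nonneg hf.α_le_one hr1
      have ha2 := rpow_ratio hGpos hζpos (ht0 m) hf.α_nonneg hf.α_le_one hr2
      have hst1 := hG.norm_deriv_step hf (by omega : m < k) hy
      have hst0 := hG.norm_deriv_step hf (by omega : m < k) (mem_ball_self hs)
      rw [hG.center m hm'] at hst0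
      have hA := hf.A_pos
      have hP1 : 0 < A * ‖G m y - c‖ ^ α := by positivity
      have hP0 : 0 < A * ‖ζ m - c‖ ^ α := by positivity
      rw [Finset.sum_range_succ, Real.exp_add]
      set E := Real.exp (∑ i ∈ Finset.range m, t i) with hE
      have hE0 : 0 < E := Real.exp_pos _
      have hT0 : 0 < Real.exp (t m) := Real.exp_pos _
      obtain ⟨i1, i2⟩ := ih' y hy
      constructor
      · -- ‖G_{m+1}' y‖ ≤ E * exp t * b (m+1)
        have h1 : A * ‖ζ m - c‖ ^ α * ‖deriv (G (m + 1)) y‖ ≤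
            Real.exp (t m) * (A * ‖G m y - c‖ ^ α * ‖deriv (G (m + 1)) y‖) := by
          have := mul_le_mul_of_nonneg_left ha1 hA.le
          calc _ ≤ (A * (Real.exp (t m) * ‖G m y - c‖ ^ α)) * ‖deriv (G (m + 1)) y‖ :=
                mul_le_mul_of_nonneg_right this (norm_nonneg _)
            _ = _ := by ring
        rw [hst1] at h1
        have h2 : Real.exp (t m) * ‖deriv (G m) y‖ ≤ Real.exp (t m) * (E * b m) :=
          mul_le_mul_of_nonneg_left i1 hT0.le
        have h3 : b m = A * ‖ζ m - c‖ ^ α * b (m + 1) := hst0.symm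
        rw [h3] at h2
        have h4 : A * ‖ζ m - c‖ ^ α * ‖deriv (G (m + 1)) y‖ ≤
            A * ‖ζ m - c‖ ^ α * (E * Real.exp (t m) * b (m + 1)) := by
          calc _ ≤ _ := h1
            _ ≤ _ := h2
            _ = _ := by ring
        exact le_of_mul_le_mul_left h4 hP0
      · have h1 : A * ‖G m y - c‖ ^ α * b (m + 1) ≤
            Real.exp (t m) * (A * ‖ζ m - c‖ ^ α * b (m + 1)) := by
          have := mul_le_mul_of_nonneg_left ha2 hA.le
          calc _ ≤ (A * (Real.exp (t m) * ‖ζ m - c‖ ^ α)) * b (m + 1) :=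
                mul_le_mul_of_nonneg_right this (hb0 _)
            _ = _ := by ring
        have h3 : b m = A * ‖ζ m - c‖ ^ α * b (m + 1) := hst0.symm
        rw [← h3] at h1
        have h2 : Real.exp (t m) * b m ≤ Real.exp (t m) * (E * ‖deriv (G m) y‖) :=
          mul_le_mul_of_nonneg_left i2 hT0.le
        rw [← hst1] at h2
        have h4 : A * ‖G m y - c‖ ^ α * b (m + 1) ≤
            A * ‖G m y - c‖ ^ α * (E * Real.exp (t m) * ‖deriv (G (m + 1)) y‖) := by
          calc _ ≤ _ := h1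
            _ ≤ _ := h2
            _ = _ := by ring
        exact le_of_mul_le_mul_left h4 hP1
  intro m hm y hy
  obtain ⟨h1, h2⟩ := key m hm y hy
  have hE2 : Real.exp (∑ i ∈ Finset.range m, t i) ≤ 2 :=
    (Real.exp_le_exp.2 (hsum m hm)).trans hexp23
  exact ⟨h1.trans (mul_le_mul_of_nonneg_right hE2 (hb0 m)),
    h2.trans (mul_le_mul_of_nonneg_right hE2 (norm_nonneg _))⟩

end Pool.Agent.helper98.ILF
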