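import Pool.Agent.helper98.ILF.ExpTrap

/-!
# Exponential maps with a trapping disc: the Julia set has area zero (main theorem)
-/

set_option autoImplicit false

open Metric Set Filter Complex MeasureTheory Topology

namespace Pool.Agent.helper98.ILF

lemma injOn_exp_ball (c w : ℂ) {s : ℝ} (hs : s ≤ 1 / 2) :
    InjOn (fun z : ℂ => Complex.exp z + c) (ball w s) := by
  intro x hx y hy hxy
  have h1 : Complex.exp x = Complex.exp y := add_right_cancel hxy
  obtain ⟨n, hn⟩ := Complex.exp_eq_exp_iff_exists_int.1 h1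
  have h2 : ‖x - y‖ < 1 := by
    rw [← dist_eq_norm]
    calc dist x y ≤ dist x w + dist y w := dist_triangle_right _ _ _
      _ < s + s := add_lt_add hx hy
      _ ≤ 1 := by linarith
  have h3 : x - y = n * (2 * Real.pi * Complex.I) := by rw [hn]; ring
  rw [h3, norm_mul, Complex.norm_intCast] at h2
  have h4 : ‖(2 * Real.pi * Complex.I : ℂ)‖ = 2 * Real.pi := by
    rw [norm_mul, norm_mul, Complex.norm_I, Complex.norm_real, Real.norm_of_nonneg Real.pi_pos.le]
    simp
  rw [h4] at h2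
  have hpi := Real.pi_gt_three
  have h5 : n = 0 := by
    by_contra hne
    have h6 : (1 : ℝ) ≤ |(n : ℝ)| := by exact_mod_cast Int.one_le_abs hne
    nlinarith
  rw [hn, h5]
  simp

/-- Uniform non density at points with large real part. -/
lemma density_large {S : Set ℂ} (hSm : MeasurableSet S) {c : ℂ} {M X : ℝ}
    (hSf : ∀ z, Complex.exp z + c ∈ S ↔ z ∈ S) (hre : ∀ z ∈ S, -M < z.re)
    (hS : ∀ u : ℂ, X ≤ u.re → Real.cos u.im ≤ -1 / 2 → u ∉ S) {s : ℝ} (hs : 0 < s)
    (hs2 : s ≤ 1 / 2) :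
    ∃ X₂ : ℝ, ∃ ε > 0, ∀ w ∈ S, X₂ ≤ w.re → ENNReal.ofReal ε ≤ volume (ball w s \ S) := by
  set f : ℂ → ℂ := fun z => Complex.exp z + c with hf
  have hfd : Differentiable ℂ f := (liftMap_exp c).diff
  refine ⟨Real.log (8 * (17 + 4 * |X + M|) / s), Real.pi * s ^ 2 * Real.exp (-(2 * s)) / 3072,
    by positivity, fun w hw hX => ?_⟩
  have hE : 8 * (17 + 4 * |X + M|) / s ≤ Real.exp w.re := by
    rw [← Real.log_le_iff_le_exp (by positivity)]; exact hX
  rw [div_le_iff₀ hs] at hE
  set E := Real.exp w.re with hEdef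
  have hE0 : 0 < E := Real.exp_pos _
  set ϱ : ℝ := E * s / 8 with hϱ
  have hϱ1 : 17 + 4 * |X + M| ≤ ϱ := by rw [hϱ]; linarith
  have habs := abs_nonneg (X + M)
  have habs' := le_abs_self (X + M)
  have hϱ0 : 0 < ϱ := by positivity
  have hfw : -M < (f w).re := hre _ ((hSf w).2 hw)
  have hvol := volume_ball_diff_ge hfw hS (ϱ := ϱ) (by linarith) (by linarith)
  have himg : ball (f w) ϱ \ S ⊆ f '' (ball w s \ S) := by
    rintro y ⟨hy, hyS⟩
    rw [mem_ball, dist_eq_norm] at hy
    obtain ⟨x, hx, hxw⟩ := exists_exp_eq (z := w) hy.le (by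
      rw [← hEdef, hϱ]
      nlinarith)
    have hfx : f x = y := by
      simp only [hf] at hx ⊢
      rw [hx]; ring
    refine ⟨x, ⟨?_, ?_⟩, hfx⟩
    · rw [mem_ball, dist_eq_norm]
      calc ‖x - w‖ ≤ 2 * ϱ * Real.exp (-w.re) := hxw
        _ = s / 4 * (E * Real.exp (-w.re)) := by rw [hϱ]; ring
        _ = s / 4 := by rw [hEdef, ← Real.exp_add, add_neg_cancel, Real.exp_zero, mul_one]
        _ < s := by linarith
    · intro hxS
      apply hyS
      rw [← hfx]
      exact (hSf x).2 hxS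
  have hvi := volume_image_le (G := f) (T := ball w s \ S) (β := E * Real.exp s)
    (measurableSet_ball.diff hSm) (fun y _ => hfd y)
    ((injOn_exp_ball c w hs2).mono sdiff_subset) (fun y hy => by
      have h1 : deriv f y = Complex.exp y := by
        rw [hf, deriv_add_const]; simp
      rw [h1, Complex.norm_exp, hEdef, ← Real.exp_add]
      apply Real.exp_le_exp.2
      have h2 := Complex.abs_re_le_norm (y - w)
      rw [Complex.sub_re] at h2
      have h3 : ‖y - w‖ < s := by rw [← dist_eq_norm]; exact hy.1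
      have h4 := le_abs_self (y.re - w.re)
      linarith)
  have hchain : ENNReal.ofReal (Real.pi * (ϱ / 4) ^ 2) ≤
      ENNReal.ofReal (3 * (E * Real.exp s) ^ 2) * volume (ball w s \ S) := by
    calc ENNReal.ofReal (Real.pi * (ϱ / 4) ^ 2) ≤ 3 * volume (ball (f w) ϱ \ S) := hvol
      _ ≤ 3 * (ENNReal.ofReal ((E * Real.exp s) ^ 2) * volume (ball w s \ S)) := by
          gcongr
          exact (measure_mono himg).trans hvi
      _ = ENNReal.ofReal (3 * (E * Real.exp s) ^ 2) * volume (ball w s \ S) := by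
          rw [ENNReal.ofReal_mul (by norm_num), ← mul_assoc]
          congr 2
          simp
  by_contra hlt
  rw [not_le] at hlt
  have hK : (0 : ℝ) < 3 * (E * Real.exp s) ^ 2 := by positivity
  have h1 : ENNReal.ofReal (3 * (E * Real.exp s) ^ 2) * volume (ball w s \ S) <
      ENNReal.ofReal (3 * (E * Real.exp s) ^ 2) *
        ENNReal.ofReal (Real.pi * s ^ 2 * Real.exp (-(2 * s)) / 3072) := by
    apply ENNReal.mul_lt_mul_right _ ENNReal.ofReal_ne_top hlt
    exact (ENNReal.ofReal_pos.2 hK).ne'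
  rw [← ENNReal.ofReal_mul hK.le] at h1
  have h2 : 3 * (E * Real.exp s) ^ 2 * (Real.pi * s ^ 2 * Real.exp (-(2 * s)) / 3072) =
      Real.pi * (ϱ / 4) ^ 2 := by
    have h3 : Real.exp s ^ 2 * Real.exp (-(2 * s)) = 1 := by
      rw [← Real.exp_nat_mul, ← Real.exp_add]
      simp
    rw [hϱ]
    calc 3 * (E * Real.exp s) ^ 2 * (Real.pi * s ^ 2 * Real.exp (-(2 * s)) / 3072) =
        Real.pi * (E * s / 8 / 4) ^ 2 * (Real.exp s ^ 2 * Real.exp (-(2 * s))) := by ring
      _ = _ := by rw [h3, mul_one]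
  rw [h2] at h1
  exact absurd (hchain.trans_lt h1) (lt_irrefl _)

lemma exists_int_period (z : ℂ) : ∃ l : ℤ, 0 ≤ (z - l * (2 * Real.pi * Complex.I)).im ∧
    (z - l * (2 * Real.pi * Complex.I)).im ≤ 2 * Real.pi := by
  refine ⟨toIcoDiv Real.two_pi_pos 0 z.im, ?_⟩
  have h := toIcoMod_mem_Ico' Real.two_pi_pos z.im
  have h2 := toIcoMod_add_toIcoDiv_zsmul Real.two_pi_pos 0 z.im
  rw [zsmul_eq_mul] at h2
  have h3 : (z - (toIcoDiv Real.two_pi_pos 0 z.im : ℂ) * (2 * Real.pi * Complex.I)).im =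
      toIcoMod Real.two_pi_pos 0 z.im := by
    simp
  rw [h3]
  exact ⟨h.1, h.2.le⟩

/-- **Area zero for trapped exponential maps.** -/
theorem volume_frontier_basin_exp (c z₀ : ℂ) {ρ : ℝ} {m : ℕ} (hm : 1 ≤ m)
    (htrap : ∀ y ∈ closedBall z₀ ρ, (fun z : ℂ => Complex.exp z + c)^[m] y ∈ ball z₀ ρ)
    (hc : c ∈ basin (fun z : ℂ => Complex.exp z + c) z₀ ρ) :
    volume (frontier (basin (fun z : ℂ => Complex.exp z + c) z₀ ρ)) = 0 := by
  set f : ℂ → ℂ := fun z => Complex.exp z + c with hf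
  have hlift : LiftMap f c 1 1 := liftMap_exp c
  have hfd : Differentiable ℂ f := hlift.diff
  set U := basin f z₀ ρ with hU
  have hUo : IsOpen U := isOpen_basin hfd.continuous z₀ ρ
  have hUf : ∀ z, f z ∈ U ↔ z ∈ U := fun z =>
    ⟨fun h => mem_basin_of_image (k := 1) h, fun h => image_mem_basin hm htrap h⟩
  have hpre : f ⁻¹' U = U := by ext z; exact hUf z
  have hopen : IsOpenMap f := by
    apply isOpenMap_of_liftMap hfd
    intro w
    by_cases h : Complex.exp 0 + c = w
    · refine ⟨1, ?_⟩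
      rw [← h]
      intro h1
      have h2 : Complex.exp 1 = Complex.exp 0 := add_right_cancel h1
      have h3 := congrArg (fun z : ℂ => ‖z‖) h2
      simp [Complex.norm_exp] at h3
    · exact ⟨0, h⟩
  set S := frontier U with hS
  have hSf : ∀ z, f z ∈ S ↔ z ∈ S := by
    intro z
    have := hopen.preimage_frontier_eq_frontier_preimage hfd.continuous U
    rw [hpre] at this
    exact Set.ext_iff.1 this z
  have hScl : IsClosed S := isClosed_frontier
  obtain ⟨j₀, hj₀⟩ := hc
  obtain ⟨ρ1, hρ1, hb⟩ : ∃ ρ1 > 0, ∀ y ∈ closedBall c ρ1, f^[j₀] y ∈ ball z₀ ρ := by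
    have : ∀ᶠ y in 𝓝 c, f^[j₀] y ∈ ball z₀ ρ :=
      (hfd.continuous.iterate j₀).continuousAt.eventually (isOpen_ball.mem_nhds hj₀)
    exact nhds_basis_closedBall.eventually_iff.1 this
  obtain ⟨T, hT, hTU, hT1, hT2⟩ := exists_compact_trap hfd.continuous hm htrap
    (isCompact_closedBall c ρ1) (j₀ := j₀) (fun y hy => ball_subset_closedBall (hb y hy))
  set M := -Real.log ρ1 with hM
  have hleft : ∀ u : ℂ, u.re ≤ -M → ∀ k ≥ 1, f^[k] u ∈ T := by
    intro u hu k hk
    obtain ⟨j, rfl⟩ : ∃ j, k = j + 1 := ⟨k - 1, by omega⟩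
    rw [Function.iterate_succ_apply]
    apply hT1
    rw [mem_closedBall, dist_eq_norm]
    simp only [hf, add_sub_cancel_right, Complex.norm_exp]
    calc Real.exp u.re ≤ Real.exp (Real.log ρ1) := Real.exp_le_exp.2 (by linarith)
      _ = ρ1 := Real.exp_log hρ1
  have hdisj : Disjoint S T := by
    rw [disjoint_left]
    intro z hz1 hz2
    have h1 := hTU hz2
    rw [hS, frontier, hUo.interior_eq] at hz1
    exact hz1.2 h1
  obtain ⟨r, hr, hsep⟩ := exists_separation hScl hT hdisj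
  have hcT : ∀ j, f^[j] c ∈ T := fun j => hT1 c (mem_closedBall_self hρ1.le) j
  have hd : ∀ z ∈ S, ∀ j, 3 * r ≤ ‖z - f^[j] c‖ := fun z hz j => hsep z hz _ (hcT j)
  have hfS : ∀ z ∈ S, f z ∈ S := fun z hz => (hSf z).2 hz
  have hre : ∀ z ∈ S, -M < z.re := by
    intro z hz
    by_contra hlt
    rw [not_lt] at hlt
    exact disjoint_left.1 hdisj (hfS z hz) (hleft z hlt 1 le_rfl)
  have hhalf : ∀ k ≥ 1, ∀ w ∈ S, ∀ u, f^[k] u ∈ ball w (2 * r) → -M < u.re := by
    intro k hk w hw u hu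
    by_contra hlt
    rw [not_lt] at hlt
    have h1 := hsep w hw _ (hleft u hlt k hk)
    rw [mem_ball, dist_comm, dist_eq_norm] at hu
    linarith
  -- periodicity
  have hfper : ∀ (z : ℂ) (l : ℤ), f (z - l * (2 * Real.pi * Complex.I)) = f z := by
    intro z l
    have h1 : Complex.exp (z - l * (2 * Real.pi * Complex.I)) = Complex.exp z := by
      have := Complex.exp_periodic.int_mul l (z - l * (2 * Real.pi * Complex.I))
      rw [sub_add_cancel] at this
      exact this.symm
    simp only [hf, h1]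
  have hSper : ∀ (z : ℂ) (l : ℤ), z - l * (2 * Real.pi * Complex.I) ∈ S ↔ z ∈ S := by
    intro z l
    rw [← hSf, hfper, hSf]
  have hitper : ∀ (z : ℂ) (l : ℤ) (k : ℕ), 1 ≤ k →
      f^[k] (z - l * (2 * Real.pi * Complex.I)) = f^[k] z := by
    intro z l k hk
    obtain ⟨j, rfl⟩ : ∃ j, k = j + 1 := ⟨k - 1, by omega⟩
    rw [Function.iterate_succ_apply, Function.iterate_succ_apply, hfper]
  -- the compact part
  have hQ : ∀ X : ℝ, IsCompact (S ∩ (Icc (-M) X ×ℂ Icc 0 (2 * Real.pi))) := fun X =>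
    (isCompact_Icc.reProdIm isCompact_Icc).inter_left hScl
  have hQmem : ∀ X : ℝ, ∀ z ∈ S, z.re ≤ X → ∃ l : ℤ,
      z - l * (2 * Real.pi * Complex.I) ∈ S ∩ (Icc (-M) X ×ℂ Icc 0 (2 * Real.pi)) := by
    intro X z hz hzX
    obtain ⟨l, hl1, hl2⟩ := exists_int_period z
    refine ⟨l, (hSper z l).2 hz, ?_⟩
    rw [Complex.mem_reProdIm]
    refine ⟨?_, hl1, hl2⟩
    have h1 : (z - l * (2 * Real.pi * Complex.I)).re = z.re := by simp
    rw [h1]
    exact ⟨(hre z hz).le, hzX⟩
  have hesc : ∀ η > 0, ∃ k₀ : ℕ, ∀ k ≥ k₀, ∀ z ∈ S, ∃ x ∈ ball z (η / (z.re + M)),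
      f^[k] x ∉ ball (f^[k] z) r := by
    intro η hη
    obtain ⟨D, hD, hDl⟩ := exists_left c M
    -- threshold
    obtain ⟨X₁, hX₁⟩ : ∃ X₁ : ℝ, ∀ R ≥ X₁, 2 * D ≤ Real.exp R ∧
        (R + M) * (2 * D * Real.exp (-R)) < η := by
      have h1 : Tendsto (fun R : ℝ => (R + M) * (2 * D * Real.exp (-R))) atTop (𝓝 0) := by
        have h2 := (Real.tendsto_pow_mul_exp_neg_atTop_nhds_zero 1).const_mul (2 * D)
        have h3 := (Real.tendsto_pow_mul_exp_neg_atTop_nhds_zero 0).const_mul (2 * D * M)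
        have h4 := h2.add h3
        rw [mul_zero, mul_zero, add_zero] at h4
        refine h4.congr fun R => ?_
        ring
      have h5 := (h1.eventually_lt_const hη).and (Real.tendsto_exp_atTop.eventually_ge_atTop (2 * D))
      obtain ⟨X₁, hX₁⟩ := h5.exists_forall_of_atTop
      exact ⟨X₁, fun R hR => ⟨(hX₁ R hR).2, (hX₁ R hR).1⟩⟩
    set X := max X₁ (1 - M) with hX
    have hXM : 0 < X + M := by have := le_max_right X₁ (1 - M); linarith
    set δ := η / (X + M) with hδ
    have hδ0 : 0 < δ := by positivity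
    obtain ⟨k₁, hk₁⟩ := uniform_of_compact (hQ X) (P := fun k x => f^[k] x ∈ T) hδ0 (by
      intro z hz
      have h1 : z ∈ closure U := frontier_subset_closure hz.1
      obtain ⟨x, hx1, hx2⟩ := Metric.mem_closure_iff.1 h1 (δ / 2) (by positivity)
      refine ⟨x, by rwa [mem_ball, dist_comm], ?_⟩
      obtain ⟨j, hj⟩ := hx1
      refine ⟨j, fun k hk => ?_⟩
      obtain ⟨i, rfl⟩ : ∃ i, k = i + j := ⟨k - j, by omega⟩
      rw [Function.iterate_add_apply]
      exact hT2 _ (ball_subset_closedBall hj) i)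
    refine ⟨max k₁ 3, fun k hk z hz => ?_⟩
    have hk1 : k₁ ≤ k := (le_max_left _ _).trans hk
    have hk3 : 3 ≤ k := (le_max_right _ _).trans hk
    have hzM : 0 < z.re + M := by have := hre z hz; linarith
    -- it suffices to find a point whose iterate is in `T`
    suffices hsuff : ∃ x ∈ ball z (η / (z.re + M)), f^[k] x ∈ T by
      obtain ⟨x, hx1, hx2⟩ := hsuff
      refine ⟨x, hx1, fun hmem => ?_⟩
      have h1 := hsep (f^[k] z) (iterate_mem hfS k z hz) _ hx2
      rw [mem_ball, dist_comm, dist_eq_norm] at hmem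
      linarith
    rcases le_or_gt z.re X with hzX | hzX
    · obtain ⟨l, hl⟩ := hQmem X z hz hzX
      obtain ⟨x, hx1, hx2⟩ := hk₁ _ hl
      refine ⟨x + l * (2 * Real.pi * Complex.I), ?_, ?_⟩
      · rw [mem_ball, dist_eq_norm] at hx1 ⊢
        have h1 : x + l * (2 * Real.pi * Complex.I) - z =
            x - (z - l * (2 * Real.pi * Complex.I)) := by ring
        rw [h1]
        refine hx1.trans_le ?_
        rw [hδ]
        gcongr
      · have h1 := hitper (x + l * (2 * Real.pi * Complex.I)) l k (by omega)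
        rw [add_sub_cancel_right] at h1
        rw [← h1]
        exact hx2 k hk1
    · have hzX₁ : X₁ ≤ z.re := (le_max_left _ _).trans hzX.le
      obtain ⟨h2D, hlt⟩ := hX₁ z.re hzX₁
      obtain ⟨Δ, hΔ, hΔl⟩ := hDl (f z) (hre _ (hfS z hz))
      obtain ⟨x, hx1, hx2⟩ := exists_exp_eq hΔ h2D
      refine ⟨x, ?_, ?_⟩
      · rw [mem_ball, dist_eq_norm, lt_div_iff₀ hzM]
        calc ‖x - z‖ * (z.re + M) ≤ (2 * D * Real.exp (-z.re)) * (z.re + M) := by gcongr
          _ = (z.re + M) * (2 * D * Real.exp (-z.re)) := by ring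
          _ < η := hlt
      · have h1 : f x = f z + Δ := by
          simp only [hf]; rw [hx1]; ring
        obtain ⟨i, rfl⟩ : ∃ i, k = (i + 1) + 2 := ⟨k - 3, by omega⟩
        rw [Function.iterate_add_apply]
        apply hleft _ _ (i + 1) (by omega)
        rw [show f^[2] x = f (f x) from rfl, h1]
        exact hΔl
  -- non density
  have hint : interior S = ∅ := by
    rw [hS, ← frontier_compl]
    exact interior_frontier hUo.isClosed_compl
  have hright : ∃ X : ℝ, ∀ u : ℂ, X ≤ u.re → Real.cos u.im ≤ -1 / 2 → u ∉ S := by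
    refine ⟨2 * (|M| + ‖c‖), fun u hu hcos huS => ?_⟩
    have h1 := hre _ (hfS u huS)
    simp only [hf, Complex.add_re, Complex.exp_re] at h1
    have h2 := Real.add_one_le_exp u.re
    have h3 := Real.exp_pos u.re
    have h4 : Real.exp u.re * Real.cos u.im ≤ Real.exp u.re * (-1 / 2) := by gcongr
    have h5 := Complex.abs_re_le_norm c
    have h6 := le_abs_self c.re
    have h7 := le_abs_self M
    linarith
  obtain ⟨X, hX⟩ := hright
  have hden : ∀ s > 0, ∃ ε > 0, ∀ w ∈ S, ENNReal.ofReal ε ≤ volume (ball w s \ S) := by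
    intro s hs
    set s' := min s (1 / 2) with hs'
    have hs'0 : 0 < s' := by positivity
    obtain ⟨X₂, ε₂, hε₂, h2⟩ := density_large hScl.measurableSet hSf hre hX hs'0 (min_le_right _ _)
    obtain ⟨ε₁, hε₁, h1⟩ := density_of_compact' hScl (hQ X₂) hint s' hs'0
    refine ⟨min ε₁ ε₂, by positivity, fun w hw => ?_⟩
    have hmono : volume (ball w s' \ S) ≤ volume (ball w s \ S) :=
      measure_mono (sdiff_subset_sdiff_left (ball_subset_ball (min_le_left _ _)))
    refine le_trans ?_ hmono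
    rcases le_total w.re X₂ with hwX | hwX
    · obtain ⟨l, hl⟩ := hQmem X₂ w hw hwX
      have h3 := h1 _ hl
      have h4 : (fun u : ℂ => u + l * (2 * Real.pi * Complex.I)) ⁻¹' (ball w s' \ S) =
          ball (w - l * (2 * Real.pi * Complex.I)) s' \ S := by
        ext u
        simp only [mem_preimage, Set.mem_sdiff, mem_ball, dist_eq_norm]
        have h5 := hSper (u + l * (2 * Real.pi * Complex.I)) l
        rw [add_sub_cancel_right] at h5
        rw [h5]
        have h6 : u + l * (2 * Real.pi * Complex.I) - w =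
            u - (w - l * (2 * Real.pi * Complex.I)) := by ring
        rw [h6]
      rw [← h4, measure_preimage_add_right] at h3
      exact (ENNReal.ofReal_le_ofReal (min_le_left _ _)).trans h3
    · exact (ENNReal.ofReal_le_ofReal (min_le_right _ _)).trans (h2 w hw hwX)
  obtain ⟨k₀, hk₀⟩ := expansion hlift hfS hr hd hhalf hesc 2
  obtain ⟨C, hC, θ, hθ0, hθ1, hexp⟩ := exp_growth hlift hfS hr hd (le_max_right k₀ 1)
    (hk₀ (max k₀ 1) (le_max_left _ _))
  exact volume_eq_zero hlift hScl.measurableSet hfS hr hd hC hθ0 hθ1 hexp hden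

/-- The Julia set is contained in the boundary of the basin. -/
lemma juliaSet_subset_frontier_basin {f : ℂ → ℂ} (hfd : Differentiable ℂ f) {z₀ : ℂ} {ρ : ℝ}
    (hρ : 0 < ρ) {m : ℕ} (hm : 1 ≤ m) (htrap : ∀ y ∈ closedBall z₀ ρ, f^[m] y ∈ ball z₀ ρ) :
    juliaSet f ⊆ frontier (basin f z₀ ρ) := by
  set U := basin f z₀ ρ with hU
  have hUo : IsOpen U := isOpen_basin hfd.continuous z₀ ρ
  rw [juliaSet, compl_subset_comm]
  have hsub : U ∪ interior Uᶜ ⊆ fatouSet f := by
    apply interior_maximal _ (hUo.union isOpen_interior)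
    rintro z (hz | hz)
    · obtain ⟨j, hj⟩ := hz
      have h1 : ∀ᶠ y in 𝓝 z, f^[j] y ∈ ball z₀ ρ :=
        (hfd.continuous.iterate j).continuousAt.eventually (isOpen_ball.mem_nhds hj)
      obtain ⟨δ, hδ, hb⟩ := nhds_basis_closedBall.eventually_iff.1 h1
      obtain ⟨T, hT, -, hT1, -⟩ := exists_compact_trap hfd.continuous hm htrap
        (isCompact_closedBall z δ) (j₀ := j) (fun y hy => ball_subset_closedBall (hb hy))
      obtain ⟨B, hB⟩ := hT.isBounded.exists_norm_le
      exact equicontAt_of_bounded hfd hδ fun k w hw => hB _ (hT1 w (ball_subset_closedBall hw) k)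
    · obtain ⟨δ, hδ, hb⟩ := Metric.isOpen_iff.1 isOpen_interior z hz
      refine equicontAt_of_omit hfd (z₀ := z₀) (ρ := ρ) (k₁ := 0) hδ hρ ?_
      intro k _ w hw
      by_contra hlt
      rw [not_le] at hlt
      have h1 : w ∈ Uᶜ := interior_subset (hb hw)
      exact h1 ⟨k, by rw [mem_ball, dist_eq_norm]; exact hlt⟩
  intro z hz
  apply hsub
  by_contra hcon
  simp only [mem_union, not_or] at hcon
  apply hz
  rw [frontier, hUo.interior_eq]
  refine ⟨?_, hcon.1⟩
  rw [interior_compl] at hcon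
  have := hcon.2
  simpa using this

/-- An exponential map whose singular value is eventually in a trapping disc has a Julia set of
area zero. -/
theorem volume_juliaSet_exp (c z₀ : ℂ) {ρ : ℝ} (hρ : 0 < ρ) {m : ℕ} (hm : 1 ≤ m)
    (htrap : ∀ y ∈ closedBall z₀ ρ, (fun z : ℂ => Complex.exp z + c)^[m] y ∈ ball z₀ ρ)
    (hc : c ∈ basin (fun z : ℂ => Complex.exp z + c) z₀ ρ) :
    volume (juliaSet (fun z : ℂ => Complex.exp z + c)) = 0 :=
  measure_mono_null (juliaSet_subset_frontier_basin (liftMap_exp c).diff hρ hm htrap)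
    (volume_frontier_basin_exp c z₀ hm htrap hc)

end Pool.Agent.helper98.ILF
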