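import Pool.Agent.helper98.ILF.ExpParam

/-!
# The area of the non-hyperbolic parameters of the exponential family
-/

set_option autoImplicit false

open Metric Set Filter Complex MeasureTheory Topology

namespace Pool.Agent.helper98.ILF

/-- Parameters of a box whose singular orbit moves fast to the right up to time `k`. -/
def contSet (x y : ℝ) (k : ℕ) : Set ℂ :=
  {c | ((x ≤ c.re ∧ c.re ≤ x + 1) ∧ (y ≤ c.im ∧ c.im ≤ y + 2 * Real.pi)) ∧
    ∀ j, 1 ≤ j → j ≤ k → 4 + rsum c j ≤ (orb c j).re}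

/-- The parameters of `contSet x y k` which are undecided at time `k + 1`. -/
def thinSet (x y : ℝ) (k : ℕ) : Set ℂ :=
  {c | c ∈ contSet x y k ∧ |(orb c (k + 1)).re| < 4 + rsum c (k + 1)}

lemma continuous_rsum (k : ℕ) : Continuous (fun c => rsum c k) := by
  unfold rsum
  exact continuous_finsetSum _ fun j _ => Complex.continuous_re.comp (continuous_orb j)

lemma isClosed_contSet (x y : ℝ) (k : ℕ) : IsClosed (contSet x y k) := by
  apply IsClosed.inter
  · apply IsClosed.inter
    · exact (isClosed_le continuous_const Complex.continuous_re).inter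
        (isClosed_le Complex.continuous_re continuous_const)
    · exact (isClosed_le continuous_const Complex.continuous_im).inter
        (isClosed_le Complex.continuous_im continuous_const)
  · have : {c : ℂ | ∀ j, 1 ≤ j → j ≤ k → 4 + rsum c j ≤ (orb c j).re} =
        ⋂ j : ℕ, ⋂ _ : 1 ≤ j, ⋂ _ : j ≤ k, {c : ℂ | 4 + rsum c j ≤ (orb c j).re} := by
      ext c; simp
    change IsClosed {c : ℂ | ∀ j, 1 ≤ j → j ≤ k → 4 + rsum c j ≤ (orb c j).re}
    rw [this]
    exact isClosed_iInter fun j => isClosed_iInter fun _ => isClosed_iInter fun _ =>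
      isClosed_le (continuous_const.add (continuous_rsum j))
        (Complex.continuous_re.comp (continuous_orb j))

lemma contSet_mono {x y : ℝ} {k l : ℕ} (h : k ≤ l) : contSet x y l ⊆ contSet x y k :=
  fun _ hc => ⟨hc.1, fun j h1 h2 => hc.2 j h1 (h2.trans h)⟩

/-- Growth of the real parts. -/
lemma re_orb_ge {x y : ℝ} (hx : 7 ≤ x) {k : ℕ} {c : ℂ} (hc : c ∈ contSet x y k) :
    ∀ j ≤ k, c.re + 3 * j ≤ (orb c j).re := by
  intro j
  induction j using Nat.strong_induction_on with
  | _ j ih =>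
    intro hj
    rcases Nat.eq_zero_or_pos j with rfl | hj0
    · simp [orb]
    · have h1 := hc.2 j hj0 hj
      have hcx : 7 ≤ c.re := hx.trans hc.1.1.1
      have h2 : (j : ℝ) * c.re ≤ rsum c j := by
        rw [rsum]
        calc (j : ℝ) * c.re = ∑ _i ∈ Finset.range j, c.re := by simp
          _ ≤ ∑ i ∈ Finset.range j, (orb c i).re := by
              apply Finset.sum_le_sum
              intro i hi
              have h3 := Finset.mem_range.1 hi
              have h4 := ih i h3 (by omega)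
              have h5 : (0 : ℝ) ≤ i := by positivity
              linarith
      have h3 : (1 : ℝ) ≤ j := by exact_mod_cast hj0
      nlinarith

lemma seven_le_orb {x y : ℝ} (hx : 7 ≤ x) {k : ℕ} {c : ℂ} (hc : c ∈ contSet x y k) :
    ∀ j ≤ k, 7 ≤ (orb c j).re := by
  intro j hj
  have h1 := re_orb_ge hx hc j hj
  have h2 : 7 ≤ c.re := hx.trans hc.1.1.1
  have h3 : (0 : ℝ) ≤ j := by positivity
  linarith

lemma rsum_nonneg {x y : ℝ} (hx : 7 ≤ x) {k : ℕ} {c : ℂ} (hc : c ∈ contSet x y k) :
    ∀ j ≤ k + 1, 0 ≤ rsum c j := by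
  intro j hj
  rw [rsum]
  apply Finset.sum_nonneg
  intro i hi
  have h1 := Finset.mem_range.1 hi
  have := seven_le_orb hx hc i (by omega)
  linarith

/-- In the thin set the cosine is small. -/
lemma thin_cos {x y : ℝ} (hx : 7 ≤ x) {k : ℕ} {c : ℂ} (hc : c ∈ thinSet x y k) :
    |Real.cos (orb c k).im| ≤ 3 * ((x + 3 * k) * Real.exp (-(x + 3 * k))) := by
  obtain ⟨hck, hthin⟩ := hc
  set X := (orb c k).re with hX
  have hcx : x ≤ c.re := hck.1.1.1
  have h1 : c.re + 3 * k ≤ X := re_orb_ge hx hck k le_rfl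
  have hk0 : (0 : ℝ) ≤ k := by positivity
  have h2 : 4 + rsum c k ≤ X := by
    rcases Nat.eq_zero_or_pos k with rfl | hk
    · simp [rsum] at h1 ⊢; linarith
    · exact hck.2 k hk le_rfl
  have hre : (orb c (k + 1)).re = Real.exp X * Real.cos (orb c k).im + c.re := by
    simp only [orb, Complex.add_re, Complex.exp_re]
    rfl
  rw [rsum_succ, hre] at hthin
  have hE := Real.exp_pos X
  have h3 : Real.exp X * |Real.cos (orb c k).im| ≤ 3 * X := by
    have h4 : |Real.exp X * Real.cos (orb c k).im| ≤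
        |Real.exp X * Real.cos (orb c k).im + c.re| + |c.re| := by
      have h5 := abs_sub (Real.exp X * Real.cos (orb c k).im + c.re) c.re
      rwa [add_sub_cancel_right] at h5
    rw [abs_mul, abs_of_pos hE, abs_of_nonneg (by linarith : 0 ≤ c.re)] at h4
    linarith
  have h4 : |Real.cos (orb c k).im| ≤ 3 * (X * Real.exp (-X)) := by
    calc |Real.cos (orb c k).im| = Real.exp X * |Real.cos (orb c k).im| * Real.exp (-X) := by
          rw [mul_comm (Real.exp X), mul_assoc, ← Real.exp_add, add_neg_cancel, Real.exp_zero,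
            mul_one]
      _ ≤ 3 * X * Real.exp (-X) := by gcongr
      _ = _ := by ring
  refine h4.trans ?_
  have h5 : x + 3 * k ≤ X := by linarith
  set Y := x + 3 * k with hY
  have hY1 : 1 ≤ Y := by linarith
  -- `t exp (-t)` is decreasing
  have h6 : X ≤ Y * Real.exp (X - Y) := by
    have h7 := Real.add_one_le_exp (X - Y)
    nlinarith
  have h7 : X * Real.exp (-X) ≤ Y * Real.exp (-Y) := by
    calc X * Real.exp (-X) ≤ Y * Real.exp (X - Y) * Real.exp (-X) := by gcongr
      _ = Y * (Real.exp (X - Y) * Real.exp (-X)) := by ring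
      _ = Y * Real.exp (-Y) := by rw [← Real.exp_add]; congr 2; ring
  linarith

lemma box_volume (x y : ℝ) :
    volume {z : ℂ | (x - 1 ≤ z.re ∧ z.re ≤ x + 2) ∧
      (y - 1 ≤ z.im ∧ z.im ≤ y + 2 * Real.pi + 1)} ≤ ENNReal.ofReal 25 := by
  have hpi := Real.pi_lt_d2
  have hpi0 := Real.pi_pos
  rw [volume_rect, ← ENNReal.ofReal_mul (by linarith)]
  apply ENNReal.ofReal_le_ofReal
  nlinarith

lemma closedBall_subset_box {x y : ℝ} {c : ℂ} {r : ℝ} (hr : r ≤ 1)
    (hc : (x ≤ c.re ∧ c.re ≤ x + 1) ∧ (y ≤ c.im ∧ c.im ≤ y + 2 * Real.pi)) :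
    closedBall c r ⊆ {z : ℂ | (x - 1 ≤ z.re ∧ z.re ≤ x + 2) ∧
      (y - 1 ≤ z.im ∧ z.im ≤ y + 2 * Real.pi + 1)} := by
  intro z hz
  rw [mem_closedBall, dist_eq_norm] at hz
  have h1 := abs_le.1 ((Complex.abs_re_le_norm (z - c)).trans (hz.trans hr))
  have h2 := abs_le.1 ((Complex.abs_im_le_norm (z - c)).trans (hz.trans hr))
  rw [Complex.sub_re] at h1
  rw [Complex.sub_im] at h2
  obtain ⟨⟨h3, h4⟩, h5, h6⟩ := hc
  exact ⟨⟨by linarith [h1.1], by linarith [h1.2]⟩, by linarith [h2.1], by linarith [h2.2]⟩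

lemma volume_thinSet {x : ℝ} (hx : 7 ≤ x) (y : ℝ) (k : ℕ) :
    volume (thinSet x y k) ≤
      ENNReal.ofReal (75000 * ((x + 3 * k) * Real.exp (-(x + 3 * k)))) := by
  have hk0 : (0 : ℝ) ≤ k := by positivity
  set ε : ℝ := 3 * ((x + 3 * k) * Real.exp (-(x + 3 * k))) with hε
  have hε0 : 0 ≤ ε := by
    have : 0 ≤ x + 3 * k := by linarith
    positivity
  have h1 := volume_le_of_local (N := thinSet x y k)
    (Q := {z : ℂ | (x - 1 ≤ z.re ∧ z.re ≤ x + 2) ∧ (y - 1 ≤ z.im ∧ z.im ≤ y + 2 * Real.pi + 1)})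
    (r := fun c => Real.exp (-rsum c k) / 20) (θ := ENNReal.ofReal (1000 * ε)) (R := 1)
    (fun c hc => ⟨by positivity, by
      have h2 := rsum_nonneg hx hc.1 k (by omega)
      have h3 : Real.exp (-rsum c k) ≤ 1 := Real.exp_le_one_iff.2 (by linarith)
      linarith⟩)
    (fun c hc => closedBall_subset_box (by
      have h2 := rsum_nonneg hx hc.1 k (by omega)
      have h3 : Real.exp (-rsum c k) ≤ 1 := Real.exp_le_one_iff.2 (by linarith)
      linarith) hc.1.1)
    (fun c hc => by
      have h2 := thin_local (c := c) (k := k)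
        (fun j hj => seven_le_orb hx hc.1 j hj.le) hε0
      refine (measure_mono ?_).trans h2
      rintro c' ⟨hc'1, hc'2⟩
      exact ⟨hc'2, thin_cos hx hc'1⟩)
  refine h1.trans ?_
  calc ENNReal.ofReal (1000 * ε) * volume _ ≤ ENNReal.ofReal (1000 * ε) * ENNReal.ofReal 25 := by
        gcongr
        exact box_volume x y
    _ = ENNReal.ofReal (75000 * ((x + 3 * k) * Real.exp (-(x + 3 * k)))) := by
        rw [← ENNReal.ofReal_mul (by positivity)]
        congr 1
        rw [hε]; ring

lemma volume_iInter_contSet {x : ℝ} (hx : 7 ≤ x) (y : ℝ) :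
    volume (⋂ k : ℕ, contSet x y k) = 0 := by
  set F := ⋂ k : ℕ, contSet x y k with hF
  have hFc : IsClosed F := isClosed_iInter fun k => isClosed_contSet x y k
  apply volume_zero_of_porous hFc.measurableSet (q := 1 / 1000) (by norm_num)
  intro c hc
  have hck : ∀ k, c ∈ contSet x y k := fun k => mem_iInter.1 hc k
  refine ⟨fun k => 15 * Real.exp (-rsum c k), fun k => by positivity, ?_, fun k => ?_⟩
  · have h1 : Tendsto (fun k : ℕ => 15 * (Real.exp (-7)) ^ k) atTop (𝓝 (15 * 0)) :=
      (tendsto_pow_atTop_nhds_zero_of_lt_one (Real.exp_pos _).le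
        (Real.exp_lt_one_iff.2 (by norm_num))).const_mul 15
    rw [mul_zero] at h1
    apply squeeze_zero (fun k => by positivity) _ h1
    intro k
    have h2 : (k : ℝ) * 7 ≤ rsum c k := by
      rw [rsum]
      calc (k : ℝ) * 7 = ∑ _i ∈ Finset.range k, (7 : ℝ) := by simp
        _ ≤ _ := Finset.sum_le_sum fun i _ => seven_le_orb hx (hck i) i le_rfl
    rw [← Real.exp_nat_mul]
    gcongr
    linarith
  · refine (porous_local (c := c) (k := k)
      (fun j _ => seven_le_orb hx (hck j) j le_rfl)).trans (measure_mono ?_)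
    rintro c' ⟨hc1, hc2⟩
    refine ⟨hc1, fun hc'F => ?_⟩
    have hc'k : ∀ k, c' ∈ contSet x y k := fun k => mem_iInter.1 hc'F k
    have h1 := (hc'k (k + 1)).2 (k + 1) (by omega) le_rfl
    have h2 := rsum_nonneg hx (hc'k k) (k + 1) le_rfl
    have h3 : (orb c' (k + 1)).re =
        Real.exp (orb c' k).re * Real.cos (orb c' k).im + c'.re := by
      simp only [orb, Complex.add_re, Complex.exp_re]
    rw [h3] at h1
    have h4 := re_orb_ge hx (hc'k k) k le_rfl
    have hk0 : (0 : ℝ) ≤ k := by positivity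
    have h5 : 2 * (orb c' k).re ≤ Real.exp (orb c' k).re := by
      have h6 := Real.quadratic_le_exp_of_nonneg (x := (orb c' k).re)
        (by have := seven_le_orb hx (hc'k k) k le_rfl; linarith)
      have h7 := seven_le_orb hx (hc'k k) k le_rfl
      nlinarith
    have h6 : Real.exp (orb c' k).re * Real.cos (orb c' k).im ≤
        Real.exp (orb c' k).re * (-1 / 2) := by gcongr
    linarith

/-- The exceptional parameters of the exponential family: there is no attracting cycle, or the Julia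
set has positive area. -/
def expBad : Set ℂ :=
  {c | ¬ (HasAttractingCycle (fun z : ℂ => Complex.exp z + c) ∧
    volume (juliaSet (fun z : ℂ => Complex.exp z + c)) = 0)}

lemma expBad_subset {x : ℝ} (hx : 7 ≤ x) (y : ℝ) :
    expBad ∩ {c : ℂ | (x ≤ c.re ∧ c.re ≤ x + 1) ∧ (y ≤ c.im ∧ c.im ≤ y + 2 * Real.pi)} ⊆
      (⋃ k : ℕ, thinSet x y k) ∪ ⋂ k : ℕ, contSet x y k := by
  rintro c ⟨hbad, hbox⟩
  by_contra hcon
  rw [mem_union, not_or, mem_iUnion, mem_iInter, not_exists, not_forall] at hcon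
  obtain ⟨hthin, hcont⟩ := hcon
  classical
  have hmin := Nat.find_spec hcont
  have h0 : c ∈ contSet x y 0 := ⟨hbox, fun j h1 h2 => by omega⟩
  have hpos : Nat.find hcont ≠ 0 := by
    intro h
    rw [h] at hmin
    exact hmin h0
  obtain ⟨k, hk⟩ := Nat.exists_eq_succ_of_ne_zero hpos
  have hk' : c ∈ contSet x y k := by
    by_contra h
    have := Nat.find_min' hcont h
    omega
  rw [hk] at hmin
  have h1 : (orb c (k + 1)).re < 4 + rsum c (k + 1) := by
    by_contra hlt
    rw [not_lt] at hlt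
    apply hmin
    refine ⟨hbox, fun j hj1 hj2 => ?_⟩
    rcases Nat.lt_or_ge j (k + 1) with hj | hj
    · exact hk'.2 j hj1 (by omega)
    · have : j = k + 1 := by omega
      rw [this]; exact hlt
  have h2 : (orb c (k + 1)).re ≤ -(4 + rsum c (k + 1)) := by
    by_contra hlt
    rw [not_le] at hlt
    exact hthin k ⟨hk', abs_lt.2 ⟨hlt, h1⟩⟩
  apply hbad
  exact good_of_left (fun j hj => by
    have := seven_le_orb hx hk' j (by omega)
    linarith) h2

/-- The area of the exceptional parameters in a box. -/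
theorem volume_expBad_box {x : ℝ} (hx : 7 ≤ x) (y : ℝ) :
    volume (expBad ∩ {c : ℂ | (x ≤ c.re ∧ c.re ≤ x + 1) ∧
      (y ≤ c.im ∧ c.im ≤ y + 2 * Real.pi)}) ≤ ENNReal.ofReal (150000 * (x * Real.exp (-x))) := by
  refine (measure_mono (expBad_subset hx y)).trans ?_
  refine (measure_union_le _ _).trans ?_
  rw [volume_iInter_contSet hx y, add_zero]
  refine (measure_iUnion_le _).trans ?_
  have hterm : ∀ k : ℕ, volume (thinSet x y k) ≤
      ENNReal.ofReal (75000 * (x * Real.exp (-x))) * ENNReal.ofReal ((1 / 2) ^ k) := by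
    intro k
    refine (volume_thinSet hx y k).trans ?_
    rw [← ENNReal.ofReal_mul (by have : 0 ≤ x := by linarith
                                 positivity)]
    apply ENNReal.ofReal_le_ofReal
    have hk0 : (0 : ℝ) ≤ k := by positivity
    have h1 : x + 3 * k ≤ x * (1 + 3 * k) := by nlinarith
    have hE : Real.exp (-(x + 3 * k)) = Real.exp (-x) * Real.exp (-3) ^ k := by
      rw [← Real.exp_nat_mul, ← Real.exp_add]; congr 1; ring
    have h2 : Real.exp (-3) ≤ 1 / 8 := by
      rw [Real.exp_neg, ← one_div]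
      apply one_div_le_one_div_of_le (by norm_num)
      have h1 : Real.exp 3 = Real.exp 1 ^ 3 := by rw [← Real.exp_nat_mul]; norm_num
      have h2 := Real.exp_one_gt_d9
      rw [h1]
      calc (8 : ℝ) ≤ 2.7 ^ 3 := by norm_num
        _ ≤ Real.exp 1 ^ 3 := by gcongr; linarith
    have h3 : (1 + 3 * (k : ℝ)) * (1 / 8) ^ k ≤ (1 / 2) ^ k := by
      have h4 := one_add_mul_le_pow (a := (3 : ℝ)) (by norm_num) k
      have h5 : (1 + (3 : ℝ)) ^ k * (1 / 8) ^ k = (1 / 2) ^ k := by
        rw [← mul_pow]; norm_num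
      have h6 : (0 : ℝ) ≤ (1 / 8) ^ k := by positivity
      rw [← h5]
      gcongr
      linarith
    have h4 : Real.exp (-3) ^ k ≤ (1 / 8) ^ k := pow_le_pow_left₀ (Real.exp_pos _).le h2 k
    have hx0 : 0 ≤ x := by linarith
    calc 75000 * ((x + 3 * k) * Real.exp (-(x + 3 * k)))
        ≤ 75000 * ((x * (1 + 3 * k)) * (Real.exp (-x) * (1 / 8) ^ k)) := by
          rw [hE]
          gcongr
      _ = 75000 * (x * Real.exp (-x)) * ((1 + 3 * k) * (1 / 8) ^ k) := by ring
      _ ≤ 75000 * (x * Real.exp (-x)) * (1 / 2) ^ k := by gcongr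
  calc ∑' k, volume (thinSet x y k) ≤
      ∑' k : ℕ, ENNReal.ofReal (75000 * (x * Real.exp (-x))) * ENNReal.ofReal ((1 / 2) ^ k) :=
        ENNReal.tsum_le_tsum hterm
    _ = ENNReal.ofReal (75000 * (x * Real.exp (-x))) * ∑' k : ℕ, ENNReal.ofReal ((1 / 2) ^ k) :=
        ENNReal.tsum_mul_left
    _ = ENNReal.ofReal (75000 * (x * Real.exp (-x))) * ENNReal.ofReal 2 := by
        congr 1
        rw [← ENNReal.ofReal_tsum_of_nonneg (fun k => by positivity) summable_geometric_two,
          tsum_geometric_two]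
    _ = ENNReal.ofReal (150000 * (x * Real.exp (-x))) := by
        have : 0 ≤ x := by linarith
        rw [← ENNReal.ofReal_mul (by positivity)]
        congr 1
        ring

end Pool.Agent.helper98.ILF
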