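import Pool.Agent.helper98.ILF.ExpGood
import Pool.Agent.helper98.ILF.Cover

/-!
# Parameter dependence of the singular orbit of `exp z + c`
-/

set_option autoImplicit false

open Metric Set Filter Complex MeasureTheory Topology

namespace Pool.Agent.helper98.ILF

/-- The derivative of `orb c k` with respect to `c`. -/
noncomputable def dorb (c : ℂ) : ℕ → ℂ
  | 0 => 1
  | k + 1 => Complex.exp (orb c k) * dorb c k + 1

lemma hasDerivAt_orb (c : ℂ) (k : ℕ) : HasDerivAt (fun c => orb c k) (dorb c k) c := by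
  induction k with
  | zero => exact hasDerivAt_id c
  | succ k ih => exact ih.cexp.add (hasDerivAt_id c)

lemma differentiable_orb (k : ℕ) : Differentiable ℂ (fun c => orb c k) :=
  fun c => (hasDerivAt_orb c k).differentiableAt

lemma continuous_orb (k : ℕ) : Continuous (fun c => orb c k) := (differentiable_orb k).continuous

lemma deriv_orb (c : ℂ) (k : ℕ) : deriv (fun c => orb c k) c = dorb c k :=
  (hasDerivAt_orb c k).deriv

/-- The sum of the first points of the singular orbit. -/
noncomputable def msum (c : ℂ) (k : ℕ) : ℂ := ∑ j ∈ Finset.range k, orb c j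

lemma msum_succ (c : ℂ) (k : ℕ) : msum c (k + 1) = msum c k + orb c k := by
  rw [msum, Finset.sum_range_succ]; rfl

lemma msum_re (c : ℂ) (k : ℕ) : (msum c k).re = rsum c k := by
  rw [msum, rsum, Complex.re_sum]

lemma norm_exp_msum (c : ℂ) (k : ℕ) : ‖Complex.exp (msum c k)‖ = Real.exp (rsum c k) := by
  rw [Complex.norm_exp, msum_re]

lemma pow_le_exp_rsum {c : ℂ} {k : ℕ} {B : ℝ} (hB : 0 ≤ B)
    (h : ∀ j < k, B ≤ Real.exp (orb c j).re) : B ^ k ≤ Real.exp (rsum c k) := by
  induction k with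
  | zero => simp [rsum]
  | succ k ih =>
    rw [rsum_succ, Real.exp_add, pow_succ]
    exact mul_le_mul (ih fun j hj => h j (by omega)) (h k (by omega)) hB (Real.exp_pos _).le

lemma dorb_close {c : ℂ} {k : ℕ} {B : ℝ} (hB : 1 < B) (h : ∀ j < k, B ≤ Real.exp (orb c j).re) :
    ‖dorb c k - Complex.exp (msum c k)‖ ≤ Real.exp (rsum c k) * ((1 - B⁻¹ ^ k) / (B - 1)) := by
  induction k with
  | zero => simp [dorb, msum]
  | succ k ih =>
    have ih' := ih fun j hj => h j (by omega)
    have hB0 : 0 < B := by linarith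
    have hB1 : 0 < B - 1 := by linarith
    have h1 : dorb c (k + 1) - Complex.exp (msum c (k + 1)) =
        Complex.exp (orb c k) * (dorb c k - Complex.exp (msum c k)) + 1 := by
      rw [msum_succ, Complex.exp_add]
      simp only [dorb]
      ring
    have h2 : 1 ≤ Real.exp (rsum c (k + 1)) * B⁻¹ ^ (k + 1) := by
      have h3 := pow_le_exp_rsum hB0.le h
      rw [inv_pow, ← div_eq_mul_inv, le_div_iff₀ (by positivity), one_mul]
      exact h3
    have h4 : (1 - B⁻¹ ^ k) / (B - 1) + B⁻¹ ^ (k + 1) = (1 - B⁻¹ ^ (k + 1)) / (B - 1) := by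
      rw [pow_succ]
      field_simp
      ring
    rw [h1]
    calc ‖Complex.exp (orb c k) * (dorb c k - Complex.exp (msum c k)) + 1‖
        ≤ ‖Complex.exp (orb c k) * (dorb c k - Complex.exp (msum c k))‖ + ‖(1 : ℂ)‖ :=
          norm_add_le _ _
      _ = Real.exp (orb c k).re * ‖dorb c k - Complex.exp (msum c k)‖ + 1 := by
          rw [norm_mul, Complex.norm_exp, norm_one]
      _ ≤ Real.exp (orb c k).re * (Real.exp (rsum c k) * ((1 - B⁻¹ ^ k) / (B - 1))) +
          Real.exp (rsum c (k + 1)) * B⁻¹ ^ (k + 1) := by gcongr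
      _ = Real.exp (rsum c (k + 1)) * ((1 - B⁻¹ ^ k) / (B - 1) + B⁻¹ ^ (k + 1)) := by
          rw [rsum_succ, Real.exp_add]; ring
      _ = _ := by rw [h4]

lemma sum_pow_sub_le {q : ℝ} (hq0 : 0 ≤ q) (hq1 : q < 1) (k : ℕ) :
    ∑ j ∈ Finset.range k, q ^ (k - j) ≤ q / (1 - q) := by
  have h1q : 0 < 1 - q := by linarith
  induction k with
  | zero => simp; positivity
  | succ k ih =>
    rw [Finset.sum_range_succ]
    have h1 : ∑ j ∈ Finset.range k, q ^ (k + 1 - j) = q * ∑ j ∈ Finset.range k, q ^ (k - j) := by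
      rw [Finset.mul_sum]
      apply Finset.sum_congr rfl
      intro j hj
      have := Finset.mem_range.1 hj
      rw [show k + 1 - j = (k - j) + 1 by omega, pow_succ]
      ring
    rw [h1, show k + 1 - k = 1 by omega, pow_one]
    calc q * ∑ j ∈ Finset.range k, q ^ (k - j) + q ≤ q * (q / (1 - q)) + q := by gcongr
      _ = q / (1 - q) := by field_simp; ring

lemma exp_seven : 1000 ≤ Real.exp 7 := by
  have h1 : Real.exp 7 = Real.exp 1 ^ 7 := by rw [← Real.exp_nat_mul]; norm_num
  have h2 := Real.exp_one_gt_d9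
  rw [h1]
  calc (1000 : ℝ) ≤ 2.7 ^ 7 := by norm_num
    _ ≤ Real.exp 1 ^ 7 := by gcongr; linarith

/-- On the disc of radius `16 / |exp (msum c k)|` around `c` the map `orb _ k` is nearly linear. -/
lemma near_linear {c c' : ℂ} {k : ℕ} (h : ∀ j < k, 7 ≤ (orb c j).re)
    (hc' : ‖c' - c‖ ≤ 16 * Real.exp (-rsum c k)) :
    ‖dorb c' k - Complex.exp (msum c k)‖ ≤ Real.exp (rsum c k) / 4 := by
  set B := Real.exp 7 with hB
  have hB1000 : 1000 ≤ B := exp_seven
  have hEB : ∀ j < k, B ≤ Real.exp (orb c j).re := fun j hj => Real.exp_le_exp.2 (h j hj)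
  have hb := growth_bound (E := fun j => Real.exp (orb c j).re)
    (e := fun j => ‖orb c' j - orb c j‖) (B := B) (D := 16) (t := ‖c' - c‖) (k := k)
    (by linarith) (by norm_num) (by linarith) hEB
    (norm_nonneg _) le_rfl (by
      intro j hj
      have h1 := norm_exp_sub_exp_le (orb c' j) (orb c j)
      have h2 : orb c' (j + 1) - orb c (j + 1) =
          (Complex.exp (orb c' j) - Complex.exp (orb c j)) + (c' - c) := by
        simp only [orb]
        ring
      rw [h2]
      have := norm_add_le (Complex.exp (orb c' j) - Complex.exp (orb c j)) (c' - c)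
      linarith) (fun j => norm_nonneg _) (by
      rw [prod_exp_eq]
      calc ‖c' - c‖ * Real.exp (rsum c k) ≤ 16 * Real.exp (-rsum c k) * Real.exp (rsum c k) := by
            gcongr
        _ = 16 * (Real.exp (-rsum c k) * Real.exp (rsum c k)) := by ring
        _ = 16 := by rw [← Real.exp_add, neg_add_cancel, Real.exp_zero, mul_one])
  have hBi0 : 0 ≤ B⁻¹ := by positivity
  have hBi : B⁻¹ ≤ 1 / 1000 := by
    rw [← one_div]
    exact one_div_le_one_div_of_le (by norm_num) hB1000
  have he : ∀ j < k, ‖orb c' j - orb c j‖ ≤ 1 / 10 := by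
    intro j hj
    have h1 := (hb j hj.le).2
    have h2 : B⁻¹ ^ (k - j) ≤ B⁻¹ := by
      have : k - j ≠ 0 := by omega
      exact pow_le_of_le_one hBi0 (by linarith) this
    nlinarith
  have hsum : ∑ j ∈ Finset.range k, ‖orb c' j - orb c j‖ ≤ 1 / 30 := by
    calc ∑ j ∈ Finset.range k, ‖orb c' j - orb c j‖
        ≤ ∑ j ∈ Finset.range k, 2 * 16 * B⁻¹ ^ (k - j) :=
          Finset.sum_le_sum fun j hj => (hb j (Finset.mem_range.1 hj).le).2
      _ = 32 * ∑ j ∈ Finset.range k, B⁻¹ ^ (k - j) := by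
          rw [Finset.mul_sum]; apply Finset.sum_congr rfl; intro j _; ring
      _ ≤ 32 * (B⁻¹ / (1 - B⁻¹)) := by
          gcongr
          exact sum_pow_sub_le hBi0 (by linarith) k
      _ ≤ 1 / 30 := by
          rw [mul_div_assoc', div_le_iff₀ (by linarith)]
          linarith
  -- the sums of the orbits
  set δ : ℂ := msum c' k - msum c k with hδ
  have hδn : ‖δ‖ ≤ 1 / 30 := by
    rw [hδ, msum, msum, ← Finset.sum_sub_distrib]
    exact (norm_sum_le _ _).trans hsum
  have h1 : ‖Complex.exp (msum c' k) - Complex.exp (msum c k)‖ ≤ Real.exp (rsum c k) / 15 := by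
    have h2 : Complex.exp (msum c' k) - Complex.exp (msum c k) =
        Complex.exp (msum c k) * (Complex.exp δ - 1) := by
      rw [mul_sub, ← Complex.exp_add, hδ]; simp
    have h3 := Complex.norm_exp_sub_one_le (x := δ) (by linarith)
    rw [h2, norm_mul, norm_exp_msum]
    calc Real.exp (rsum c k) * ‖Complex.exp δ - 1‖ ≤ Real.exp (rsum c k) * (2 * (1 / 30)) := by
          gcongr; linarith
      _ = Real.exp (rsum c k) / 15 := by ring
  have hexp1 : Real.exp 1 ≤ 2.72 := by have := Real.exp_one_lt_d9; linarith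
  have hrs : Real.exp (rsum c' k) ≤ 3 * Real.exp (rsum c k) := by
    have h2 : rsum c' k ≤ 1 + rsum c k := by
      have h3 := Complex.abs_re_le_norm δ
      rw [hδ, Complex.sub_re, msum_re, msum_re] at h3
      have h4 := le_abs_self (rsum c' k - rsum c k)
      linarith
    calc Real.exp (rsum c' k) ≤ Real.exp (1 + rsum c k) := Real.exp_le_exp.2 h2
      _ = Real.exp 1 * Real.exp (rsum c k) := Real.exp_add _ _
      _ ≤ 3 * Real.exp (rsum c k) := by gcongr; linarith
  have hEB' : ∀ j < k, B / 3 ≤ Real.exp (orb c' j).re := by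
    intro j hj
    have h3 := Complex.abs_re_le_norm (orb c' j - orb c j)
    rw [Complex.sub_re] at h3
    have h4 := neg_abs_le ((orb c' j).re - (orb c j).re)
    have h5 := he j hj
    have h6 : 7 - 1 ≤ (orb c' j).re := by have := h j hj; linarith
    calc B / 3 ≤ B / Real.exp 1 := by gcongr; linarith
      _ = Real.exp (7 - 1) := by rw [hB, Real.exp_sub]
      _ ≤ Real.exp (orb c' j).re := Real.exp_le_exp.2 h6
  have h7 := dorb_close (by linarith : 1 < B / 3) hEB'
  have h8 : ‖dorb c' k - Complex.exp (msum c' k)‖ ≤ Real.exp (rsum c k) / 100 := by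
    calc ‖dorb c' k - Complex.exp (msum c' k)‖ ≤
        Real.exp (rsum c' k) * ((1 - (B / 3)⁻¹ ^ k) / (B / 3 - 1)) := h7
      _ ≤ Real.exp (rsum c' k) * (1 / (B / 3 - 1)) := by
          have : 0 < B / 3 - 1 := by linarith
          have h9 : 0 ≤ (B / 3)⁻¹ ^ k := by positivity
          gcongr
          linarith
      _ ≤ (3 * Real.exp (rsum c k)) * (1 / 300) := by
          have : (300 : ℝ) ≤ B / 3 - 1 := by linarith
          gcongr
      _ = Real.exp (rsum c k) / 100 := by ring
  have h9 : dorb c' k - Complex.exp (msum c k) = (dorb c' k - Complex.exp (msum c' k)) +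
      (Complex.exp (msum c' k) - Complex.exp (msum c k)) := by ring
  rw [h9]
  have h10 := norm_add_le (dorb c' k - Complex.exp (msum c' k))
    (Complex.exp (msum c' k) - Complex.exp (msum c k))
  have h11 := Real.exp_pos (rsum c k)
  linarith

section Local

variable {c : ℂ} {k : ℕ}

lemma near_linear_sub (h : ∀ j < k, 7 ≤ (orb c j).re) {c₁ c₂ : ℂ}
    (h1 : c₁ ∈ closedBall c (16 * Real.exp (-rsum c k)))
    (h2 : c₂ ∈ closedBall c (16 * Real.exp (-rsum c k))) :
    ‖(orb c₂ k - orb c₁ k) - Complex.exp (msum c k) * (c₂ - c₁)‖ ≤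
      Real.exp (rsum c k) / 4 * ‖c₂ - c₁‖ := by
  set P := Complex.exp (msum c k) with hP
  have hd : ∀ y ∈ closedBall c (16 * Real.exp (-rsum c k)),
      HasDerivWithinAt (fun y => orb y k - P * y) (dorb y k - P)
        (closedBall c (16 * Real.exp (-rsum c k))) y := by
    intro y _
    have h3 : HasDerivAt (fun y : ℂ => P * y) P y := by
      simpa using (hasDerivAt_id y).const_mul P
    exact ((hasDerivAt_orb y k).sub h3).hasDerivWithinAt
  have h4 := (convex_closedBall c (16 * Real.exp (-rsum c k))).norm_image_sub_le_of_norm_hasDerivWithin_le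
    hd (fun y hy => near_linear h (by rw [← dist_eq_norm]; exact hy)) h1 h2
  have h5 : (orb c₂ k - orb c₁ k) - P * (c₂ - c₁) =
      (orb c₂ k - P * c₂) - (orb c₁ k - P * c₁) := by ring
  rw [h5]
  exact h4

lemma le_norm_orb_sub (h : ∀ j < k, 7 ≤ (orb c j).re) {c₁ c₂ : ℂ}
    (h1 : c₁ ∈ closedBall c (16 * Real.exp (-rsum c k)))
    (h2 : c₂ ∈ closedBall c (16 * Real.exp (-rsum c k))) :
    3 / 4 * Real.exp (rsum c k) * ‖c₂ - c₁‖ ≤ ‖orb c₂ k - orb c₁ k‖ := by
  have h3 := near_linear_sub h h1 h2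
  have h4 : ‖Complex.exp (msum c k) * (c₂ - c₁)‖ = Real.exp (rsum c k) * ‖c₂ - c₁‖ := by
    rw [norm_mul, norm_exp_msum]
  have h5 : Complex.exp (msum c k) * (c₂ - c₁) = (orb c₂ k - orb c₁ k) -
      ((orb c₂ k - orb c₁ k) - Complex.exp (msum c k) * (c₂ - c₁)) := by ring
  have h6 := norm_sub_le (orb c₂ k - orb c₁ k)
    ((orb c₂ k - orb c₁ k) - Complex.exp (msum c k) * (c₂ - c₁))
  rw [← h5, h4] at h6
  linarith

lemma norm_orb_sub_le (h : ∀ j < k, 7 ≤ (orb c j).re) {c₁ c₂ : ℂ}
    (h1 : c₁ ∈ closedBall c (16 * Real.exp (-rsum c k)))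
    (h2 : c₂ ∈ closedBall c (16 * Real.exp (-rsum c k))) :
    ‖orb c₂ k - orb c₁ k‖ ≤ 5 / 4 * Real.exp (rsum c k) * ‖c₂ - c₁‖ := by
  have h3 := near_linear_sub h h1 h2
  have h4 : ‖Complex.exp (msum c k) * (c₂ - c₁)‖ = Real.exp (rsum c k) * ‖c₂ - c₁‖ := by
    rw [norm_mul, norm_exp_msum]
  have h5 : orb c₂ k - orb c₁ k = ((orb c₂ k - orb c₁ k) - Complex.exp (msum c k) * (c₂ - c₁)) +
      Complex.exp (msum c k) * (c₂ - c₁) := by ring
  have h6 := norm_add_le ((orb c₂ k - orb c₁ k) - Complex.exp (msum c k) * (c₂ - c₁))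
    (Complex.exp (msum c k) * (c₂ - c₁))
  rw [← h5, h4] at h6
  linarith

lemma injOn_orb (h : ∀ j < k, 7 ≤ (orb c j).re) :
    InjOn (fun c => orb c k) (closedBall c (16 * Real.exp (-rsum c k))) := by
  intro c₁ h1 c₂ h2 h12
  have h3 := le_norm_orb_sub h h1 h2
  have h4 : orb c₂ k - orb c₁ k = 0 := sub_eq_zero.2 (Eq.symm h12)
  rw [h4, norm_zero] at h3
  have h5 := Real.exp_pos (rsum c k)
  have h6 : ‖c₂ - c₁‖ ≤ 0 := by
    by_contra hlt
    rw [not_le] at hlt
    have : 0 < 3 / 4 * Real.exp (rsum c k) * ‖c₂ - c₁‖ := by positivity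
    linarith
  exact (sub_eq_zero.1 (norm_le_zero_iff.1 h6)).symm

lemma norm_dorb_bounds (h : ∀ j < k, 7 ≤ (orb c j).re) {c' : ℂ}
    (hc' : c' ∈ closedBall c (16 * Real.exp (-rsum c k))) :
    3 / 4 * Real.exp (rsum c k) ≤ ‖dorb c' k‖ ∧ ‖dorb c' k‖ ≤ 5 / 4 * Real.exp (rsum c k) := by
  have h1 := near_linear h (by rw [← dist_eq_norm]; exact hc')
  have h2 := norm_exp_msum c k
  constructor
  · have h3 := norm_sub_norm_le (Complex.exp (msum c k)) (dorb c' k)
    rw [norm_sub_rev, h2] at h3
    linarith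
  · have h3 := norm_sub_norm_le (dorb c' k) (Complex.exp (msum c k))
    rw [h2] at h3
    linarith

/-- The thin set has small proportion near every point. -/
lemma thin_local (h : ∀ j < k, 7 ≤ (orb c j).re) {ε : ℝ} (hε : 0 ≤ ε) :
    volume {c' : ℂ | c' ∈ closedBall c (5 * (Real.exp (-rsum c k) / 20)) ∧
        |Real.cos (orb c' k).im| ≤ ε} ≤
      ENNReal.ofReal (1000 * ε) * volume (closedBall c (Real.exp (-rsum c k) / 20)) := by
  set m := Real.exp (rsum c k) with hm
  have hm0 : 0 < m := Real.exp_pos _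
  have hmi : Real.exp (-rsum c k) = 1 / m := by rw [Real.exp_neg, one_div]
  set N : Set ℂ := {c' : ℂ | c' ∈ closedBall c (5 * (Real.exp (-rsum c k) / 20)) ∧
        |Real.cos (orb c' k).im| ≤ ε} with hN
  have hcont := continuous_orb k
  have hNm : MeasurableSet N := by
    have h1 : IsClosed N := by
      apply IsClosed.inter isClosed_closedBall
      exact isClosed_le (Real.continuous_cos.comp (Complex.continuous_im.comp hcont)).abs
        continuous_const
    exact h1.measurableSet
  have hsub : N ⊆ closedBall c (16 * Real.exp (-rsum c k)) := by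
    intro c' hc'
    refine closedBall_subset_closedBall ?_ hc'.1
    have := Real.exp_pos (-rsum c k)
    linarith
  have hcc : c ∈ closedBall c (16 * Real.exp (-rsum c k)) :=
    mem_closedBall_self (by positivity)
  have hvi := volume_image_ge (G := fun c => orb c k) (T := N) (β := 3 / 4 * m) hNm
    (by positivity) (fun y _ => differentiable_orb k y) ((injOn_orb h).mono hsub)
    (fun y hy => by rw [deriv_orb]; exact (norm_dorb_bounds h (hsub hy)).1)
  have himg : (fun c => orb c k) '' N ⊆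
      {z : ℂ | z ∈ closedBall (orb c k) (5 / 16) ∧ |Real.cos z.im| ≤ ε} := by
    rintro _ ⟨c', hc', rfl⟩
    refine ⟨?_, hc'.2⟩
    have h1 := norm_orb_sub_le h hcc (hsub hc')
    rw [mem_closedBall, dist_eq_norm]
    have h2 : ‖c' - c‖ ≤ 1 / m / 4 := by
      have := hc'.1
      rw [mem_closedBall, dist_eq_norm, hmi] at this
      linarith
    calc ‖orb c' k - orb c k‖ ≤ 5 / 4 * m * ‖c' - c‖ := h1
      _ ≤ 5 / 4 * m * (1 / m / 4) := by gcongr
      _ = 5 / 16 := by field_simp; norm_num
  have hstrip := volume_thin_strip (orb c k) (ρ := 5 / 16) (by norm_num) (by norm_num) hε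
  have hchain : ENNReal.ofReal ((3 / 4 * m) ^ 2) * volume N ≤
      ENNReal.ofReal (4 * Real.pi * (5 / 16) * ε) :=
    hvi.trans ((measure_mono himg).trans hstrip)
  have hpos : (0 : ℝ) < (3 / 4 * m) ^ 2 := by positivity
  have hNle : volume N ≤ ENNReal.ofReal (4 * Real.pi * (5 / 16) * ε / (3 / 4 * m) ^ 2) := by
    rw [ENNReal.ofReal_div_of_pos hpos, ENNReal.le_div_iff_mul_le
      (Or.inl (ENNReal.ofReal_pos.2 hpos).ne') (Or.inl ENNReal.ofReal_ne_top), mul_comm]
    exact hchain
  refine hNle.trans ?_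
  rw [volume_closedBall_eq _ (by positivity), ← ENNReal.ofReal_mul (by positivity), hmi]
  apply ENNReal.ofReal_le_ofReal
  rw [div_le_iff₀ hpos]
  have hpi := Real.pi_pos
  have h3 : 1000 * ε * (Real.pi * (1 / m / 20) ^ 2) * (3 / 4 * m) ^ 2 =
      (1000 * 9 / (400 * 16)) * (Real.pi * ε) := by
    field_simp
    ring
  rw [h3]
  have h4 : 0 ≤ Real.pi * ε := by positivity
  linarith

/-- In the disc of radius `15 / |exp (msum c k)|` a definite proportion of the parameters is sent to
the left. -/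
lemma porous_local (h : ∀ j < k, 7 ≤ (orb c j).re) :
    ENNReal.ofReal (1 / 1000 * (Real.pi * (15 * Real.exp (-rsum c k)) ^ 2)) ≤
      volume {c' : ℂ | c' ∈ closedBall c (15 * Real.exp (-rsum c k)) ∧
        Real.cos (orb c' k).im ≤ -1 / 2} := by
  set m := Real.exp (rsum c k) with hm
  have hm0 : 0 < m := Real.exp_pos _
  have hmi : Real.exp (-rsum c k) = 1 / m := by rw [Real.exp_neg, one_div]
  have hpi := Real.pi_pos
  have hpi3 := Real.pi_gt_three
  have hpi4 := Real.pi_lt_d2
  set g : ℂ → ℂ := fun c => orb c k with hg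
  have hgd : Differentiable ℂ g := differentiable_orb k
  -- a centre
  obtain ⟨v, hv, hcos⟩ : ∃ v : ℝ, |v| ≤ Real.pi ∧
      ∀ y : ℝ, |y| ≤ 1 → Real.cos ((orb c k).im + v + y) ≤ -1 / 2 := by
    refine ⟨-toIocMod Real.two_pi_pos (-Real.pi) ((orb c k).im - Real.pi), ?_, ?_⟩
    · have h := toIocMod_mem_Ioc Real.two_pi_pos (-Real.pi) ((orb c k).im - Real.pi)
      rw [abs_neg, abs_le]
      constructor
      · exact h.1.le
      · have := h.2
        linarith
    · intro y hy
      have h := toIocMod_add_toIocDiv_zsmul Real.two_pi_pos (-Real.pi) ((orb c k).im - Real.pi)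
      set q := toIocDiv Real.two_pi_pos (-Real.pi) ((orb c k).im - Real.pi)
      set m' := toIocMod Real.two_pi_pos (-Real.pi) ((orb c k).im - Real.pi)
      have h2 : (orb c k).im + -m' + y = (y + Real.pi) + q * (2 * Real.pi) := by
        rw [zsmul_eq_mul] at h
        linarith
      rw [h2, Real.cos_add_int_mul_two_pi, Real.cos_add_pi]
      have h3 := Real.one_sub_sq_div_two_le_cos (x := y)
      have h4 : y ^ 2 ≤ 1 := by
        rw [← sq_abs]
        have := abs_nonneg y
        nlinarith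
      linarith
  set z₁ : ℂ := orb c k + (v : ℂ) * Complex.I with hz₁
  set V : Set ℂ := {c' : ℂ | c' ∈ closedBall c (15 * Real.exp (-rsum c k)) ∧ g c' ∈ ball z₁ 1}
    with hV
  have hVsub : V ⊆ {c' : ℂ | c' ∈ closedBall c (15 * Real.exp (-rsum c k)) ∧
        Real.cos (orb c' k).im ≤ -1 / 2} := by
    rintro c' ⟨hc1, hc2⟩
    refine ⟨hc1, ?_⟩
    rw [mem_ball, dist_eq_norm] at hc2
    have h1 := Complex.abs_im_le_norm (g c' - z₁)
    have h2 : (g c' - z₁).im = (orb c' k).im - ((orb c k).im + v) := by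
      rw [hz₁]; simp [hg]
    rw [h2] at h1
    have h3 := hcos ((orb c' k).im - ((orb c k).im + v)) (by linarith)
    rwa [add_sub_cancel] at h3
  refine le_trans ?_ (measure_mono hVsub)
  have hball : closedBall c (15 * Real.exp (-rsum c k)) ⊆
      closedBall c (16 * Real.exp (-rsum c k)) := by
    apply closedBall_subset_closedBall
    have := Real.exp_pos (-rsum c k)
    linarith
  have hcc : c ∈ closedBall c (16 * Real.exp (-rsum c k)) :=
    mem_closedBall_self (by positivity)
  -- surjectivity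
  have hsurj : ball z₁ 1 ⊆ g '' V := by
    have h1 : ball (g c) (45 / 4 / 2) ⊆ g '' closedBall c (15 * Real.exp (-rsum c k)) := by
      apply (hgd.diffContOnCl).ball_subset_image_closedBall (by positivity)
      · intro c' hc'
        have h2 := le_norm_orb_sub h hcc (hball (sphere_subset_closedBall hc'))
        have h3 : ‖c' - c‖ = 15 * (1 / m) := by
          rw [← dist_eq_norm, ← hmi]; exact hc'
        calc (45 / 4 : ℝ) = 3 / 4 * m * (15 * (1 / m)) := by field_simp; norm_num
          _ = 3 / 4 * m * ‖c' - c‖ := by rw [h3]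
          _ ≤ _ := h2
      · have h2 : ∀ᶠ y in 𝓝[≠] c, g y ≠ g c := by
          filter_upwards [self_mem_nhdsWithin, mem_nhdsWithin_of_mem_nhds
            (closedBall_mem_nhds c (by positivity : 0 < 16 * Real.exp (-rsum c k)))] with y hy1 hy2 h3
          exact hy1 (injOn_orb h hy2 hcc h3)
        exact h2.frequently.filter_mono nhdsWithin_le_nhds
    intro y hy
    have hy' : y ∈ ball (g c) (45 / 4 / 2) := by
      rw [mem_ball] at hy ⊢
      have h2 : dist z₁ (g c) ≤ Real.pi := by
        rw [dist_eq_norm, hz₁, hg]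
        simp only [add_sub_cancel_left]
        rw [norm_mul, Complex.norm_I, mul_one, Complex.norm_real, Real.norm_eq_abs]
        exact hv
      have h3 := dist_triangle y z₁ (g c)
      linarith
    obtain ⟨c', hc', rfl⟩ := h1 hy'
    exact ⟨c', ⟨hc', hy⟩, rfl⟩
  have hVm : MeasurableSet V :=
    measurableSet_closedBall.inter (isOpen_ball.preimage hgd.continuous).measurableSet
  have hVb : V ⊆ closedBall c (16 * Real.exp (-rsum c k)) := fun c' hc' => hball hc'.1
  have hvi := volume_image_le (G := g) (T := V) (β := 5 / 4 * m) hVm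
    (fun y _ => hgd y) ((injOn_orb h).mono hVb)
    (fun y hy => by rw [hg, deriv_orb]; exact (norm_dorb_bounds h (hVb hy)).2)
  have hchain : ENNReal.ofReal (Real.pi * 1 ^ 2) ≤
      ENNReal.ofReal ((5 / 4 * m) ^ 2) * volume V := by
    rw [← volume_ball_eq z₁ zero_le_one]
    exact (measure_mono hsurj).trans hvi
  have hpos : (0 : ℝ) < (5 / 4 * m) ^ 2 := by positivity
  have hle : ENNReal.ofReal (Real.pi * 1 ^ 2 / (5 / 4 * m) ^ 2) ≤ volume V := by
    rw [ENNReal.ofReal_div_of_pos hpos]
    apply ENNReal.div_le_of_le_mul'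
    exact hchain
  refine le_trans ?_ hle
  apply ENNReal.ofReal_le_ofReal
  rw [hmi, le_div_iff₀ hpos]
  have h3 : 1 / 1000 * (Real.pi * (15 * (1 / m)) ^ 2) * (5 / 4 * m) ^ 2 =
      (225 * 25 / 16000) * Real.pi := by
    field_simp
    ring
  rw [h3]
  linarith

end Local

end Pool.Agent.helper98.ILF
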