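import Pool.Agent.helper98.ILF.Density

/-!
# Uniform expansion on the complement of a basin
-/

set_option autoImplicit false

open Metric Set Filter Complex MeasureTheory Topology

namespace Pool.Agent.helper98.ILF

variable {f : ℂ → ℂ} {c : ℂ} {A α : ℝ}

lemma iterate_mem {S : Set ℂ} (hfS : ∀ z ∈ S, f z ∈ S) : ∀ k, ∀ z ∈ S, f^[k] z ∈ S := by
  intro k
  induction k with
  | zero => intro z hz; exact hz
  | succ k ih => intro z hz; rw [Function.iterate_succ_apply]; exact ih _ (hfS z hz)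

lemma deriv_iterate_add (hf : Differentiable ℂ f) (m n : ℕ) (z : ℂ) :
    deriv (f^[m + n]) z = deriv (f^[m]) (f^[n] z) * deriv (f^[n]) z := by
  rw [Function.iterate_add]
  exact deriv_comp z ((hf.iterate m) _) ((hf.iterate n) _)

/-- Quantitative open mapping for maps into a half plane. -/
lemma ball_subset_of_half {G : ℂ → ℂ} {w : ℂ} {r M b : ℝ} (hr : 0 < r)
    (hG : DifferentiableOn ℂ G (ball w (2 * r))) (hinj : InjOn G (ball w (2 * r)))
    (hM : ∀ y ∈ ball w (2 * r), -M < (G y).re) (hb : 0 < b) (hbG : b ≤ ‖deriv G w‖) :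
    ball (G w) (r ^ 2 * b ^ 2 / 16 / ((G w).re + M)) ⊆ G '' ball w r := by
  have h2r : 0 < 2 * r := by linarith
  have hw : w ∈ ball w (2 * r) := mem_ball_self h2r
  set X : ℝ := (G w).re + M with hX
  have hX0 : 0 < X := by have := hM w hw; linarith
  -- the denominator
  set D : ℂ → ℂ := fun y => G y + M + (starRingEnd ℂ) (G w + M) with hD
  have hDre : ∀ y ∈ ball w (2 * r), X < (D y).re := by
    intro y hy
    have := hM y hy
    simp only [hD, Complex.add_re, Complex.ofReal_re, Complex.conj_re]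
    linarith
  have hD0 : ∀ y ∈ ball w (2 * r), D y ≠ 0 := by
    intro y hy h
    have := hDre y hy
    rw [h] at this
    simp at this
    linarith
  have hDX : ∀ y ∈ ball w (2 * r), X ≤ ‖D y‖ := fun y hy =>
    (hDre y hy).le.trans ((le_abs_self _).trans (Complex.abs_re_le_norm _))
  set φ : ℂ → ℂ := fun y => (G y - G w) / D y with hφ
  have hDd : DifferentiableOn ℂ D (ball w (2 * r)) := (hG.add_const _).add_const _
  have hφd : DifferentiableOn ℂ φ (ball w (2 * r)) := (hG.sub_const _).div hDd hD0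
  have hφw : φ w = 0 := by simp [hφ]
  have hφ1 : ∀ y ∈ ball w (2 * r), ‖φ y‖ ≤ 1 := by
    intro y hy
    rw [hφ]
    simp only [norm_div]
    rw [div_le_one (norm_pos_iff.2 (hD0 y hy))]
    apply le_of_sq_le_sq _ (norm_nonneg _)
    rw [Complex.sq_norm, Complex.sq_norm, Complex.normSq_apply, Complex.normSq_apply]
    simp only [hD, Complex.sub_re, Complex.sub_im, Complex.add_re, Complex.add_im,
      Complex.ofReal_re, Complex.ofReal_im, Complex.conj_re, Complex.conj_im]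
    have h1 := hM y hy
    have h2 := hM w hw
    nlinarith
  have hmaps : MapsTo φ (ball w (2 * r)) (closedBall (φ w) 1) := by
    intro y hy
    rw [hφw, mem_closedBall_zero_iff]
    exact hφ1 y hy
  set ψ : ℂ → ℂ := dslope φ w with hψ
  have hψ1 : ∀ y ∈ ball w (2 * r), ‖ψ y‖ ≤ 1 / (2 * r) := fun y hy =>
    Complex.norm_dslope_le_div_of_mapsTo_ball hφd hmaps hy
  have hψd : DifferentiableOn ℂ ψ (ball w (2 * r)) :=
    (Complex.differentiableOn_dslope (isOpen_ball.mem_nhds hw)).2 hφd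
  have hψmaps : MapsTo ψ (ball w (2 * r)) (closedBall (ψ w) (1 / r)) := by
    intro y hy
    rw [mem_closedBall, dist_eq_norm]
    calc ‖ψ y - ψ w‖ ≤ ‖ψ y‖ + ‖ψ w‖ := norm_sub_le _ _
      _ ≤ 1 / (2 * r) + 1 / (2 * r) := add_le_add (hψ1 y hy) (hψ1 w hw)
      _ = 1 / r := by field_simp; norm_num
  have hψdist : ∀ y ∈ ball w (2 * r), ‖ψ y - ψ w‖ ≤ ‖y - w‖ / (2 * r ^ 2) := by
    intro y hy
    have := Complex.dist_le_div_mul_dist_of_mapsTo_ball hψd hψmaps hy
    rw [dist_eq_norm, dist_eq_norm] at this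
    calc _ ≤ 1 / r / (2 * r) * ‖y - w‖ := this
      _ = _ := by field_simp
  have hψw : b / (2 * X) ≤ ‖ψ w‖ := by
    have h1 : HasDerivAt G (deriv G w) w :=
      (hG.differentiableAt (isOpen_ball.mem_nhds hw)).hasDerivAt
    have h2 : HasDerivAt D (deriv G w) w := (h1.add_const _).add_const _
    have h3 := (h1.sub_const (G w)).div h2 (hD0 w hw)
    have h4 : deriv φ w = deriv G w / D w := by
      have h5 := h3.deriv
      rw [sub_self, zero_mul, sub_zero] at h5
      rw [hφ]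
      have h6 : (fun y => (G y - G w) / D y) = (fun y => (fun x => G x - G w) y / D y) := rfl
      rw [h6]
      have h7 : deriv (fun y => (fun x => G x - G w) y / D y) w =
          deriv G w * D w / D w ^ 2 := h5
      rw [h7]
      have := hD0 w hw
      field_simp
    have h8 : ψ w = deriv φ w := by rw [hψ]; exact dslope_same φ w
    rw [h8, h4, norm_div]
    have h9 : D w = ((2 * X : ℝ) : ℂ) := by
      simp only [hD, hX]
      apply Complex.ext
      · simp; ring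
      · simp
    rw [h9, Complex.norm_real, Real.norm_of_nonneg (by positivity)]
    gcongr
  set a : ℝ := b / (2 * X) with ha
  have ha0 : 0 < a := by positivity
  have har : a ≤ 1 / (2 * r) := hψw.trans (hψ1 w hw)
  set ρ : ℝ := r ^ 2 * a with hρ
  have hρ0 : 0 < ρ := by positivity
  have hρr : ρ ≤ r / 2 := by
    calc ρ ≤ r ^ 2 * (1 / (2 * r)) := by rw [hρ]; gcongr
      _ = r / 2 := by field_simp
  have hcl : closedBall w ρ ⊆ ball w (2 * r) := closedBall_subset_ball (by linarith)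
  have hsph : ∀ y ∈ sphere w ρ, 2 * (r ^ 2 * b ^ 2 / 16 / X) ≤ ‖G y - G w‖ := by
    intro y hy
    have hyb : y ∈ ball w (2 * r) := hcl (sphere_subset_closedBall hy)
    have hyw : ‖y - w‖ = ρ := by rw [← dist_eq_norm]; exact hy
    have h1 : a / 2 ≤ ‖ψ y‖ := by
      have h2 := hψdist y hyb
      rw [hyw] at h2
      have h3 : ρ / (2 * r ^ 2) = a / 2 := by rw [hρ]; field_simp
      rw [h3] at h2
      have h4 : ‖ψ w‖ ≤ ‖ψ y‖ + ‖ψ y - ψ w‖ := by
        have : ψ w = ψ y - (ψ y - ψ w) := by ring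
        calc ‖ψ w‖ = ‖ψ y - (ψ y - ψ w)‖ := by rw [← this]
          _ ≤ _ := norm_sub_le _ _
      linarith
    have h2 : φ y = (y - w) * ψ y := by
      have := sub_smul_dslope φ w y
      rw [hφw, sub_zero, smul_eq_mul] at this
      exact this.symm
    have h3 : G y - G w = φ y * D y := by
      rw [hφ]; simp only; rw [div_mul_cancel₀ _ (hD0 y hyb)]
    rw [h3, h2, norm_mul, norm_mul, hyw]
    calc 2 * (r ^ 2 * b ^ 2 / 16 / X) = ρ * (a / 2) * X := by
          rw [hρ, ha]; field_simp; ring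
      _ ≤ ρ * ‖ψ y‖ * ‖D y‖ := by
          have := hDX y hyb
          gcongr
  have hfreq : ∃ᶠ y in 𝓝 w, G y ≠ G w := by
    have h1 : ∀ᶠ y in 𝓝[≠] w, G y ≠ G w := by
      filter_upwards [self_mem_nhdsWithin, mem_nhdsWithin_of_mem_nhds
        (isOpen_ball.mem_nhds hw)] with y hy1 hy2 h
      exact hy1 (hinj hy2 hw h)
    exact h1.frequently.filter_mono nhdsWithin_le_nhds
  have hfin := (hG.diffContOnCl_ball hcl).ball_subset_image_closedBall hρ0 hsph hfreq
  rw [show 2 * (r ^ 2 * b ^ 2 / 16 / X) / 2 = r ^ 2 * b ^ 2 / 16 / X by ring] at hfin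
  exact hfin.trans (image_mono (closedBall_subset_ball (by linarith)))

/-- **Expansion.** -/
theorem expansion (hf : LiftMap f c A α) {S : Set ℂ} (hfS : ∀ z ∈ S, f z ∈ S) {r : ℝ}
    (hr : 0 < r) (hd : ∀ z ∈ S, ∀ j, 3 * r ≤ ‖z - f^[j] c‖) {M : ℝ}
    (hhalf : ∀ k ≥ 1, ∀ w ∈ S, ∀ u, f^[k] u ∈ ball w (2 * r) → -M < u.re)
    (hesc : ∀ η > 0, ∃ k₀ : ℕ, ∀ k ≥ k₀, ∀ z ∈ S, ∃ x ∈ ball z (η / (z.re + M)),
      f^[k] x ∉ ball (f^[k] z) r) (B : ℝ) :
    ∃ k₀ : ℕ, ∀ k ≥ k₀, ∀ z ∈ S, B ≤ ‖deriv (f^[k]) z‖ := by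
  rcases le_or_gt B 0 with hB | hB
  · exact ⟨0, fun k _ z _ => hB.trans (norm_nonneg _)⟩
  obtain ⟨k₀, hk₀⟩ := hesc (r ^ 2 * (1 / B) ^ 2 / 16) (by positivity)
  refine ⟨max k₀ 1, fun k hk z hz => ?_⟩
  by_contra hlt
  rw [not_le] at hlt
  have hk1 : 1 ≤ k := (le_max_right _ _).trans hk
  set ζ : ℕ → ℂ := fun m => f^[k - m] z with hζ
  have hζS : ∀ m, ζ m ∈ S := fun m => iterate_mem hfS _ z hz
  have hζ0 : ζ 0 = f^[k] z := by simp [hζ]
  have hζk : ζ k = z := by simp [hζ]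
  obtain ⟨G, hG3⟩ := exists_branch hf (ρ := 3 * r) (by linarith) k ζ (backward_orbit f z k) (by
    intro j _ hj
    have h1 := hd (ζ 0) (hζS 0) j
    rw [mem_ball, dist_comm, dist_eq_norm] at hj
    linarith)
  have hG := hG3.mono (ρ' := 2 * r) (by linarith)
  have h2r : 0 < 2 * r := by linarith
  have hcen : G k (ζ 0) = z := by rw [hG.center k le_rfl, hζk]
  have hbG : 1 / B ≤ ‖deriv (G k) (ζ 0)‖ := by
    have h1 := hG.norm_deriv_center hf.diff h2r (le_refl k)
    rw [hζk] at h1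
    rw [div_le_iff₀ hB]
    calc (1 : ℝ) = ‖deriv (f^[k]) z‖ * ‖deriv (G k) (ζ 0)‖ := h1.symm
      _ ≤ B * ‖deriv (G k) (ζ 0)‖ := by gcongr
      _ = _ := mul_comm _ _
  have hsub := ball_subset_of_half (G := G k) (w := ζ 0) (M := M) hr (hG.diff k le_rfl)
    (hG.injOn le_rfl) (fun y hy => hhalf k hk1 (ζ 0) (hζS 0) (G k y)
      (by rw [hG.iterate le_rfl hy]; exact hy)) (by positivity) hbG
  rw [hcen] at hsub
  obtain ⟨x, hx1, hx2⟩ := hk₀ k ((le_max_left _ _).trans hk) z hz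
  obtain ⟨y, hy, rfl⟩ := hsub hx1
  apply hx2
  rw [hG.iterate le_rfl (ball_subset_ball (by linarith) hy), ← hζ0]
  exact hy

/-- Exponential growth of derivatives. -/
theorem exp_growth (hf : LiftMap f c A α) {S : Set ℂ} (hfS : ∀ z ∈ S, f z ∈ S) {r : ℝ}
    (hr : 0 < r) (hd : ∀ z ∈ S, ∀ j, 3 * r ≤ ‖z - f^[j] c‖) {N : ℕ} (hN : 1 ≤ N)
    (h2 : ∀ z ∈ S, 2 ≤ ‖deriv (f^[N]) z‖) :
    ∃ C > 0, ∃ θ > 0, θ < 1 ∧ ∀ m, ∀ z ∈ S, 1 ≤ C * θ ^ m * ‖deriv (f^[m]) z‖ := by
  have hA := hf.A_pos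
  have hN0 : (0 : ℝ) < N := by exact_mod_cast hN
  set κ : ℝ := min 1 (A * (3 * r) ^ α) with hκ
  have hκ0 : 0 < κ := lt_min one_pos (by positivity)
  have hκ1 : κ ≤ 1 := min_le_left _ _
  set θ : ℝ := (1 / 2 : ℝ) ^ (1 / (N : ℝ)) with hθ
  have hθ0 : 0 < θ := by positivity
  have hθN : θ ^ N = 1 / 2 := by
    rw [hθ, ← Real.rpow_natCast, ← Real.rpow_mul (by norm_num), one_div_mul_cancel hN0.ne',
      Real.rpow_one]
  have hθ1 : θ < 1 := Real.rpow_lt_one (by norm_num) (by norm_num) (by positivity)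
  have hx0 : 0 < θ * κ := by positivity
  have hx1 : θ * κ ≤ 1 := by nlinarith
  refine ⟨((θ * κ) ^ N)⁻¹, by positivity, θ, hθ0, hθ1, ?_⟩
  have hder1 : ∀ z ∈ S, κ ≤ ‖deriv f z‖ := by
    intro z hz
    rw [hf.norm_deriv]
    refine (min_le_right _ _).trans ?_
    have h1 := hd (f z) (hfS z hz) 0
    simp only [Function.iterate_zero, id] at h1
    gcongr
    exact hf.α_nonneg
  have hpow : ∀ m, ∀ z ∈ S, κ ^ m ≤ ‖deriv (f^[m]) z‖ := by
    intro m
    induction m with
    | zero => intro z _; simp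
    | succ m ih =>
      intro z hz
      rw [deriv_iterate_add hf.diff m 1, norm_mul, pow_succ]
      simp only [Function.iterate_one]
      exact mul_le_mul (ih _ (hfS z hz)) (hder1 z hz) hκ0.le (norm_nonneg _)
  intro m
  induction m using Nat.strong_induction_on with
  | _ m ih =>
    intro z hz
    rcases lt_or_ge m N with hm | hm
    · have h1 := hpow m z hz
      calc (1 : ℝ) = ((θ * κ) ^ N)⁻¹ * (θ * κ) ^ N := by field_simp
        _ ≤ ((θ * κ) ^ N)⁻¹ * (θ * κ) ^ m := by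
            apply mul_le_mul_of_nonneg_left _ (by positivity)
            exact pow_le_pow_of_le_one hx0.le hx1 hm.le
        _ = ((θ * κ) ^ N)⁻¹ * θ ^ m * κ ^ m := by rw [mul_pow θ κ m]; ring
        _ ≤ _ := by gcongr
    · obtain ⟨j, rfl⟩ : ∃ j, m = j + N := ⟨m - N, by omega⟩
      have h1 := ih j (by omega) (f^[N] z) (iterate_mem hfS N z hz)
      have h3 := h2 z hz
      rw [deriv_iterate_add hf.diff j N, norm_mul, pow_add, hθN]
      set P := ((θ * κ) ^ N)⁻¹ * θ ^ j * ‖deriv (f^[j]) (f^[N] z)‖ with hP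
      calc (1 : ℝ) ≤ P := h1
        _ = P * (1 / 2 * 2) := by ring
        _ ≤ P * (1 / 2 * ‖deriv (f^[N]) z‖) := by
            have : 0 ≤ P := by positivity
            gcongr
        _ = _ := by rw [hP]; ring

end Pool.Agent.helper98.ILF
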