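import Pool.Agent.helper98.ILF.Expand

/-!
# Basins of trapping discs
-/

set_option autoImplicit false

open Metric Set Filter Complex MeasureTheory Topology

namespace Pool.Agent.helper98.ILF

/-- The basin of a disc. -/
def basin (f : ℂ → ℂ) (z₀ : ℂ) (ρ : ℝ) : Set ℂ := {z | ∃ j : ℕ, f^[j] z ∈ ball z₀ ρ}

lemma isOpen_basin {f : ℂ → ℂ} (hf : Continuous f) (z₀ : ℂ) (ρ : ℝ) : IsOpen (basin f z₀ ρ) := by
  have : basin f z₀ ρ = ⋃ j : ℕ, (f^[j]) ⁻¹' ball z₀ ρ := by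
    ext z; simp [basin]
  rw [this]
  exact isOpen_iUnion fun j => (isOpen_ball).preimage (hf.iterate j)

lemma mem_basin_of_image {f : ℂ → ℂ} {z₀ z : ℂ} {ρ : ℝ} {k : ℕ} (h : f^[k] z ∈ basin f z₀ ρ) :
    z ∈ basin f z₀ ρ := by
  obtain ⟨j, hj⟩ := h
  exact ⟨j + k, by rwa [Function.iterate_add_apply]⟩

lemma closedBall_subset_basin {f : ℂ → ℂ} {z₀ : ℂ} {ρ : ℝ} {m : ℕ}
    (htrap : ∀ y ∈ closedBall z₀ ρ, f^[m] y ∈ ball z₀ ρ) : closedBall z₀ ρ ⊆ basin f z₀ ρ :=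
  fun y hy => ⟨m, htrap y hy⟩

lemma iterate_mul_mem {f : ℂ → ℂ} {z₀ : ℂ} {ρ : ℝ} {m : ℕ}
    (htrap : ∀ y ∈ closedBall z₀ ρ, f^[m] y ∈ ball z₀ ρ) {y : ℂ} (hy : y ∈ closedBall z₀ ρ)
    (q : ℕ) : f^[m * q] y ∈ closedBall z₀ ρ := by
  induction q with
  | zero => simpa using hy
  | succ q ih =>
    rw [Nat.mul_succ, add_comm, Function.iterate_add_apply]
    exact ball_subset_closedBall (htrap _ ih)

lemma image_mem_basin {f : ℂ → ℂ} {z₀ : ℂ} {ρ : ℝ} {m : ℕ} (hm : 1 ≤ m)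
    (htrap : ∀ y ∈ closedBall z₀ ρ, f^[m] y ∈ ball z₀ ρ) {z : ℂ} (hz : z ∈ basin f z₀ ρ) :
    f z ∈ basin f z₀ ρ := by
  obtain ⟨j, hj⟩ := hz
  cases j with
  | zero =>
    have h1 := htrap z (ball_subset_closedBall hj)
    refine ⟨m - 1, ?_⟩
    rw [← Function.iterate_succ_apply, Nat.succ_eq_add_one, Nat.sub_add_cancel hm]
    exact h1
  | succ j => exact ⟨j, by rwa [← Function.iterate_succ_apply]⟩

lemma image_iterate_mem_basin {f : ℂ → ℂ} {z₀ : ℂ} {ρ : ℝ} {m : ℕ} (hm : 1 ≤ m)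
    (htrap : ∀ y ∈ closedBall z₀ ρ, f^[m] y ∈ ball z₀ ρ) (k : ℕ) {z : ℂ}
    (hz : z ∈ basin f z₀ ρ) : f^[k] z ∈ basin f z₀ ρ :=
  iterate_mem (fun _ h => image_mem_basin hm htrap h) k z hz

/-- All forward iterates of a compact set which is mapped into the trapping disc stay in a compact
subset of the basin. -/
lemma exists_compact_trap {f : ℂ → ℂ} (hf : Continuous f) {z₀ : ℂ} {ρ : ℝ} {m : ℕ} (hm : 1 ≤ m)
    (htrap : ∀ y ∈ closedBall z₀ ρ, f^[m] y ∈ ball z₀ ρ) {B : Set ℂ} (hB : IsCompact B) {j₀ : ℕ}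
    (hj₀ : ∀ y ∈ B, f^[j₀] y ∈ closedBall z₀ ρ) :
    ∃ T : Set ℂ, IsCompact T ∧ T ⊆ basin f z₀ ρ ∧ (∀ y ∈ B, ∀ j, f^[j] y ∈ T) ∧
      ∀ y ∈ closedBall z₀ ρ, ∀ j, f^[j] y ∈ T := by
  refine ⟨(⋃ i ∈ Finset.range m, f^[i] '' closedBall z₀ ρ) ∪ ⋃ i ∈ Finset.range j₀, f^[i] '' B,
    ?_, ?_, ?_, ?_⟩
  · apply IsCompact.union
    · exact Finset.isCompact_biUnion _ fun i _ => (isCompact_closedBall z₀ ρ).image (hf.iterate i)
    · exact Finset.isCompact_biUnion _ fun i _ => hB.image (hf.iterate i)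
  · intro z hz
    rcases hz with hz | hz
    · simp only [mem_iUnion] at hz
      obtain ⟨i, _, y, hy, rfl⟩ := hz
      exact image_iterate_mem_basin hm htrap i (closedBall_subset_basin htrap hy)
    · simp only [mem_iUnion] at hz
      obtain ⟨i, _, y, hy, rfl⟩ := hz
      exact image_iterate_mem_basin hm htrap i
        (mem_basin_of_image (k := j₀) (closedBall_subset_basin htrap (hj₀ y hy)))
  · intro y hy j
    rcases lt_or_ge j j₀ with hj | hj
    · right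
      simp only [mem_iUnion]
      exact ⟨j, Finset.mem_range.2 hj, y, hy, rfl⟩
    · left
      simp only [mem_iUnion]
      refine ⟨(j - j₀) % m, Finset.mem_range.2 (Nat.mod_lt _ (by omega)),
        f^[m * ((j - j₀) / m)] (f^[j₀] y), iterate_mul_mem htrap (hj₀ y hy) _, ?_⟩
      rw [← Function.iterate_add_apply, ← Function.iterate_add_apply, Nat.mod_add_div]
      congr 2
      omega
  · intro y hy j
    left
    simp only [mem_iUnion]
    refine ⟨j % m, Finset.mem_range.2 (Nat.mod_lt _ (by omega)), f^[m * (j / m)] y,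
      iterate_mul_mem htrap hy _, ?_⟩
    rw [← Function.iterate_add_apply, Nat.mod_add_div]

lemma exists_separation {S T : Set ℂ} (hS : IsClosed S) (hT : IsCompact T) (h : Disjoint S T) :
    ∃ r > 0, ∀ z ∈ S, ∀ t ∈ T, 3 * r ≤ ‖z - t‖ := by
  obtain ⟨δ, hδ, hd⟩ := h.symm.exists_thickenings hT hS
  refine ⟨δ / 3, by positivity, fun z hz t ht => ?_⟩
  by_contra hlt
  rw [not_le] at hlt
  have h1 : z ∈ thickening δ T := by
    rw [mem_thickening_iff]
    exact ⟨t, ht, by rw [dist_eq_norm]; linarith⟩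
  have h2 : z ∈ thickening δ S := self_subset_thickening hδ S hz
  exact disjoint_left.1 hd h1 h2

lemma isOpenMap_of_liftMap {f : ℂ → ℂ} (hf : Differentiable ℂ f) (hne : ∀ w, ∃ z, f z ≠ w) :
    IsOpenMap f := by
  have h1 : AnalyticOnNhd ℂ f univ := fun z _ => hf.analyticAt z
  rcases h1.is_constant_or_isOpen isPreconnected_univ with ⟨w, hw⟩ | h
  · obtain ⟨z, hz⟩ := hne w
    exact absurd (hw z (mem_univ z)) hz
  · intro s hs
    exact h s (subset_univ s) hs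

end Pool.Agent.helper98.ILF
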